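import Mathlib
import Pool.Agent.H188R3.MatAlg

/-!
Positivity in C*-algebras without choosing an order.
-/

set_option autoImplicit false

noncomputable section

namespace Pool.Agent.N299

open scoped NNReal

/-- positivity of an element of a C*-algebra -/
def Pos {A : Type} [CStarAlgebra A] (x : A) : Prop := ∃ y : A, x = star y * y

lemma continuous_hom {A B : Type} [CStarAlgebra A] [CStarAlgebra B] (f : A →⋆ₐ[ℂ] B) :
    Continuous f := by
  refine AddMonoidHomClass.continuous_of_bound f 1 fun x => ?_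
  rw [one_mul]
  exact NonUnitalStarAlgHom.norm_apply_le (f : A →⋆ₙₐ[ℂ] B) x

lemma map_cfc' {A B : Type} [CStarAlgebra A] [CStarAlgebra B] (f : A →⋆ₐ[ℂ] B) (g : ℝ → ℝ)
    (hg : Continuous g) (x : A) (hx : IsSelfAdjoint x) : f (cfc g x) = cfc g (f x) :=
  StarAlgHomClass.map_cfc (S := ℂ) f g x hg.continuousOn (continuous_hom f) hx (hx.map f)

section

variable {A : Type} [CStarAlgebra A]

lemma pos_iff [PartialOrder A] [StarOrderedRing A] (x : A) : Pos x ↔ 0 ≤ x := by
  rw [CStarAlgebra.nonneg_iff_eq_star_mul_self]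
  rfl

lemma Pos.sa {x : A} (h : Pos x) : star x = x := by
  obtain ⟨y, rfl⟩ := h
  simp

lemma Pos.add {x y : A} (hx : Pos x) (hy : Pos y) : Pos (x + y) := by
  let _ : PartialOrder A := CStarAlgebra.spectralOrder A
  let _ : StarOrderedRing A := CStarAlgebra.spectralOrderedRing A
  rw [pos_iff] at *
  exact add_nonneg hx hy

lemma pos_zero : Pos (0 : A) := ⟨0, by simp⟩

lemma pos_star_mul (y : A) : Pos (star y * y) := ⟨y, rfl⟩

lemma Pos.sum {ι : Type} (s : Finset ι) (f : ι → A) (h : ∀ i ∈ s, Pos (f i)) :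
    Pos (∑ i ∈ s, f i) := by
  classical
  induction s using Finset.induction_on with
  | empty => simpa using pos_zero
  | insert a s ha ih =>
    rw [Finset.sum_insert ha]
    exact (h a (Finset.mem_insert_self a s)).add
      (ih fun i hi => h i (Finset.mem_insert_of_mem hi))

lemma Pos.conj {x : A} (h : Pos x) (z : A) : Pos (star z * x * z) := by
  obtain ⟨y, rfl⟩ := h
  exact ⟨y * z, by rw [star_mul]; simp only [mul_assoc]⟩

lemma Pos.smul {x : A} (h : Pos x) {r : ℝ} (hr : 0 ≤ r) : Pos ((r : ℂ) • x) := by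
  obtain ⟨y, rfl⟩ := h
  refine ⟨((Real.sqrt r : ℝ) : ℂ) • y, ?_⟩
  rw [star_smul, smul_mul_smul_comm, RCLike.star_def, Complex.conj_ofReal, ← Complex.ofReal_mul,
    Real.mul_self_sqrt hr]

lemma Pos.map {B : Type} [CStarAlgebra B] (f : A →⋆ₐ[ℂ] B) {x : A} (h : Pos x) : Pos (f x) := by
  obtain ⟨y, rfl⟩ := h
  exact ⟨f y, by rw [map_mul, map_star]⟩

lemma pos_iff_cfc {x : A} (hx : IsSelfAdjoint x) :
    Pos x ↔ cfc (fun t : ℝ => max (-t) 0) x = 0 := by
  let _ : PartialOrder A := CStarAlgebra.spectralOrder A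
  let _ : StarOrderedRing A := CStarAlgebra.spectralOrderedRing A
  have hc : Continuous (fun t : ℝ => max (-t) 0) := by fun_prop
  rw [pos_iff]
  constructor
  · intro h
    rw [← cfc_zero ℝ x]
    refine cfc_congr fun t ht => ?_
    have : 0 ≤ t := spectrum_nonneg_of_nonneg h ht
    simp [this]
  · intro h
    rw [← cfc_zero ℝ x] at h
    have h2 := (cfc_eq_cfc_iff_eqOn (R := ℝ) (a := x) hx hc.continuousOn
      (by exact continuousOn_const)).1 h
    rw [← cfc_id ℝ x]
    refine cfc_nonneg fun t ht => ?_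
    have h3 := h2 ht
    simp only [Pi.zero_apply, sup_eq_right] at h3
    simp only [id]
    linarith

/-- a jointly injective family of homomorphisms reflects positivity -/
lemma pos_of_map {ι : Type} {B : ι → Type} [∀ i, CStarAlgebra (B i)] (f : ∀ i, A →⋆ₐ[ℂ] B i)
    (hf : ∀ x, (∀ i, f i x = 0) → x = 0) {x : A} (h : ∀ i, Pos (f i x)) : Pos x := by
  have hsa : IsSelfAdjoint x := by
    have : star x - x = 0 := by
      apply hf
      intro i
      rw [map_sub, map_star, (h i).sa, sub_self]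
    exact sub_eq_zero.1 this
  have hc : Continuous (fun t : ℝ => max (-t) 0) := by fun_prop
  rw [pos_iff_cfc hsa]
  apply hf
  intro i
  rw [map_cfc' _ _ hc _ hsa]
  exact (pos_iff_cfc (hsa.map (f i))).1 (h i)

lemma pos_of_map_one {B : Type} [CStarAlgebra B] (f : A →⋆ₐ[ℂ] B)
    (hf : Function.Injective f) {x : A} (h : Pos (f x)) : Pos x :=
  pos_of_map (ι := Unit) (fun _ => f)
    (fun y hy => hf (by rw [hy (), map_zero])) (fun _ => h)

lemma real_smul_eq (r : ℝ) (x : A) : (r : ℂ) • x = r • x := Complex.coe_smul r x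

/-- perturbation -/
lemma pos_perturb {x y : A} (hx : Pos x) (hy : star y = y) {δ : ℝ} (h : ‖x - y‖ ≤ δ) :
    Pos (y + (δ : ℂ) • (1 : A)) := by
  let _ : PartialOrder A := CStarAlgebra.spectralOrder A
  let _ : StarOrderedRing A := CStarAlgebra.spectralOrderedRing A
  have hsa : IsSelfAdjoint (x - y) := by
    show star (x - y) = x - y
    rw [star_sub, hx.sa, hy]
  have h1 : x - y ≤ algebraMap ℝ A ‖x - y‖ := IsSelfAdjoint.le_algebraMap_norm_self hsa
  have h2 : algebraMap ℝ A ‖x - y‖ ≤ algebraMap ℝ A δ := algebraMap_mono A h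
  rw [pos_iff] at hx ⊢
  rw [real_smul_eq, ← Algebra.algebraMap_eq_smul_one]
  have h3 : y + algebraMap ℝ A δ = x + (algebraMap ℝ A δ - (x - y)) := by abel
  rw [h3]
  exact add_nonneg hx (sub_nonneg.2 (h1.trans h2))

lemma isClosed_pos : IsClosed {x : A | Pos x} := by
  let _ : PartialOrder A := CStarAlgebra.spectralOrder A
  let _ : StarOrderedRing A := CStarAlgebra.spectralOrderedRing A
  simp only [pos_iff]
  exact CStarAlgebra.isClosed_nonneg

lemma norm_sq_le_of_pos {y z : A} {C : ℝ} (hC : 0 ≤ C)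
    (h : Pos ((C : ℂ) • (star z * z) - star y * y)) : ‖y‖ ^ 2 ≤ C * ‖z‖ ^ 2 := by
  let _ : PartialOrder A := CStarAlgebra.spectralOrder A
  let _ : StarOrderedRing A := CStarAlgebra.spectralOrderedRing A
  rw [pos_iff, sub_nonneg] at h
  have h1 := CStarAlgebra.norm_le_norm_of_nonneg_of_le (star_mul_self_nonneg y) h
  rw [norm_smul, CStarRing.norm_star_mul_self, CStarRing.norm_star_mul_self,
    Complex.norm_real, Real.norm_eq_abs, abs_of_nonneg hC] at h1
  nlinarith

lemma cfc_sa (g : ℝ → ℝ) (x : A) : star (cfc g x) = cfc g x :=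
  IsSelfAdjoint.cfc (f := g) (a := x)

/-- a test element for `x` not above `c` -/
lemma exists_of_not_pos {x : A} (hx : star x = x) {c : ℝ} (h : ¬ Pos (x - (c : ℂ) • (1 : A))) :
    ∃ z : A, z ≠ 0 ∧ Pos ((c : ℂ) • (star z * z) - star z * x * z) := by
  let _ : PartialOrder A := CStarAlgebra.spectralOrder A
  let _ : StarOrderedRing A := CStarAlgebra.spectralOrderedRing A
  have hc : Continuous (fun t : ℝ => max (c - t) 0) := by fun_prop
  have hsa : IsSelfAdjoint x := hx
  refine ⟨cfc (fun t : ℝ => max (c - t) 0) x, ?_, ?_⟩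
  · intro h0
    apply h
    rw [← cfc_zero ℝ x] at h0
    have h2 := (cfc_eq_cfc_iff_eqOn (R := ℝ) (a := x) hsa hc.continuousOn
      (by exact continuousOn_const)).1 h0
    rw [pos_iff, sub_nonneg, real_smul_eq, ← Algebra.algebraMap_eq_smul_one,
      algebraMap_le_iff_le_spectrum hsa]
    intro t ht
    have h3 := h2 ht
    simp only [Pi.zero_apply, sup_eq_right] at h3
    linarith
  · rw [pos_iff, cfc_sa]
    have h1 : (c : ℂ) • (cfc (fun t : ℝ => max (c - t) 0) x * cfc (fun t : ℝ => max (c - t) 0) x)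
        - cfc (fun t : ℝ => max (c - t) 0) x * x * cfc (fun t : ℝ => max (c - t) 0) x
        = cfc (fun t : ℝ => c * (max (c - t) 0 * max (c - t) 0)
            - max (c - t) 0 * t * max (c - t) 0) x := by
      rw [cfc_sub (R := ℝ) _ _ x (by fun_prop) (by fun_prop),
        cfc_const_mul (R := ℝ) _ _ x (by fun_prop),
        cfc_mul (R := ℝ) (fun t => max (c - t) 0) (fun t => max (c - t) 0) x (by fun_prop)
          (by fun_prop), cfc_mul (R := ℝ) (fun t => max (c - t) 0 * t) (fun t => max (c - t) 0) x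
          (by fun_prop) (by fun_prop), cfc_mul (R := ℝ) (fun t => max (c - t) 0) (fun t => t) x
          (by fun_prop) (by fun_prop), cfc_id' ℝ x, real_smul_eq]
    rw [h1]
    refine cfc_nonneg fun t ht => ?_
    rcases le_total (c - t) 0 with h4 | h4
    · simp [h4]
    · rw [max_eq_left h4]
      have : c * ((c - t) * (c - t)) - (c - t) * t * (c - t) = (c - t) * (c - t) * (c - t) := by
        ring
      rw [this]
      positivity

/-- an invertible positive element can be normalised -/
lemma exists_inv {x : A} {r : ℝ} (hr : 0 < r) (h : Pos (x - (r : ℂ) • (1 : A))) :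
    ∃ R : A, star R * x * R = 1 := by
  let _ : PartialOrder A := CStarAlgebra.spectralOrder A
  let _ : StarOrderedRing A := CStarAlgebra.spectralOrderedRing A
  have hsa : IsSelfAdjoint x := by
    have h1 := h.sa
    rw [star_sub, star_smul, star_one, RCLike.star_def, Complex.conj_ofReal] at h1
    exact sub_left_injective h1
  rw [pos_iff, sub_nonneg, real_smul_eq, ← Algebra.algebraMap_eq_smul_one,
    algebraMap_le_iff_le_spectrum hsa] at h
  have hcont : ContinuousOn (fun t : ℝ => (Real.sqrt t)⁻¹) (spectrum ℝ x) := by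
    refine ContinuousOn.inv₀ (by fun_prop) fun t ht => ?_
    have := h t ht
    exact (Real.sqrt_pos.2 (by linarith)).ne'
  refine ⟨cfc (fun t : ℝ => (Real.sqrt t)⁻¹) x, ?_⟩
  rw [cfc_sa]
  nth_rewrite 2 [← cfc_id' ℝ x]
  rw [← cfc_mul (R := ℝ) _ _ x hcont (by fun_prop), ← cfc_mul (R := ℝ)
    (fun t : ℝ => (Real.sqrt t)⁻¹ * t) (fun t : ℝ => (Real.sqrt t)⁻¹) x
    (hcont.mul (by fun_prop)) hcont, ← cfc_one ℝ x]
  refine cfc_congr fun t ht => ?_
  have h0 : 0 < t := by linarith [h t ht]
  have h1 : Real.sqrt t ≠ 0 := (Real.sqrt_pos.2 h0).ne'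
  have h2 : Real.sqrt t * Real.sqrt t = t := Real.mul_self_sqrt h0.le
  simp only [Pi.one_apply]
  field_simp
  nlinarith

/-- cutting down a positive element of large norm -/
lemma exists_cut {x : A} (hx : Pos x) {r : ℝ} (hr : 0 ≤ r) (h : r < ‖x‖) :
    ∃ g : A, g ≠ 0 ∧ Pos (star g * x * g - (r : ℂ) • (star g * g)) := by
  let _ : PartialOrder A := CStarAlgebra.spectralOrder A
  let _ : StarOrderedRing A := CStarAlgebra.spectralOrderedRing A
  have hc : Continuous (fun t : ℝ => max (t - r) 0) := by fun_prop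
  have hsa : IsSelfAdjoint x := hx.sa
  rw [pos_iff] at hx
  refine ⟨cfc (fun t : ℝ => max (t - r) 0) x, ?_, ?_⟩
  · intro h0
    rw [← cfc_zero ℝ x] at h0
    have h2 := (cfc_eq_cfc_iff_eqOn (R := ℝ) (a := x) hsa hc.continuousOn
      (by exact continuousOn_const)).1 h0
    have h3 : ‖cfc (fun t : ℝ => t) x‖ ≤ r := by
      refine norm_cfc_le hr fun t ht => ?_
      have h4 := h2 ht
      simp only [Pi.zero_apply, sup_eq_right] at h4
      have h5 : 0 ≤ t := spectrum_nonneg_of_nonneg hx ht
      rw [Real.norm_eq_abs, abs_of_nonneg h5]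
      linarith
    rw [cfc_id' ℝ x] at h3
    linarith
  · rw [pos_iff, cfc_sa]
    have h1 : cfc (fun t : ℝ => max (t - r) 0) x * x * cfc (fun t : ℝ => max (t - r) 0) x
        - (r : ℂ) • (cfc (fun t : ℝ => max (t - r) 0) x * cfc (fun t : ℝ => max (t - r) 0) x)
        = cfc (fun t : ℝ => max (t - r) 0 * t * max (t - r) 0
            - r * (max (t - r) 0 * max (t - r) 0)) x := by
      rw [cfc_sub (R := ℝ) _ _ x (by fun_prop) (by fun_prop),
        cfc_const_mul (R := ℝ) _ _ x (by fun_prop),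
        cfc_mul (R := ℝ) (fun t => max (t - r) 0) (fun t => max (t - r) 0) x (by fun_prop)
          (by fun_prop), cfc_mul (R := ℝ) (fun t => max (t - r) 0 * t) (fun t => max (t - r) 0) x
          (by fun_prop) (by fun_prop), cfc_mul (R := ℝ) (fun t => max (t - r) 0) (fun t => t) x
          (by fun_prop) (by fun_prop), cfc_id' ℝ x, real_smul_eq]
    rw [h1]
    refine cfc_nonneg fun t ht => ?_
    rcases le_total (t - r) 0 with h4 | h4
    · simp [h4]
    · rw [max_eq_left h4]
      have : (t - r) * t * (t - r) - r * ((t - r) * (t - r)) = (t - r) * (t - r) * (t - r) := by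
        ring
      rw [this]
      positivity

end

end Pool.Agent.N299
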