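import Pool.Agent.N299.Gap
import Pool.Agent.H188R3.IndLim

/-!
The algebras `C_v` and their inductive limits.
-/

set_option autoImplicit false

noncomputable section

namespace Pool.Agent.N299

open Pool.Agent.H188R3 Matrix Pool.Agent.Helper685.OSep TopologicalSpace
open scoped ENNReal

/-- the sizes -/
def NN (k : ℕ) : ℕ := 3 ^ k

instance (k : ℕ) : NeZero (NN k) := ⟨by simp [NN]⟩

lemma odd_NN (k : ℕ) : Odd (NN k) := Odd.pow (by decide)

lemma NN_lt {j k : ℕ} (h : j < k) : 2 * NN j < NN k := by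
  have h1 : 3 ^ (j + 1) ≤ 3 ^ k := Nat.pow_le_pow_right (by norm_num) h
  have h2 : 0 < 3 ^ j := by positivity
  rw [pow_succ] at h1
  simp only [NN]
  omega

lemma NN_ne {j k : ℕ} (h : j ≠ k) : 2 * NN j < NN k ∨ 2 * NN k < NN j := by
  rcases lt_or_gt_of_ne h with h | h
  · exact Or.inl (NN_lt h)
  · exact Or.inr (NN_lt h)

/-- the unitary groups -/
abbrev UG (k : ℕ) : Type := Matrix.unitaryGroup (ZMod (NN k)) ℂ

/-- the parameter space -/
abbrev VV : Type := (k : ℕ) → ℕ → UG k

/-- the embeddings of matrices -/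
def em (j : ℕ) : Matrix (ZMod (NN j)) (ZMod (NN j)) ℂ →⋆ₐ[ℂ] DD := embM (iso_tz (NN j))

/-- the amplifications -/
def am (j : ℕ) : DD →⋆ₐ[ℂ] DD := ampM (iso_tz (NN j))

/-- the terms -/
inductive Tm : Type
  | s (b : Bool) : Tm
  | u (l : Fin 3) : Tm
  | w (i : ℕ) : Tm
  | c (i : ℕ) : Tm
  | add (a b : Tm) : Tm
  | mul (a b : Tm) : Tm
  | adj (a : Tm) : Tm

/-- a code for terms -/
def Tm.code : Tm → List ℕ
  | .s b => [0, if b then 1 else 0]
  | .u l => [1, l.val]
  | .w i => [2, i]
  | .c i => [3, i]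
  | .add a b => 4 :: (a.code ++ b.code)
  | .mul a b => 5 :: (a.code ++ b.code)
  | .adj a => 6 :: a.code

lemma Tm.code_prefix (a b : Tm) (x y : List ℕ) (h : a.code ++ x = b.code ++ y) :
    a = b ∧ x = y := by
  induction a generalizing b x y with
  | s c =>
    cases b <;> simp [Tm.code] at h
    rename_i c'
    cases c <;> cases c' <;> simp_all
  | u l =>
    cases b <;> simp [Tm.code] at h
    exact ⟨by rw [Fin.ext h.1], h.2⟩
  | w i =>
    cases b <;> simp [Tm.code] at h
    exact ⟨by rw [h.1], h.2⟩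
  | c i =>
    cases b <;> simp [Tm.code] at h
    exact ⟨by rw [h.1], h.2⟩
  | add a1 a2 ih1 ih2 =>
    cases b <;> simp [Tm.code] at h
    obtain ⟨h1, h2⟩ := ih1 _ _ _ h
    obtain ⟨h3, h4⟩ := ih2 _ _ _ h2
    exact ⟨by rw [h1, h3], h4⟩
  | mul a1 a2 ih1 ih2 =>
    cases b <;> simp [Tm.code] at h
    obtain ⟨h1, h2⟩ := ih1 _ _ _ h
    obtain ⟨h3, h4⟩ := ih2 _ _ _ h2
    exact ⟨by rw [h1, h3], h4⟩
  | adj a1 ih1 =>
    cases b <;> simp [Tm.code] at h
    obtain ⟨h1, h2⟩ := ih1 _ _ _ h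
    exact ⟨by rw [h1], h2⟩

instance : Countable Tm := by
  have : Function.Injective Tm.code := fun a b h =>
    (Tm.code_prefix a b [] [] (by rw [h])).1
  exact this.countable

/-- evaluation of a term in a component -/
def ev (v : VV) (j : ℕ) : Tm → DD
  | .s b => am j (ss b)
  | .u l => em j (W3 (NN j) l)
  | .w i => em j (v j i : Matrix (ZMod (NN j)) (ZMod (NN j)) ℂ)
  | .c i => algebraMap ℂ DD (denseSeq ℂ i)
  | .add a b => ev v j a + ev v j b
  | .mul a b => ev v j a * ev v j b
  | .adj a => star (ev v j a)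

/-- the bound of a term -/
def Mb : Tm → ℝ
  | .s _ => 1
  | .u _ => 1
  | .w _ => 1
  | .c i => ‖denseSeq ℂ i‖
  | .add a b => Mb a + Mb b
  | .mul a b => Mb a * Mb b
  | .adj a => Mb a

lemma Mb_nonneg (t : Tm) : 0 ≤ Mb t := by
  induction t with
  | s b => exact zero_le_one
  | u l => exact zero_le_one
  | w i => exact zero_le_one
  | c i => exact norm_nonneg _
  | add a b h1 h2 => exact add_nonneg h1 h2
  | mul a b h1 h2 => exact mul_nonneg h1 h2
  | adj a h => exact h

lemma norm_em_le {j : ℕ} {w : Matrix (ZMod (NN j)) (ZMod (NN j)) ℂ} (hw : wᴴ * w = 1) :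
    ‖em j w‖ ≤ 1 := by
  refine norm_le_one_of_iso ?_
  rw [← map_star, ← map_mul, Matrix.star_eq_conjTranspose, hw, map_one]

lemma ug_left {k : ℕ} (w : UG k) : (w : Matrix (ZMod (NN k)) (ZMod (NN k)) ℂ)ᴴ * w = 1 :=
  (Matrix.mem_unitaryGroup_iff'.1 w.2)

lemma ug_right {k : ℕ} (w : UG k) : (w : Matrix (ZMod (NN k)) (ZMod (NN k)) ℂ) * wᴴ = 1 :=
  (Matrix.mem_unitaryGroup_iff.1 w.2)

lemma norm_ev_le (v : VV) (j : ℕ) (t : Tm) : ‖ev v j t‖ ≤ Mb t := by
  induction t with
  | s b =>
    refine norm_le_one_of_iso ?_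
    rw [ev, ← map_star, ← map_mul, ss_iso, map_one]
  | u l => exact norm_em_le (W3_unit _ l)
  | w i => exact norm_em_le (ug_left _)
  | c i =>
    rw [ev, norm_algebraMap']
    exact le_rfl
  | add a b h1 h2 => exact (norm_add_le _ _).trans (add_le_add h1 h2)
  | mul a b h1 h2 =>
    refine (norm_mul_le _ _).trans ?_
    exact mul_le_mul h1 h2 (norm_nonneg _) (Mb_nonneg a)
  | adj a h =>
    rw [ev, norm_star]
    exact h

/-- the bounded sequences -/
abbrev LL : Type := BSeq (fun _ : ℕ => DD)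

/-- evaluation of a term -/
def evT (v : VV) (t : Tm) : LL :=
  ⟨fun j => ev v j t, by
    refine memℓp_infty ⟨Mb t, ?_⟩
    rintro _ ⟨j, rfl⟩
    exact norm_ev_le v j t⟩

lemma evT_apply (v : VV) (t : Tm) (j : ℕ) : evT v t j = ev v j t := rfl

lemma evT_add (v : VV) (a b : Tm) : evT v (.add a b) = evT v a + evT v b := rfl
lemma evT_mul (v : VV) (a b : Tm) : evT v (.mul a b) = evT v a * evT v b := rfl
lemma evT_adj (v : VV) (a : Tm) : evT v (.adj a) = star (evT v a) := rfl
lemma evT_c (v : VV) (i : ℕ) : evT v (.c i) = algebraMap ℂ LL (denseSeq ℂ i) := rfl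

/-- the algebra generated by the terms -/
def CS (v : VV) : StarSubalgebra ℂ LL where
  carrier := closure (Set.range (evT v))
  mul_mem' := by
    intro x y hx hy
    refine map_mem_closure₂ continuous_mul hx hy ?_
    rintro _ ⟨a, rfl⟩ _ ⟨b, rfl⟩
    exact ⟨.mul a b, evT_mul v a b⟩
  add_mem' := by
    intro x y hx hy
    refine map_mem_closure₂ continuous_add hx hy ?_
    rintro _ ⟨a, rfl⟩ _ ⟨b, rfl⟩
    exact ⟨.add a b, evT_add v a b⟩
  algebraMap_mem' := by
    intro c
    have hc : c ∈ closure (Set.range (denseSeq ℂ)) := denseRange_denseSeq ℂ c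
    refine map_mem_closure (continuous_algebraMap ℂ LL) hc ?_
    rintro _ ⟨i, rfl⟩
    exact ⟨.c i, evT_c v i⟩
  star_mem' := by
    intro x hx
    refine map_mem_closure continuous_star hx ?_
    rintro _ ⟨a, rfl⟩
    exact ⟨.adj a, evT_adj v a⟩

lemma isClosed_CS (v : VV) : IsClosed (CS v : Set LL) := isClosed_closure

/-- the algebra `C_v` -/
def CA (v : VV) : Type := ↥(CS v)

instance instCA (v : VV) : CStarAlgebra (CA v) :=
  StarSubalgebra.cstarAlgebra (CS v) (h_closed := isClosed_CS v)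

/-- the inclusion -/
def incC (v : VV) : CA v →⋆ₐ[ℂ] LL := (CS v).subtype

lemma incC_inj (v : VV) : Function.Injective (incC v) := Subtype.val_injective

lemma norm_incC (v : VV) (x : CA v) : ‖incC v x‖ = ‖x‖ := rfl

/-- the coordinate maps of the sequence algebra -/
def prL (j : ℕ) : LL →⋆ₐ[ℂ] DD where
  toFun x := x j
  map_one' := rfl
  map_mul' _ _ := rfl
  map_zero' := rfl
  map_add' _ _ := rfl
  commutes' _ := rfl
  map_star' _ := rfl

/-- the coordinate maps -/
def pr (v : VV) (j : ℕ) : CA v →⋆ₐ[ℂ] DD := (prL j).comp (incC v)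

lemma pr_ext {v : VV} {x y : CA v} (h : ∀ j, pr v j x = pr v j y) : x = y := by
  apply incC_inj
  exact lp.ext (funext h)

/-- terms as elements -/
def tm (v : VV) (t : Tm) : CA v := ⟨evT v t, subset_closure ⟨t, rfl⟩⟩

@[simp] lemma pr_tm (v : VV) (j : ℕ) (t : Tm) : pr v j (tm v t) = ev v j t := rfl

lemma tm_dense (v : VV) (x : CA v) {ε : ℝ} (hε : 0 < ε) : ∃ t, ‖x - tm v t‖ < ε := by
  have hx : incC v x ∈ closure (Set.range (evT v)) := x.2
  rw [Metric.mem_closure_iff] at hx
  obtain ⟨_, ⟨t, rfl⟩, h⟩ := hx ε hε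
  rw [dist_eq_norm] at h
  exact ⟨t, h⟩

lemma exists_pr {v : VV} (x : CA v) {r : ℝ} (h : r < ‖x‖) (hr : 0 ≤ r) :
    ∃ j, r < ‖pr v j x‖ := by
  by_contra hcon
  push Not at hcon
  have : ‖incC v x‖ ≤ r := lp.norm_le_of_forall_le hr hcon
  rw [norm_incC] at this
  linarith

/-- the diagonal amplification into the sequence algebra -/
def daL : DD →⋆ₐ[ℂ] LL where
  toFun d := ⟨fun j => am j d, by
    refine memℓp_infty ⟨‖d‖, ?_⟩
    rintro _ ⟨j, rfl⟩
    exact norm_map_le' _ _⟩
  map_one' := by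
    refine lp.ext (funext fun j => ?_)
    exact map_one (am j)
  map_mul' x y := by
    refine lp.ext (funext fun j => ?_)
    exact map_mul (am j) x y
  map_zero' := by
    refine lp.ext (funext fun j => ?_)
    exact map_zero (am j)
  map_add' x y := by
    refine lp.ext (funext fun j => ?_)
    exact map_add (am j) x y
  commutes' c := by
    refine lp.ext (funext fun j => ?_)
    exact AlgHomClass.commutes (am j) c
  map_star' x := by
    refine lp.ext (funext fun j => ?_)
    exact map_star (am j) x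

lemma daL_apply (d : DD) (j : ℕ) : daL d j = am j d := rfl

lemma daL_mem (v : VV) (d : DD) : daL d ∈ CS v := by
  refine ss_gen ((CS v).comap daL) ?_ ?_ d
  · exact (isClosed_CS v).preimage (continuous_hom daL)
  · intro b
    exact subset_closure ⟨.s b, rfl⟩

/-- the diagonal amplification -/
def da (v : VV) : DD →⋆ₐ[ℂ] CA v := daL.codRestrict (CS v) (daL_mem v)

@[simp] lemma pr_da (v : VV) (j : ℕ) (d : DD) : pr v j (da v d) = am j d := rfl

instance (v : VV) : Nontrivial (CA v) := by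
  refine ⟨⟨1, 0, ?_⟩⟩
  intro h
  have h1 := congrArg (pr v 0) h
  rw [map_one, map_zero] at h1
  exact one_ne_zero h1

/-- the Cuntz isometries of `C_v` -/
def sg (v : VV) (b : Bool) : CA v := da v (ss b)

lemma sg_mul (v : VV) (b c : Bool) : star (sg v b) * sg v c = if b = c then 1 else 0 := by
  rw [sg, sg, ← map_star, ← map_mul, star_ss_mul_ss]
  split_ifs <;> simp

lemma sg_iso (v : VV) (b : Bool) : star (sg v b) * sg v b = 1 := by rw [sg_mul, if_pos rfl]

lemma sg_sum (v : VV) : sg v false * star (sg v false) + sg v true * star (sg v true) = 1 := by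
  simp only [sg]
  rw [← map_star, ← map_mul, ← map_star, ← map_mul, ← map_add, ss_sum, map_one]

lemma tm_s (v : VV) (b : Bool) : tm v (.s b) = sg v b := pr_ext fun _ => rfl

/-- the direct sum of two homomorphisms -/
def dsum {A B : Type} [CStarAlgebra A] [CStarAlgebra B] (σ₀ σ₁ : B) (h00 : star σ₀ * σ₀ = 1)
    (h11 : star σ₁ * σ₁ = 1) (h01 : star σ₀ * σ₁ = 0) (hs : σ₀ * star σ₀ + σ₁ * star σ₁ = 1)
    (f g : A →⋆ₐ[ℂ] B) : A →⋆ₐ[ℂ] B where
  toFun x := σ₀ * f x * star σ₀ + σ₁ * g x * star σ₁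
  map_one' := by simp [hs]
  map_mul' x y := by
    have h10 : star σ₁ * σ₀ = 0 := by
      have := congrArg star h01
      simpa using this
    have e1 : σ₀ * f x * star σ₀ * (σ₀ * f y * star σ₀) = σ₀ * f (x * y) * star σ₀ := by
      calc _ = σ₀ * f x * (star σ₀ * σ₀) * f y * star σ₀ := by simp only [mul_assoc]
        _ = _ := by rw [h00, mul_one, map_mul]; simp only [mul_assoc]
    have e2 : σ₁ * g x * star σ₁ * (σ₁ * g y * star σ₁) = σ₁ * g (x * y) * star σ₁ := by
      calc _ = σ₁ * g x * (star σ₁ * σ₁) * g y * star σ₁ := by simp only [mul_assoc]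
        _ = _ := by rw [h11, mul_one, map_mul]; simp only [mul_assoc]
    have e3 : σ₀ * f x * star σ₀ * (σ₁ * g y * star σ₁) = 0 := by
      calc _ = σ₀ * f x * (star σ₀ * σ₁) * g y * star σ₁ := by simp only [mul_assoc]
        _ = _ := by rw [h01]; simp
    have e4 : σ₁ * g x * star σ₁ * (σ₀ * f y * star σ₀) = 0 := by
      calc _ = σ₁ * g x * (star σ₁ * σ₀) * f y * star σ₀ := by simp only [mul_assoc]
        _ = _ := by rw [h10]; simp
    rw [add_mul, mul_add, mul_add, e1, e2, e3, e4]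
    simp
  map_zero' := by simp
  map_add' x y := by
    simp only [map_add, mul_add, add_mul]
    abel
  commutes' c := by
    rw [AlgHomClass.commutes, AlgHomClass.commutes, Algebra.algebraMap_eq_smul_one]
    simp only [mul_smul_comm, smul_mul_assoc, mul_one]
    rw [← smul_add, hs]
  map_star' x := by
    simp only [star_add, star_mul, star_star, map_star, mul_assoc]

/-- the selector: every number is hit infinitely often -/
def jn (n : ℕ) : ℕ := (Nat.unpair n).1

lemma exists_jn (n j : ℕ) : ∃ m, n ≤ m ∧ jn m = j :=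
  ⟨Nat.pair j n, Nat.right_le_pair j n, by simp [jn]⟩

/-- the connecting maps -/
def phi (v : VV) (n : ℕ) : CA v →⋆ₐ[ℂ] CA v :=
  dsum (sg v false) (sg v true) (sg_iso v _) (sg_iso v _) (by rw [sg_mul]; simp) (sg_sum v)
    (StarAlgHom.id ℂ (CA v)) ((da v).comp (pr v (jn n)))

lemma phi_apply (v : VV) (n : ℕ) (x : CA v) : phi v n x =
    sg v false * x * star (sg v false) + sg v true * da v (pr v (jn n) x) * star (sg v true) := rfl

lemma phi_c0 (v : VV) (n : ℕ) (x : CA v) : phi v n x * sg v false = sg v false * x := by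
  rw [phi_apply, add_mul, mul_assoc _ _ (sg v false), mul_assoc _ _ (sg v false), sg_iso, sg_mul]
  simp

lemma phi_c1 (v : VV) (n : ℕ) (x : CA v) :
    phi v n x * sg v true = sg v true * da v (pr v (jn n) x) := by
  rw [phi_apply, add_mul, mul_assoc _ _ (sg v true), mul_assoc _ _ (sg v true), sg_iso, sg_mul]
  simp

lemma phi_inj (v : VV) (n : ℕ) : Function.Injective (phi v n) := by
  rw [injective_iff_map_eq_zero]
  intro x hx
  have h := phi_c0 v n x
  rw [hx, zero_mul] at h
  have h2 := congrArg (fun z => star (sg v false) * z) h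
  simp only [mul_zero, ← mul_assoc, sg_iso, one_mul] at h2
  exact h2.symm

lemma trans_c0 (v : VV) {n m : ℕ} (h : n ≤ m) (x : CA v) :
    trans (phi v) n m x * sg v false ^ (m - n) = sg v false ^ (m - n) * x := by
  induction m, h using Nat.le_induction with
  | base => simp [trans_self]
  | succ m hm ih =>
    rw [trans_succ _ hm, show m + 1 - n = (m - n) + 1 by omega, pow_succ', ← mul_assoc, phi_c0,
      mul_assoc, ih, mul_assoc]

lemma sg_pow_iso (v : VV) (r : ℕ) : star (sg v false ^ r) * sg v false ^ r = 1 := by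
  induction r with
  | zero => simp
  | succ r ih =>
    rw [pow_succ, star_mul, mul_assoc, ← mul_assoc (star (sg v false ^ r)), ih, one_mul, sg_iso]

/-- the limit algebra exists -/
lemma exists_B (v : VV) : ∃ (L : Type) (_ : CStarAlgebra L) (j : ∀ _ : ℕ, CA v →⋆ₐ[ℂ] L),
    IsLim (A := fun _ => CA v) (phi v) j :=
  exists_lim (A := fun _ => CA v) (phi v) (phi_inj v)

end Pool.Agent.N299
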