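import Pool.Agent.N299.Lim

/-!
Consequences of an isomorphism with the opposite algebra.
-/

set_option autoImplicit false

noncomputable section

namespace Pool.Agent.N299

open Pool.Agent.H188R3 Matrix Pool.Agent.Helper685.OSep TopologicalSpace MulOpposite
open scoped ENNReal

/-- a conjugate linear multiplicative *-map -/
structure CAut {B : Type} [CStarAlgebra B] (β : B → B) : Prop where
  add : ∀ x y, β (x + y) = β x + β y
  mul : ∀ x y, β (x * y) = β x * β y
  star : ∀ x, β (star x) = star (β x)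
  smul : ∀ (c : ℂ) (x), β (c • x) = (starRingEnd ℂ c) • β x
  one : β 1 = 1

section CA

variable {B : Type} [CStarAlgebra B] {β : B → B} {n : Type} [Fintype n] [DecidableEq n]

lemma CAut.zero (h : CAut β) : β 0 = 0 := by
  have := h.add 0 0
  simpa using this

lemma CAut.neg (h : CAut β) (x : B) : β (-x) = -β x := by
  have := h.add x (-x)
  rw [add_neg_cancel, h.zero] at this
  exact (neg_eq_of_add_eq_zero_right this.symm).symm

lemma CAut.sub (h : CAut β) (x y : B) : β (x - y) = β x - β y := by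
  rw [sub_eq_add_neg, h.add, h.neg, ← sub_eq_add_neg]

lemma CAut.sum (h : CAut β) {ι : Type} (s : Finset ι) (f : ι → B) :
    β (∑ i ∈ s, f i) = ∑ i ∈ s, β (f i) := by
  classical
  induction s using Finset.induction_on with
  | empty => simpa using h.zero
  | insert a s ha ih => rw [Finset.sum_insert ha, Finset.sum_insert ha, h.add, ih]

/-- entrywise application -/
def bt (β : B → B) (x : MA n B) : MA n B := MA.of fun i j => β (x.en i j)

lemma en_bt (x : MA n B) (i j : n) : (bt β x).en i j = β (x.en i j) := rfl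

lemma bt_mul (h : CAut β) (x y : MA n B) : bt β (x * y) = bt β x * bt β y := by
  ext i j
  rw [en_bt, MA.en_mul, MA.en_mul, h.sum]
  simp only [h.mul, en_bt]

lemma bt_star (h : CAut β) (x : MA n B) : bt β (star x) = star (bt β x) := by
  ext i j
  rw [en_bt, MA.en_star, MA.en_star, h.star, en_bt]

lemma bt_add (h : CAut β) (x y : MA n B) : bt β (x + y) = bt β x + bt β y := by
  ext i j
  rw [en_bt, MA.en_add, MA.en_add, h.add, en_bt, en_bt]

lemma bt_sub (h : CAut β) (x y : MA n B) : bt β (x - y) = bt β x - bt β y := by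
  ext i j
  rw [en_bt, MA.en_sub, MA.en_sub, h.sub, en_bt, en_bt]

lemma bt_sum (h : CAut β) {ι : Type} (s : Finset ι) (f : ι → MA n B) :
    bt β (∑ i ∈ s, f i) = ∑ i ∈ s, bt β (f i) := by
  ext i j
  rw [en_bt, MA.en_sum, MA.en_sum, h.sum]
  rfl

lemma bt_smul (h : CAut β) (r : ℝ) (x : MA n B) : bt β ((r : ℂ) • x) = (r : ℂ) • bt β x := by
  ext i j
  rw [en_bt, MA.en_smul, MA.en_smul, h.smul, en_bt, Complex.conj_ofReal]

lemma bt_one (h : CAut β) : bt β (1 : MA n B) = 1 := by
  ext i j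
  rw [en_bt, MA.en_one]
  split_ifs
  · exact h.one
  · exact h.zero

lemma bt_diag (h : CAut β) (a : B) : bt β (MA.diag a : MA n B) = MA.diag (β a) := by
  ext i j
  rw [en_bt, MA.en_diag, MA.en_diag]
  split_ifs
  · rfl
  · exact h.zero

lemma bt_scm (h : CAut β) (U : Matrix n n ℂ) : bt β (scm U : MA n B) = scm (cj U) := by
  ext i j
  rw [en_bt, en_scm, en_scm, h.smul, h.one]
  rfl

lemma bt_QQ (h : CAut β) (a : B) (U : Matrix n n ℂ) : bt β (QQ a U) = QQ (β a) (cj U) := by
  rw [QQ, QQ, bt_sub h, bt_mul h, bt_diag h, bt_scm h, bt_one h]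

lemma bt_EQ (h : CAut β) (a : B) (U : Matrix n n ℂ) : bt β (EQ a U) = EQ (β a) (cj U) := by
  rw [EQ, EQ, bt_mul h, bt_star h, bt_QQ h]

lemma bt_DQ (h : CAut β) (a : Fin 3 → B) (U : Fin 3 → Matrix n n ℂ) :
    bt β (DQ a U) = DQ (fun l => β (a l)) (fun l => cj (U l)) := by
  rw [DQ, DQ, bt_sum h]
  refine Finset.sum_congr rfl fun l _ => ?_
  rw [bt_mul h, bt_star h, bt_QQ h]

lemma bt_pos (h : CAut β) {x : MA n B} (hx : Pos x) : Pos (bt β x) := by
  obtain ⟨y, rfl⟩ := hx
  exact ⟨bt β y, by rw [bt_mul h, bt_star h]⟩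

lemma caut_of_iso (θ : B ≃⋆ₐ[ℂ] Bᵐᵒᵖ) : CAut (fun x : B => unop (θ (star x))) where
  add x y := by simp
  mul x y := by simp
  star x := by
    rw [map_star]
    rfl
  smul c x := by
    rw [star_smul, map_smul]
    rfl
  one := by simp

lemma caut_of_iso_symm (θ : B ≃⋆ₐ[ℂ] Bᵐᵒᵖ) : CAut (fun x : B => star (θ.symm (op x))) where
  add x y := by simp
  mul x y := by
    rw [op_mul, map_mul, star_mul]
  star x := by
    rw [op_star, map_star]
  smul c x := by
    rw [op_smul, map_smul, star_smul]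
    rfl
  one := by simp

end CA

section norms

variable {B : Type} [CStarAlgebra B] {n : Type} [Fintype n] [DecidableEq n]

lemma norm_scm_le {U : Matrix n n ℂ} (hU : Uᴴ * U = 1) : ‖(scm U : MA n B)‖ ≤ 1 := by
  refine norm_le_one_of_iso ?_
  rw [← map_star, ← map_mul, Matrix.star_eq_conjTranspose, hU, map_one]

lemma norm_diag_le (a : B) : ‖(MA.diag a : MA n B)‖ ≤ ‖a‖ := norm_map_le' _ _

lemma norm_one_le {A : Type} [CStarAlgebra A] : ‖(1 : A)‖ ≤ 1 := norm_le_one_of_iso (by simp)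

lemma norm_QQ_le {a : B} {r : ℝ} (ha : ‖a‖ ≤ r) {U : Matrix n n ℂ} (hU : Uᴴ * U = 1) :
    ‖(QQ a U : MA n B)‖ ≤ r + 1 := by
  rw [QQ]
  refine (norm_sub_le _ _).trans (add_le_add ?_ norm_one_le)
  calc ‖(MA.diag a : MA n B) * scm U‖ ≤ ‖(MA.diag a : MA n B)‖ * ‖(scm U : MA n B)‖ :=
        norm_mul_le _ _
    _ ≤ r * 1 := by
        have h1 := norm_diag_le (n := n) a
        have h2 := norm_scm_le (B := B) hU
        have h3 : 0 ≤ r := (norm_nonneg a).trans ha
        gcongr
        exact h1.trans ha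
    _ = r := mul_one r

lemma norm_QQ_sub_le {a a' : B} {r : ℝ} (ha : ‖a - a'‖ ≤ r) {U : Matrix n n ℂ}
    (hU : Uᴴ * U = 1) : ‖(QQ a U : MA n B) - QQ a' U‖ ≤ r := by
  have e : (QQ a U : MA n B) - QQ a' U = MA.diag (a - a') * scm U := by
    rw [QQ, QQ, map_sub, sub_mul]
    abel
  rw [e]
  calc ‖(MA.diag (a - a') : MA n B) * scm U‖ ≤ ‖(MA.diag (a - a') : MA n B)‖ *
        ‖(scm U : MA n B)‖ := norm_mul_le _ _
    _ ≤ r * 1 := by
        have h1 := norm_diag_le (n := n) (a - a')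
        have h2 := norm_scm_le (B := B) hU
        have h3 : 0 ≤ r := (norm_nonneg _).trans ha
        gcongr
        exact h1.trans ha
    _ = r := mul_one r

lemma norm_EQ_sub_le {a a' : B} {r : ℝ} (h1 : ‖a‖ ≤ 1) (hr : r ≤ 1) (ha : ‖a - a'‖ ≤ r)
    {U : Matrix n n ℂ} (hU : Uᴴ * U = 1) : ‖(EQ a U : MA n B) - EQ a' U‖ ≤ 5 * r := by
  have hr0 : 0 ≤ r := (norm_nonneg _).trans ha
  have e : (EQ a U : MA n B) - EQ a' U = star (QQ a U) * (QQ a U - QQ a' U)
      + star (QQ a U - QQ a' U) * QQ a' U := by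
    rw [EQ, EQ, mul_sub, star_sub, sub_mul]
    abel
  have h2 : ‖a'‖ ≤ 2 := by
    have : a' = a - (a - a') := by abel
    rw [this]
    refine (norm_sub_le _ _).trans ?_
    linarith
  have h3 := norm_QQ_le (n := n) h1 hU
  have h4 := norm_QQ_le (n := n) h2 hU
  have h5 := norm_QQ_sub_le (n := n) ha hU
  rw [e]
  refine (norm_add_le _ _).trans ?_
  calc ‖star (QQ a U) * (QQ a U - QQ a' U)‖ + ‖star (QQ a U - QQ a' U) * QQ a' U‖
      ≤ ‖(QQ a U : MA n B)‖ * ‖(QQ a U : MA n B) - QQ a' U‖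
        + ‖(QQ a U : MA n B) - QQ a' U‖ * ‖(QQ a' U : MA n B)‖ := by
        refine add_le_add ((norm_mul_le _ _).trans ?_) ((norm_mul_le _ _).trans ?_)
        · rw [norm_star]
        · rw [norm_star]
    _ ≤ (1 + 1) * r + r * (2 + 1) := by gcongr
    _ = 5 * r := by ring

lemma norm_DQ_sub_le {a a' : Fin 3 → B} {r : ℝ} (h1 : ∀ l, ‖a l‖ ≤ 1) (hr : r ≤ 1)
    (ha : ∀ l, ‖a l - a' l‖ ≤ r) {U : Fin 3 → Matrix n n ℂ} (hU : ∀ l, (U l)ᴴ * U l = 1) :
    ‖(DQ a U : MA n B) - DQ a' U‖ ≤ 15 * r := by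
  have e : (DQ a U : MA n B) - DQ a' U = ∑ l, (EQ (a l) (U l) - EQ (a' l) (U l)) := by
    rw [Finset.sum_sub_distrib]
    rfl
  rw [e]
  refine (norm_sum_le _ _).trans ?_
  calc ∑ l, ‖(EQ (a l) (U l) : MA n B) - EQ (a' l) (U l)‖ ≤ ∑ _l : Fin 3, 5 * r :=
        Finset.sum_le_sum fun l _ => norm_EQ_sub_le (h1 l) hr (ha l) (hU l)
    _ = 15 * r := by
        simp
        ring

lemma star_DQ (a : Fin 3 → B) (U : Fin 3 → Matrix n n ℂ) : star (DQ a U) = DQ a U :=
  (pos_DQ a U).sa

lemma star_EQ (a : B) (U : Matrix n n ℂ) : star (EQ a U) = EQ a U := (pos_star_mul _).sa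

/-- a self-adjoint real combination -/
lemma star_comb (r s t : ℝ) {x y : MA n B} (hx : star x = x) (hy : star y = y) :
    star ((r : ℂ) • x - (s : ℂ) • y + (t : ℂ) • (1 : MA n B))
      = (r : ℂ) • x - (s : ℂ) • y + (t : ℂ) • 1 := by
  rw [star_add, star_sub, star_smul, star_smul, star_smul, hx, hy, star_one]
  simp only [RCLike.star_def, Complex.conj_ofReal]

/-- compression by an isometry -/
lemma compress {a a' : Fin 3 → B} {b : B} {σ : B} (hσ : star σ * σ = 1)
    (ha : ∀ l, a' l * σ = σ * a l) {U : Fin 3 → Matrix n n ℂ} {W : Matrix n n ℂ} {C δ : ℝ}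
    (h : Pos ((C : ℂ) • DQ a' U - EQ b W + (δ : ℂ) • (1 : MA n B))) :
    Pos ((C : ℂ) • DQ a U - EQ (star σ * b * σ) W + (δ : ℂ) • (1 : MA n B)) := by
  obtain ⟨X, hX⟩ : ∃ X : MA n B, X = MA.diag σ := ⟨_, rfl⟩
  have hXX : star X * X = 1 := by rw [hX, ← map_star, ← map_mul, hσ, map_one]
  have hQ : ∀ l, QQ (a' l) (U l) * X = X * QQ (a l) (U l) := by
    intro l
    rw [QQ, QQ, hX, sub_mul, mul_sub, mul_assoc, ← diag_scm_comm, ← mul_assoc, ← mul_assoc,
      ← map_mul, ← map_mul, ha, one_mul, mul_one]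
  have hD : star X * DQ a' U * X = DQ a U := by
    rw [DQ, DQ, Finset.mul_sum, Finset.sum_mul]
    refine Finset.sum_congr rfl fun l _ => ?_
    calc star X * (star (QQ (a' l) (U l)) * QQ (a' l) (U l)) * X
        = star (QQ (a' l) (U l) * X) * (QQ (a' l) (U l) * X) := by
          rw [star_mul]; simp only [mul_assoc]
      _ = star (QQ (a l) (U l)) * (star X * X) * QQ (a l) (U l) := by
          rw [hQ, star_mul]; simp only [mul_assoc]
      _ = _ := by rw [hXX, mul_one]
  have hQb : QQ (star σ * b * σ) W = star X * QQ b W * X := by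
    rw [QQ, QQ, hX, mul_sub, sub_mul, mul_one, ← map_star, ← map_mul, hσ, map_one]
    congr 1
    rw [map_mul, map_mul]
    simp only [mul_assoc]
    rw [diag_scm_comm]
  obtain ⟨R, hR⟩ : ∃ R : MA n B, R = (1 - X * star X) * QQ b W * X := ⟨_, rfl⟩
  have hproj : star (1 - X * star X) * (1 - X * star X) = 1 - X * star X := by
    have h1 : star (1 - X * star X) = 1 - X * star X := by simp
    have h2 : X * star X * (X * star X) = X * star X := by
      calc _ = X * (star X * X) * star X := by simp only [mul_assoc]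
        _ = _ := by rw [hXX, mul_one]
    rw [h1, mul_sub, sub_mul, sub_mul, h2]
    simp
  have hRR : star R * R = star X * EQ b W * X - EQ (star σ * b * σ) W := by
    calc star R * R = star X * star (QQ b W) * (star (1 - X * star X) * (1 - X * star X))
          * QQ b W * X := by
          rw [hR, star_mul, star_mul]; simp only [mul_assoc]
      _ = star X * (star (QQ b W) * QQ b W) * X
          - star (star X * QQ b W * X) * (star X * QQ b W * X) := by
          rw [hproj, mul_sub, mul_one, sub_mul, sub_mul, star_mul, star_mul, star_star]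
          simp only [mul_assoc]
      _ = _ := by rw [← hQb]; rfl
  have h1 := (h.conj X).add (pos_star_mul R)
  have e : star X * ((C : ℂ) • DQ a' U - EQ b W + (δ : ℂ) • (1 : MA n B)) * X + star R * R
      = (C : ℂ) • DQ a U - EQ (star σ * b * σ) W + (δ : ℂ) • (1 : MA n B) := by
    rw [hRR, ← hD, mul_add, add_mul, mul_sub, sub_mul, mul_smul_comm, smul_mul_assoc,
      mul_smul_comm, smul_mul_assoc, mul_one, hXX]
    abel
  rw [e] at h1
  exact h1

end norms

end Pool.Agent.N299
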