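import Pool.Agent.N299.Base

/-!
The Cuntz algebra `O_2`, represented on `ℓ²(ℤ × ℕ)`, and its pure infiniteness.
-/

set_option autoImplicit false

noncomputable section

open scoped InnerProductSpace

namespace Pool.Agent.N299

/-- the index set -/
abbrev XX : Type := ℤ × ℕ

/-- the Hilbert space -/
abbrev HH : Type := lp (fun _ : XX => ℂ) 2

/-- the operators -/
abbrev BH : Type := HH →L[ℂ] HH

/-- the standard basis -/
def bas : HilbertBasis XX ℂ HH := ⟨LinearIsometryEquiv.refl ℂ HH⟩

lemma ext_bas {S T : BH} (h : ∀ n, S (bas n) = T (bas n)) : S = T := by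
  refine ContinuousLinearMap.ext_on (s := Set.range bas) ?_ ?_
  · have := bas.dense_span
    rw [Submodule.dense_iff_topologicalClosure_eq_top]
    exact this
  · rintro _ ⟨n, rfl⟩
    exact h n

lemma ext_inner_bas {x y : HH} (h : ∀ n, ⟪bas n, x⟫_ℂ = ⟪bas n, y⟫_ℂ) : x = y := by
  apply bas.repr.injective
  ext n
  rw [bas.repr_apply_apply, bas.repr_apply_apply, h n]

/-- the map `(k, n) ↦ (k + 1, 2 n + b)` -/
def dbl (b : Bool) (n : XX) : XX := (n.1 + 1, 2 * n.2 + (if b then 1 else 0))

lemma dbl_inj (b : Bool) : Function.Injective (dbl b) := by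
  rintro ⟨m1, m2⟩ ⟨n1, n2⟩ h
  simp only [dbl, Prod.mk.injEq] at h ⊢
  constructor <;> omega

lemma dbl_ne {b c : Bool} (h : b ≠ c) (m n : XX) : dbl b m ≠ dbl c n := by
  intro h'
  have := congrArg Prod.snd h'
  cases b <;> cases c <;> simp_all [dbl] <;> omega

lemma exists_dbl (n : XX) : ∃ b m, n = dbl b m := by
  rcases Nat.even_or_odd' n.2 with ⟨m, h | h⟩
  · exact ⟨false, (n.1 - 1, m), by ext <;> simp [dbl, h]⟩
  · exact ⟨true, (n.1 - 1, m), by ext <;> simp [dbl, h]⟩

lemma ons (b : Bool) : Orthonormal ℂ (fun n => bas (dbl b n)) :=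
  bas.orthonormal.comp (dbl b) (dbl_inj b)

/-- the Cuntz isometries -/
def s (b : Bool) : BH :=
  ((ons b).orthogonalFamily.linearIsometry).toContinuousLinearMap

lemma s_bas (b : Bool) (n : XX) : s b (bas n) = bas (dbl b n) := by
  have h : bas n = lp.single 2 n (1 : ℂ) := by
    rw [← bas.repr_symm_single n]
    rfl
  rw [h]
  show (ons b).orthogonalFamily.linearIsometry (lp.single 2 n (1 : ℂ)) = _
  rw [OrthogonalFamily.linearIsometry_apply_single]
  simp [LinearIsometry.toSpanSingleton_apply]

lemma inner_bas (m n : XX) : ⟪bas m, bas n⟫_ℂ = if m = n then 1 else 0 :=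
  orthonormal_iff_ite.1 bas.orthonormal m n

lemma star_s_bas (b c : Bool) (n : XX) :
    star (s b) (bas (dbl c n)) = if b = c then bas n else 0 := by
  rw [ContinuousLinearMap.star_eq_adjoint]
  refine ext_inner_bas fun m => ?_
  rw [ContinuousLinearMap.adjoint_inner_right, s_bas, inner_bas]
  by_cases hbc : b = c
  · subst hbc
    rw [if_pos rfl, inner_bas]
    simp [(dbl_inj b).eq_iff]
  · rw [if_neg hbc, if_neg (dbl_ne hbc m n), inner_zero_right]

lemma star_s_mul_s (b c : Bool) : star (s b) * s c = if b = c then 1 else 0 := by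
  refine ext_bas fun n => ?_
  rw [mul_apply_eq_comp, s_bas, star_s_bas]
  split_ifs with h
  · simp
  · simp

lemma star_s_mul_s_self (b : Bool) : star (s b) * s b = 1 := by
  rw [star_s_mul_s, if_pos rfl]

lemma star_s_mul_s_ne {b c : Bool} (h : b ≠ c) : star (s b) * s c = 0 := by
  rw [star_s_mul_s, if_neg h]

lemma s_sum : s false * star (s false) + s true * star (s true) = 1 := by
  refine ext_bas fun n => ?_
  obtain ⟨b, m, rfl⟩ := exists_dbl n
  rw [add_apply, mul_apply_eq_comp, mul_apply_eq_comp,
    star_s_bas, star_s_bas]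
  cases b <;> simp [s_bas]

/-- the isometry of a word -/
def S (μ : List Bool) : BH := (μ.map s).prod

@[simp] lemma S_nil : S [] = 1 := rfl

@[simp] lemma S_cons (b : Bool) (μ : List Bool) : S (b :: μ) = s b * S μ := by
  simp [S]

lemma S_append (μ ν : List Bool) : S (μ ++ ν) = S μ * S ν := by simp [S]

lemma star_S_mul_S_self (μ : List Bool) : star (S μ) * S μ = 1 := by
  induction μ with
  | nil => simp
  | cons b μ ih =>
    rw [S_cons, star_mul, mul_assoc, ← mul_assoc (star (s b)), star_s_mul_s_self, one_mul, ih]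

/-- monomials are closed under products -/
lemma star_S_mul_S (β γ : List Bool) : (∃ δ, γ = β ++ δ ∧ star (S β) * S γ = S δ) ∨
    (∃ δ, β = γ ++ δ ∧ star (S β) * S γ = star (S δ)) ∨
    star (S β) * S γ = 0 := by
  induction β generalizing γ with
  | nil => exact Or.inl ⟨γ, by simp⟩
  | cons b β ih =>
    cases γ with
    | nil => exact Or.inr (Or.inl ⟨b :: β, by simp⟩)
    | cons c γ =>
      by_cases hbc : b = c
      · subst hbc
        have h : star (S (b :: β)) * S (b :: γ) = star (S β) * S γ := by
          rw [S_cons, S_cons, star_mul, mul_assoc, ← mul_assoc (star (s b)), star_s_mul_s_self,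
            one_mul]
        rw [h]
        rcases ih γ with ⟨δ, rfl, h1⟩ | ⟨δ, rfl, h1⟩ | h1
        · exact Or.inl ⟨δ, rfl, h1⟩
        · exact Or.inr (Or.inl ⟨δ, rfl, h1⟩)
        · exact Or.inr (Or.inr h1)
      · refine Or.inr (Or.inr ?_)
        rw [S_cons, S_cons, star_mul, mul_assoc, ← mul_assoc (star (s b)), star_s_mul_s_ne hbc]
        simp

/-- the set of monomials -/
def mons : Set BH := {T | ∃ α β, T = S α * star (S β)}

/-- the span of the monomials as a *-subalgebra -/
def A0 : StarSubalgebra ℂ BH where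
  carrier := (Submodule.span ℂ mons : Set BH)
  mul_mem' := by
    intro x y hx hy
    simp only [SetLike.mem_coe] at hx hy ⊢
    induction hx using Submodule.span_induction with
    | mem x hx =>
      induction hy using Submodule.span_induction with
      | mem y hy =>
        obtain ⟨α, β, rfl⟩ := hx
        obtain ⟨γ, δ, rfl⟩ := hy
        have h : S α * star (S β) * (S γ * star (S δ)) = S α * (star (S β) * S γ) * star (S δ) := by
          simp only [mul_assoc]
        rw [h]
        rcases star_S_mul_S β γ with ⟨ε, -, h1⟩ | ⟨ε, -, h1⟩ | h1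
        · refine Submodule.subset_span ⟨α ++ ε, δ, ?_⟩
          rw [h1, S_append]
        · refine Submodule.subset_span ⟨α, δ ++ ε, ?_⟩
          rw [h1, S_append, star_mul, mul_assoc]
        · rw [h1]
          simp
      | zero => simp
      | add y z _ _ h1 h2 =>
        rw [mul_add]
        exact Submodule.add_mem _ h1 h2
      | smul c y _ h1 =>
        rw [mul_smul_comm]
        exact Submodule.smul_mem _ c h1
    | zero => simp
    | add x z _ _ h1 h2 =>
      rw [add_mul]
      exact Submodule.add_mem _ h1 h2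
    | smul c x _ h1 =>
      rw [smul_mul_assoc]
      exact Submodule.smul_mem _ c h1
  add_mem' := fun hx hy => Submodule.add_mem _ hx hy
  algebraMap_mem' := by
    intro c
    rw [Algebra.algebraMap_eq_smul_one]
    exact Submodule.smul_mem _ c (Submodule.subset_span ⟨[], [], by simp⟩)
  star_mem' := by
    intro x hx
    simp only [SetLike.mem_coe] at hx ⊢
    induction hx using Submodule.span_induction with
    | mem x hx =>
      obtain ⟨α, β, rfl⟩ := hx
      exact Submodule.subset_span ⟨β, α, by simp⟩
    | zero => simp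
    | add x z _ _ h1 h2 =>
      rw [star_add]
      exact Submodule.add_mem _ h1 h2
    | smul c x _ h1 =>
      rw [star_smul]
      exact Submodule.smul_mem _ _ h1

lemma mem_A0 (x : BH) : x ∈ A0 ↔ x ∈ Submodule.span ℂ mons := Iff.rfl

/-- the algebra -/
def OO : StarSubalgebra ℂ BH := (StarAlgebra.adjoin ℂ (Set.range s)).topologicalClosure

lemma isClosed_OO : IsClosed (OO : Set BH) := StarSubalgebra.isClosed_topologicalClosure _

lemma adjoin_le_A0 : StarAlgebra.adjoin ℂ (Set.range s) ≤ A0 := by
  refine StarAlgebra.adjoin_le ?_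
  rintro _ ⟨b, rfl⟩
  exact Submodule.subset_span ⟨[b], [], by simp⟩

lemma s_mem_adjoin (b : Bool) : s b ∈ StarAlgebra.adjoin ℂ (Set.range s) :=
  StarAlgebra.subset_adjoin ℂ _ ⟨b, rfl⟩

lemma s_mem (b : Bool) : s b ∈ OO := StarSubalgebra.le_topologicalClosure _ (s_mem_adjoin b)

lemma S_mem (μ : List Bool) : S μ ∈ OO := by
  induction μ with
  | nil => exact one_mem _
  | cons b μ ih =>
    rw [S_cons]
    exact mul_mem (s_mem b) ih

/-- the address of a number -/
def addr : ℕ → ℕ → List Bool
  | 0, _ => []
  | L + 1, a => (decide (a % 2 = 1)) :: addr L (a / 2)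

lemma length_addr (L a : ℕ) : (addr L a).length = L := by
  induction L generalizing a with
  | zero => rfl
  | succ L ih => simp [addr, ih]

lemma dbl_addr (n : ℤ) (a : ℕ) : dbl (decide (a % 2 = 1)) (n - 1, a / 2) = (n, a) := by
  ext
  · simp [dbl]
  · simp only [dbl, decide_eq_true_eq]
    split_ifs <;> omega

lemma S_addr (L : ℕ) (n : ℤ) (a : ℕ) : S (addr L a) (bas (n - L, a / 2 ^ L)) = bas (n, a) := by
  induction L generalizing n a with
  | zero => simp [addr]
  | succ L ih =>
    rw [addr, S_cons, mul_apply_eq_comp]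
    have h1 : ((n - ((L + 1 : ℕ) : ℤ), a / 2 ^ (L + 1)) : XX) = ((n - 1) - L, (a / 2) / 2 ^ L) := by
      ext
      · push_cast; ring
      · rw [Nat.div_div_eq_div_mul, pow_succ']
    rw [h1, ih, s_bas, dbl_addr]

lemma addr_add (L M a : ℕ) : addr (L + M) a = addr L a ++ addr M (a / 2 ^ L) := by
  induction L generalizing a with
  | zero => simp [addr]
  | succ L ih =>
    rw [show L + 1 + M = (L + M) + 1 by ring, addr, addr, ih, Nat.div_div_eq_div_mul, pow_succ']
    rfl

lemma addr_zero (L : ℕ) : addr L 0 = List.replicate L false := by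
  induction L with
  | zero => rfl
  | succ L ih => rw [addr, List.replicate_succ]; simp [ih]

/-- the grading: the word operators shift the first coordinate -/
lemma S_bas (μ : List Bool) (x : XX) : ∃ m, S μ (bas x) = bas (x.1 + μ.length, m) := by
  induction μ with
  | nil => exact ⟨x.2, by simp⟩
  | cons b μ ih =>
    obtain ⟨m, h⟩ := ih
    refine ⟨2 * m + (if b then 1 else 0), ?_⟩
    rw [S_cons, mul_apply_eq_comp, h, s_bas]
    congr 1
    ext
    · simp only [dbl, List.length_cons]
      push_cast
      ring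
    · simp [dbl]

end Pool.Agent.N299
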