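import Pool.Agent.N299.Cz

/-!
Pure infiniteness of the Cuntz algebra.
-/

set_option autoImplicit false

noncomputable section

open scoped InnerProductSpace

namespace Pool.Agent.N299

lemma tail_false {L a j : ℕ} (h : a + j ≤ L) {κ ε : List Bool} (hμ : addr L a = κ ++ ε)
    (hε : ε.length = j) : ε = List.replicate j false := by
  obtain ⟨M, rfl⟩ : ∃ M, L = M + j := ⟨L - j, by omega⟩
  have h1 : a / 2 ^ M = 0 := by
    apply Nat.div_eq_of_lt
    calc a < 2 ^ a := Nat.lt_two_pow_self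
      _ ≤ 2 ^ M := Nat.pow_le_pow_right (by norm_num) (by omega)
  rw [addr_add, h1, addr_zero] at hμ
  have h2 := List.append_inj_right' hμ (by simp [hε])
  exact h2.symm

lemma prefix_or {β μ : List Bool} (h : β.length ≤ μ.length) :
    (∃ δ, μ = β ++ δ ∧ star (S β) * S μ = S δ) ∨ star (S β) * S μ = 0 := by
  rcases star_S_mul_S β μ with h1 | ⟨δ, rfl, h1⟩ | h1
  · exact Or.inl h1
  · left
    have : δ = [] := by
      rw [List.length_append] at h
      exact List.length_eq_zero_iff.1 (by omega)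
    subst this
    exact ⟨[], by simp, by rw [h1]; simp⟩
  · exact Or.inr h1

/-- the cutting isometry -/
def yy (L a : ℕ) : BH := S (addr L a) * s true

lemma s1_rep {j : ℕ} (hj : 0 < j) : star (s true) * S (List.replicate j false) = 0 := by
  obtain ⟨i, rfl⟩ : ∃ i, j = i + 1 := ⟨j - 1, by omega⟩
  rw [List.replicate_succ, S_cons, ← mul_assoc, star_s_mul_s_ne (by simp), zero_mul]

lemma core_lt {x : XX} {L : ℕ} {α β γ δ : List Bool} (hL : x.2 + α.length + β.length ≤ L)
    (hα : addr L x.2 = α ++ γ) (hβ : addr L x.2 = β ++ δ) (hlt : β.length < α.length) :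
    star (s true) * (star (S γ) * S δ) = 0 := by
  rcases star_S_mul_S γ δ with ⟨ε, rfl, h1⟩ | ⟨ε, rfl, h1⟩ | h1
  · rw [h1]
    have hlen : ε.length = α.length - β.length := by
      have h2 := congrArg List.length hα
      have h3 := congrArg List.length hβ
      simp only [List.length_append] at h2 h3
      omega
    rw [← List.append_assoc] at hβ
    have h4 := tail_false (j := α.length - β.length) (by omega) hβ hlen
    rw [h4]
    exact s1_rep (by omega)
  · exfalso
    have h2 := congrArg List.length hα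
    have h3 := congrArg List.length hβ
    simp only [List.length_append] at h2 h3
    omega
  · rw [h1, mul_zero]

lemma inner_of_length {γ δ : List Bool} (h : γ.length ≠ δ.length) (x : XX) :
    ⟪S γ (bas x), S δ (bas x)⟫_ℂ = 0 := by
  obtain ⟨m, h1⟩ := S_bas γ x
  obtain ⟨m', h2⟩ := S_bas δ x
  rw [h1, h2, inner_bas, if_neg]
  intro h3
  have := congrArg Prod.fst h3
  simp only at this
  omega

lemma inner_S_self (γ : List Bool) (x : XX) : ⟪S γ (bas x), S γ (bas x)⟫_ℂ = 1 := by
  obtain ⟨m, h1⟩ := S_bas γ x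
  rw [h1, inner_bas, if_pos rfl]

lemma diag_mon (x : XX) (α β : List Bool) (L : ℕ) (hL : x.2 + α.length + β.length ≤ L) :
    star (yy L x.2) * (S α * star (S β)) * yy L x.2
      = ⟪bas x, (S α * star (S β)) (bas x)⟫_ℂ • (1 : BH) := by
  obtain ⟨μ, hμ⟩ : ∃ μ, μ = addr L x.2 := ⟨_, rfl⟩
  obtain ⟨x', hx'⟩ : ∃ x' : XX, x' = (x.1 - L, x.2 / 2 ^ L) := ⟨_, rfl⟩
  have hb : bas x = S μ (bas x') := by
    rw [hμ, hx', S_addr]
  have e1 : star (yy L x.2) * (S α * star (S β)) * yy L x.2
      = star (s true) * (star (star (S α) * S μ) * (star (S β) * S μ)) * s true := by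
    rw [yy, ← hμ]
    simp only [star_mul, star_star, mul_assoc]
  have e2 : ⟪bas x, (S α * star (S β)) (bas x)⟫_ℂ
      = ⟪(star (S α) * S μ) (bas x'), (star (S β) * S μ) (bas x')⟫_ℂ := by
    rw [mul_apply_eq_comp, mul_apply_eq_comp, mul_apply_eq_comp, ← hb,
      ContinuousLinearMap.star_eq_adjoint, ContinuousLinearMap.star_eq_adjoint,
      ContinuousLinearMap.adjoint_inner_left]
  rw [e1, e2]
  have hlμ : μ.length = L := by rw [hμ, length_addr]
  rcases prefix_or (β := α) (μ := μ) (by omega) with ⟨γ, hα, h1⟩ | h1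
  · rcases prefix_or (β := β) (μ := μ) (by omega) with ⟨δ, hβ, h2⟩ | h2
    · rw [h1, h2]
      rcases lt_trichotomy α.length β.length with hlt | heq | hlt
      · have h3 := core_lt (x := x) (L := L) (α := β) (β := α) (γ := δ) (δ := γ) (by omega)
          (by rw [← hμ]; exact hβ) (by rw [← hμ]; exact hα) hlt
        rw [inner_of_length, zero_smul]
        · have h4 := congrArg star h3
          simp only [star_mul, star_star, star_zero] at h4
          rw [mul_assoc, h4, mul_zero]
        · have h5 := congrArg List.length hα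
          have h6 := congrArg List.length hβ
          simp only [List.length_append] at h5 h6
          omega
      · have h3 : α ++ γ = β ++ δ := hα.symm.trans hβ
        obtain ⟨h4, h5⟩ := List.append_inj h3 heq
        subst h5
        rw [star_S_mul_S_self, mul_one, star_s_mul_s_self, inner_S_self, one_smul]
      · have h3 := core_lt (x := x) (L := L) (α := α) (β := β) (γ := γ) (δ := δ) (by omega)
          (by rw [← hμ]; exact hα) (by rw [← hμ]; exact hβ) hlt
        rw [h3, zero_mul, inner_of_length, zero_smul]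
        have h5 := congrArg List.length hα
        have h6 := congrArg List.length hβ
        simp only [List.length_append] at h5 h6
        omega
    · rw [h2]
      simp
  · rw [h1]
    simp

lemma diag_A0 (x : XX) (T : BH) (hT : T ∈ A0) : ∃ L₀, ∀ L, L₀ ≤ L →
    star (yy L x.2) * T * yy L x.2 = ⟪bas x, T (bas x)⟫_ℂ • (1 : BH) := by
  rw [mem_A0] at hT
  induction hT using Submodule.span_induction with
  | mem T hT =>
    obtain ⟨α, β, rfl⟩ := hT
    exact ⟨_, fun L hL => diag_mon x α β L hL⟩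
  | zero => exact ⟨0, fun L _ => by simp⟩
  | add T T' _ _ h1 h2 =>
    obtain ⟨L1, h1⟩ := h1
    obtain ⟨L2, h2⟩ := h2
    refine ⟨max L1 L2, fun L hL => ?_⟩
    rw [mul_add, add_mul, h1 L (le_trans (le_max_left _ _) hL),
      h2 L (le_trans (le_max_right _ _) hL), add_apply, inner_add_right, add_smul]
  | smul c T _ h1 =>
    obtain ⟨L1, h1⟩ := h1
    refine ⟨L1, fun L hL => ?_⟩
    rw [mul_smul_comm, smul_mul_assoc, h1 L hL, smul_smul]
    congr 1
    rw [smul_apply, inner_smul_right]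

/-- the Cuntz algebra -/
def DD : Type := ↥OO

instance instDD : CStarAlgebra DD := StarSubalgebra.cstarAlgebra OO (h_closed := isClosed_OO)

/-- the inclusion -/
def inc : DD →⋆ₐ[ℂ] BH := OO.subtype

lemma inc_inj : Function.Injective inc := Subtype.val_injective

lemma norm_inc (x : DD) : ‖inc x‖ = ‖x‖ := rfl

/-- the generators -/
def ss (b : Bool) : DD := ⟨s b, s_mem b⟩

lemma inc_ss (b : Bool) : inc (ss b) = s b := rfl

lemma star_ss_mul_ss (b c : Bool) : star (ss b) * ss c = if b = c then 1 else 0 := by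
  apply inc_inj
  rw [map_mul, map_star, inc_ss, inc_ss, star_s_mul_s]
  split_ifs <;> simp

lemma ss_sum : ss false * star (ss false) + ss true * star (ss true) = 1 := by
  apply inc_inj
  rw [map_add, map_mul, map_mul, map_star, map_star, inc_ss, inc_ss, s_sum, map_one]

lemma ss_gen (T : StarSubalgebra ℂ DD) (hT : IsClosed (T : Set DD)) (h : ∀ b, ss b ∈ T)
    (x : DD) : x ∈ T := by
  have h1 : StarAlgebra.adjoin ℂ (Set.range s) ≤ T.map inc := by
    refine StarAlgebra.adjoin_le ?_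
    rintro _ ⟨b, rfl⟩
    exact ⟨ss b, h b, rfl⟩
  have hx : (inc x) ∈ closure ((StarAlgebra.adjoin ℂ (Set.range s) : StarSubalgebra ℂ BH) : Set BH)
    := x.2
  rw [← SetLike.mem_coe, ← hT.closure_eq, Metric.mem_closure_iff]
  intro ε hε
  rw [Metric.mem_closure_iff] at hx
  obtain ⟨b, hb, hd⟩ := hx ε hε
  obtain ⟨y, hy, rfl⟩ := h1 hb
  refine ⟨y, hy, ?_⟩
  rw [dist_eq_norm] at hd ⊢
  have : inc x - inc y = inc (x - y) := (map_sub inc x y).symm
  rw [← norm_inc, map_sub]
  exact hd

instance : Nontrivial DD := by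
  refine ⟨⟨1, 0, ?_⟩⟩
  intro h
  have h1 := congrArg inc h
  rw [map_one, map_zero] at h1
  have h2 : (1 : BH) (bas (0, 0)) = (0 : BH) (bas (0, 0)) := by rw [h1]
  have h3 : ‖bas (0, 0)‖ = 1 := bas.orthonormal.1 _
  simp only [one_apply_eq_self, zero_apply] at h2
  rw [h2, norm_zero] at h3
  exact zero_ne_one h3

lemma norm_le_one_of_iso {A : Type} [CStarAlgebra A] {y : A} (h : star y * y = 1) : ‖y‖ ≤ 1 := by
  have h1 : ‖y‖ * ‖y‖ = ‖(1 : A)‖ := by rw [← CStarRing.norm_star_mul_self, h]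
  rcases subsingleton_or_nontrivial A with hA | hA
  · have : y = 0 := Subsingleton.elim _ _
    rw [this, norm_zero]
    exact zero_le_one
  · rw [CStarRing.norm_one] at h1
    nlinarith [norm_nonneg y]

lemma star_yy_mul (L a : ℕ) : star (yy L a) * yy L a = 1 := by
  rw [yy, star_mul, mul_assoc, ← mul_assoc (star (S _)), star_S_mul_S_self, one_mul,
    star_s_mul_s_self]

lemma norm_star_le_one {A : Type} [CStarAlgebra A] {y : A} (h : ‖y‖ ≤ 1) : ‖star y‖ ≤ 1 := by
  rw [norm_star]
  exact h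

/-- pure infiniteness -/
theorem pi0 {g : DD} (h0 : g ≠ 0) : ∃ z : DD, star (g * z) * (g * z) = 1 := by
  obtain ⟨x, hx⟩ : ∃ x, inc g (bas x) ≠ 0 := by
    by_contra hcon
    push Not at hcon
    apply h0
    apply inc_inj
    rw [map_zero]
    exact ext_bas fun n => by rw [hcon n]; rfl
  obtain ⟨c, hc⟩ : ∃ c : ℝ, c = ‖inc g (bas x)‖ ^ 2 := ⟨_, rfl⟩
  have hcpos : 0 < c := by
    have : 0 < ‖inc g (bas x)‖ := norm_pos_iff.2 hx
    rw [hc]
    positivity
  obtain ⟨T, hT⟩ : ∃ T : DD, T = star g * g := ⟨_, rfl⟩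
  have hTi : ⟪bas x, inc T (bas x)⟫_ℂ = (c : ℂ) := by
    rw [hT, map_mul, map_star, mul_apply_eq_comp, ContinuousLinearMap.star_eq_adjoint,
      ContinuousLinearMap.adjoint_inner_right, inner_self_eq_norm_sq_to_K, hc]
    norm_cast
  have hTm : (inc T) ∈ closure ((StarAlgebra.adjoin ℂ (Set.range s) : StarSubalgebra ℂ BH) :
    Set BH) := T.2
  rw [Metric.mem_closure_iff] at hTm
  obtain ⟨T₀, hT₀, hd⟩ := hTm (c / 4) (by linarith)
  rw [dist_eq_norm] at hd
  obtain ⟨L, hL⟩ := diag_A0 x T₀ (adjoin_le_A0 hT₀)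
  have hL := hL L le_rfl
  obtain ⟨y, hy⟩ : ∃ y : DD, y = ⟨yy L x.2, mul_mem (S_mem _) (s_mem _)⟩ := ⟨_, rfl⟩
  have hy' : inc y = yy L x.2 := by rw [hy]; rfl
  have hyy := star_yy_mul L x.2
  have hyn : ‖yy L x.2‖ ≤ 1 := norm_le_one_of_iso hyy
  have hbx : ‖bas x‖ = 1 := bas.orthonormal.1 x
  have key : ‖star y * T * y - (c : ℂ) • (1 : DD)‖ ≤ c / 2 := by
    rw [← norm_inc, map_sub, map_mul, map_mul, map_star, map_smul, map_one, hy']
    have e1 : star (yy L x.2) * inc T * yy L x.2 - (c : ℂ) • (1 : BH)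
        = star (yy L x.2) * (inc T - T₀) * yy L x.2
          + (⟪bas x, (T₀ - inc T) (bas x)⟫_ℂ) • (1 : BH) := by
      rw [mul_sub, sub_mul, hL, sub_apply, inner_sub_right, hTi, sub_smul]
      abel
    rw [e1]
    have e2 : ‖star (yy L x.2) * (inc T - T₀) * yy L x.2‖ ≤ c / 4 := by
      calc ‖star (yy L x.2) * (inc T - T₀) * yy L x.2‖
          ≤ ‖star (yy L x.2)‖ * ‖inc T - T₀‖ * ‖yy L x.2‖ := by
            refine (norm_mul_le _ _).trans ?_
            gcongr
            exact norm_mul_le _ _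
        _ ≤ 1 * (c / 4) * 1 := by
            have hys : ‖star (yy L x.2)‖ ≤ 1 := norm_star_le_one hyn
            gcongr
        _ = c / 4 := by ring
    have e3 : ‖(⟪bas x, (T₀ - inc T) (bas x)⟫_ℂ) • (1 : BH)‖ ≤ c / 4 := by
      rw [norm_smul]
      have e4 : ‖⟪bas x, (T₀ - inc T) (bas x)⟫_ℂ‖ ≤ c / 4 := by
        refine (norm_inner_le_norm _ _).trans ?_
        rw [hbx, one_mul]
        refine ((T₀ - inc T).le_opNorm _).trans ?_
        rw [hbx, mul_one, norm_sub_rev]
        exact hd.le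
      have e5 : ‖(1 : BH)‖ ≤ 1 := ContinuousLinearMap.norm_id_le
      calc ‖⟪bas x, (T₀ - inc T) (bas x)⟫_ℂ‖ * ‖(1 : BH)‖ ≤ (c / 4) * 1 := by gcongr
        _ = c / 4 := by ring
    calc _ ≤ ‖star (yy L x.2) * (inc T - T₀) * yy L x.2‖
        + ‖(⟪bas x, (T₀ - inc T) (bas x)⟫_ℂ) • (1 : BH)‖ := norm_add_le _ _
      _ ≤ c / 2 := by linarith
  have hpos : Pos (star y * T * y - ((c / 2 : ℝ) : ℂ) • (1 : DD)) := by
    have hsa : star (star y * T * y - (c : ℂ) • (1 : DD)) = star y * T * y - (c : ℂ) • (1 : DD) := by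
      rw [hT]
      simp [mul_assoc]
    have h1 := pos_perturb (x := (0 : DD)) pos_zero hsa (δ := c / 2)
      (by rw [zero_sub, norm_neg]; exact key)
    have h2 : star y * T * y - (c : ℂ) • (1 : DD) + ((c / 2 : ℝ) : ℂ) • (1 : DD)
        = star y * T * y - ((c / 2 : ℝ) : ℂ) • (1 : DD) := by
      have : (c : ℂ) = ((c / 2 : ℝ) : ℂ) + ((c / 2 : ℝ) : ℂ) := by push_cast; ring
      rw [this, add_smul]
      abel
    rw [h2] at h1
    exact h1
  obtain ⟨R, hR⟩ := exists_inv (by linarith) hpos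
  refine ⟨y * R, ?_⟩
  rw [← hR, hT]
  simp only [star_mul, mul_assoc]

/-- pure infiniteness with control of the norm -/
theorem pi1 {T : DD} (hT : Pos T) {r : ℝ} (hr : 0 ≤ r) (h : r < ‖T‖) :
    ∃ z : DD, star z * z = 1 ∧ Pos (star z * T * z - (r : ℂ) • (1 : DD)) := by
  obtain ⟨g, hg0, hg⟩ := exists_cut hT hr h
  obtain ⟨z, hz⟩ := pi0 hg0
  refine ⟨g * z, hz, ?_⟩
  have h1 := hg.conj z
  have h2 : star z * (star g * T * g - (r : ℂ) • (star g * g)) * z
      = star (g * z) * T * (g * z) - (r : ℂ) • (1 : DD) := by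
    rw [← hz]
    simp only [star_mul, mul_assoc, mul_sub, sub_mul, mul_smul_comm, smul_mul_assoc]
  rw [h2] at h1
  exact h1

end Pool.Agent.N299
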