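import Pool.Agent.N299.Anti

/-!
The finite data extracted from an isomorphism with the opposite algebra.
-/

set_option autoImplicit false

noncomputable section

namespace Pool.Agent.N299

open Pool.Agent.H188R3 Matrix Pool.Agent.Helper685.OSep TopologicalSpace MulOpposite
open scoped ENNReal

/-- the first index not used by a term -/
def mw : Tm → ℕ
  | .s _ => 0
  | .u _ => 0
  | .w i => i + 1
  | .c _ => 0
  | .add a b => max (mw a) (mw b)
  | .mul a b => max (mw a) (mw b)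
  | .adj a => mw a

lemma ev_congr {v v' : VV} {j : ℕ} (t : Tm) (h : ∀ i < mw t, v j i = v' j i) :
    ev v j t = ev v' j t := by
  induction t with
  | s b => rfl
  | u l => rfl
  | w i =>
    rw [ev, ev, h i (by simp [mw])]
  | c i => rfl
  | add a b h1 h2 =>
    rw [ev, ev, h1 fun i hi => h i (lt_of_lt_of_le hi (le_max_left _ _)),
      h2 fun i hi => h i (lt_of_lt_of_le hi (le_max_right _ _))]
  | mul a b h1 h2 =>
    rw [ev, ev, h1 fun i hi => h i (lt_of_lt_of_le hi (le_max_left _ _)),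
      h2 fun i hi => h i (lt_of_lt_of_le hi (le_max_right _ _))]
  | adj a h1 => rw [ev, ev, h1 h]

/-- powers of the first generator as terms -/
def sp : ℕ → Tm
  | 0 => .mul (.adj (.s false)) (.s false)
  | r + 1 => .mul (.s false) (sp r)

lemma tm_mul (v : VV) (a b : Tm) : tm v (.mul a b) = tm v a * tm v b := pr_ext fun _ => rfl
lemma tm_adj (v : VV) (a : Tm) : tm v (.adj a) = star (tm v a) := pr_ext fun _ => rfl

lemma tm_sp (v : VV) (r : ℕ) : tm v (sp r) = sg v false ^ r := by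
  induction r with
  | zero => rw [sp, tm_mul, tm_adj, tm_s, sg_iso, pow_zero]
  | succ r ih => rw [sp, tm_mul, tm_s, ih, pow_succ']

/-- the compressed term -/
def cmp (r : ℕ) (t : Tm) : Tm := .mul (.mul (.adj (sp r)) t) (sp r)

lemma tm_cmp (v : VV) (r : ℕ) (t : Tm) :
    tm v (cmp r t) = star (sg v false ^ r) * tm v t * sg v false ^ r := by
  rw [cmp, tm_mul, tm_mul, tm_adj, tm_sp]

lemma star_W3 (N : ℕ) [NeZero N] (l : Fin 3) : star (W3 N l) * W3 N l = 1 := W3_unit N l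

lemma cj_unit {n : Type} [Fintype n] [DecidableEq n] {U : Matrix n n ℂ} (h : Uᴴ * U = 1) :
    (cj U)ᴴ * cj U = 1 := by
  have h1 : (cj U)ᴴ = cj Uᴴ := by
    ext i j
    simp [cj]
  rw [h1, ← cj_mul, h]
  ext i j
  simp only [cj, Matrix.map_apply, Matrix.one_apply]
  split_ifs <;> simp

/-- the positivity coming from the gap, in the components -/
lemma comp_pos (v : VV) (k j i : ℕ) :
    Pos ((((10 : ℝ) ^ 8 : ℝ) : ℂ) • DQ (fun l => pr v j (tm v (.u l))) (fun l => cj (W3 (NN k) l))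
      - EQ (pr v j (tm v (.w i))) (cj (v k i : Matrix (ZMod (NN k)) (ZMod (NN k)) ℂ)) :
        MA (ZMod (NN k)) DD) := by
  by_cases h : j = k
  · subst h
    exact gap_pos (ug_right _) (gap_eq (odd_NN j) (ug_left _) (ug_right _))
  · exact gap_pos (ug_right _) (gap_ne (odd_NN j) (odd_NN k) (NN_ne h) (ug_left _) (ug_right _))

lemma pos_of_pr {v : VV} {n : Type} [Fintype n] [DecidableEq n] {x : MA n (CA v)}
    (h : ∀ j, Pos (MA.map (pr v j) x)) : Pos x := by
  refine pos_of_map (fun j => (MA.map (pr v j) : MA n (CA v) →⋆ₐ[ℂ] MA n DD)) ?_ h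
  intro y hy
  ext a b
  apply pr_ext
  intro j
  have := congrArg (fun z => z.en a b) (hy j)
  simp only [MA.en_map, MA.en_zero] at this
  rw [this, MA.en_zero, map_zero]

lemma CA_pos (v : VV) (k i : ℕ) :
    Pos ((((10 : ℝ) ^ 8 : ℝ) : ℂ) • DQ (fun l => tm v (.u l)) (fun l => cj (W3 (NN k) l))
      - EQ (tm v (.w i)) (cj (v k i : Matrix (ZMod (NN k)) (ZMod (NN k)) ℂ)) :
        MA (ZMod (NN k)) (CA v)) := by
  refine pos_of_pr fun j => ?_
  rw [map_sub, map_smul, map_DQ, map_EQ]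
  exact comp_pos v k j i

section om

variable {A : Type} [CStarAlgebra A] {ι : Type} [Fintype ι] [DecidableEq ι] {t : ι → A}

lemma embM_mul_t (h : Iso t) (U : Matrix ι ι ℂ) (b : ι) :
    embM h U * t b = ∑ p, U p b • t p := by
  rw [embM_apply, Finset.sum_mul]
  refine Finset.sum_congr rfl fun p _ => ?_
  rw [Finset.sum_mul, Finset.sum_eq_single b]
  · rw [smul_mul_assoc, mul_assoc, h.orth, if_pos rfl, mul_one]
  · intro q _ hq
    rw [smul_mul_assoc, mul_assoc, h.orth, if_neg hq, mul_zero, smul_zero]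
  · simp

lemma embM_mul_sum (h : Iso t) {U : Matrix ι ι ℂ} (hU : U * Uᴴ = 1) (a : ι) :
    embM h U * ∑ b, (starRingEnd ℂ (U a b)) • t b = t a := by
  rw [Finset.mul_sum]
  have e5 : ∀ b, embM h U * ((starRingEnd ℂ (U a b)) • t b)
      = ∑ p, (U p b * (starRingEnd ℂ (U a b))) • t p := by
    intro b
    rw [mul_smul_comm, embM_mul_t, Finset.smul_sum]
    refine Finset.sum_congr rfl fun p _ => ?_
    rw [smul_smul, mul_comm]
  simp only [e5]
  rw [Finset.sum_comm, Finset.sum_eq_single a]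
  · rw [← Finset.sum_smul]
    have : ∑ b, U a b * (starRingEnd ℂ (U a b)) = (U * Uᴴ) a a := by
      rw [Matrix.mul_apply]
      rfl
    rw [this, hU, Matrix.one_apply_eq, one_smul]
  · intro p _ hp
    rw [← Finset.sum_smul]
    have : ∑ b, U p b * (starRingEnd ℂ (U a b)) = (U * Uᴴ) p a := by
      rw [Matrix.mul_apply]
      rfl
    rw [this, hU, Matrix.one_apply_ne hp, zero_smul]
  · simp

lemma QQ_omg (h : Iso t) {U : Matrix ι ι ℂ} (hU : U * Uᴴ = 1) :
    QQ (embM h U) (cj U) * (MA.of fun b c => t b * star (t c)) = 0 := by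
  have h1 : ∀ a c, (MA.diag (embM h U) * scm (cj U) * (MA.of fun b c => t b * star (t c))
      : MA ι A).en a c = t a * star (t c) := by
    intro a c
    rw [mul_assoc, en_diag_mul, MA.en_mul]
    have e1 : ∀ b, (scm (cj U) : MA ι A).en a b * (MA.of fun b c => t b * star (t c)).en b c
        = ((starRingEnd ℂ (U a b)) • t b) * star (t c) := by
      intro b
      rw [en_scm, smul_mul_assoc, one_mul, smul_mul_assoc]
      rfl
    simp only [e1]
    rw [← Finset.sum_mul, ← mul_assoc, embM_mul_sum h hU]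
  rw [QQ, sub_mul, one_mul, sub_eq_zero]
  ext a c
  rw [h1, MA.en_of]

end om

/-- the flip element -/
def om (k : ℕ) : MA (ZMod (NN k)) DD := MA.of fun b c => tz (NN k) b * star (tz (NN k) c)

lemma QQ_om (k : ℕ) {U : Matrix (ZMod (NN k)) (ZMod (NN k)) ℂ} (hU : U * Uᴴ = 1) :
    QQ (em k U) (cj U) * om k = 0 := QQ_omg (iso_tz (NN k)) hU

lemma om_ne (k : ℕ) : om k ≠ 0 := by
  intro h
  have h1 := congrArg (fun z => star (tz (NN k) 0) * z.en 0 0 * tz (NN k) 0) h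
  have h2 : star (tz (NN k) 0) * (om k).en 0 0 * tz (NN k) 0 = 1 := by
    have : star (tz (NN k) 0) * (om k).en 0 0 * tz (NN k) 0
        = (star (tz (NN k) 0) * tz (NN k) 0) * (star (tz (NN k) 0) * tz (NN k) 0) := by
      rw [om, MA.en_of]
      simp only [mul_assoc]
    rw [this, (iso_tz (NN k)).orth, if_pos rfl, one_mul]
  simp only [h2, MA.en_zero, mul_zero, zero_mul] at h1
  exact one_ne_zero h1

lemma comp_not_pos (k : ℕ) {r : ℝ} (hr : 0 < r) :
    ¬ Pos (DQ (fun l => em k (W3 (NN k) l)) (fun l => cj (W3 (NN k) l))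
      - (r : ℂ) • (1 : MA (ZMod (NN k)) DD)) := by
  intro h
  have h1 := h.conj (om k)
  have h2 : DQ (fun l => em k (W3 (NN k) l)) (fun l => cj (W3 (NN k) l)) * om k = 0 := by
    rw [DQ, Finset.sum_mul]
    refine Finset.sum_eq_zero fun l _ => ?_
    rw [mul_assoc, QQ_om k (W3_unit' _ l), mul_zero]
  have h3 : star (om k) * (DQ (fun l => em k (W3 (NN k) l)) (fun l => cj (W3 (NN k) l))
      - (r : ℂ) • (1 : MA (ZMod (NN k)) DD)) * om k
      = ((0 : ℝ) : ℂ) • (star (om k) * om k)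
        - star (((Real.sqrt r : ℝ) : ℂ) • om k) * (((Real.sqrt r : ℝ) : ℂ) • om k) := by
    rw [mul_assoc, sub_mul, h2, star_smul, smul_mul_smul_comm, RCLike.star_def,
      Complex.conj_ofReal, ← Complex.ofReal_mul, Real.mul_self_sqrt hr.le]
    simp
  rw [h3] at h1
  have h4 := norm_sq_le_of_pos le_rfl h1
  rw [zero_mul] at h4
  have h5 : ‖((Real.sqrt r : ℝ) : ℂ) • om k‖ = 0 := by
    have := norm_nonneg (((Real.sqrt r : ℝ) : ℂ) • om k)
    nlinarith
  rw [norm_smul, mul_eq_zero, norm_eq_zero, norm_eq_zero] at h5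
  rcases h5 with h5 | h5
  · have : Real.sqrt r = 0 := by exact_mod_cast h5
    rw [Real.sqrt_eq_zero'] at this
    linarith
  · exact om_ne k h5

section

variable {v : VV} {L : Type} [CStarAlgebra L] {j : ∀ _ : ℕ, CA v →⋆ₐ[ℂ] L}

lemma approx (h : IsLim (A := fun _ => CA v) (phi v) j) (y : L) {ε : ℝ} (hε : 0 < ε) :
    ∃ n, ∀ m, n ≤ m → ∃ t, ‖y - j m (tm v t)‖ < ε := by
  obtain ⟨n, x, hx⟩ := h.dense y (ε / 2) (by linarith)
  refine ⟨n, fun m hm => ?_⟩
  obtain ⟨t, ht⟩ := tm_dense v (trans (A := fun _ => CA v) (phi v) n m x) (ε := ε / 2)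
    (by linarith)
  refine ⟨t, ?_⟩
  have e : y - j m (tm v t) = (y - j n x)
      + j m (trans (A := fun _ => CA v) (phi v) n m x - tm v t) := by
    rw [map_sub, lim_trans h hm]
    abel
  have h3 : ‖j m (trans (A := fun _ => CA v) (phi v) n m x - tm v t)‖
      ≤ ‖trans (A := fun _ => CA v) (phi v) n m x - tm v t‖ := norm_map_le' _ _
  rw [e]
  refine (norm_add_le _ _).trans_lt ?_
  linarith

/-- the data extracted -/
theorem exists_data (h : IsLim (A := fun _ => CA v) (phi v) j) (θ : L ≃⋆ₐ[ℂ] Lᵐᵒᵖ) :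
    ∃ (P : Fin 3 → Tm) (i₀ : ℕ) (R : Tm), (∀ l, mw (P l) ≤ i₀) ∧
      (∀ k i : ℕ, Pos ((((10 : ℝ) ^ 8 : ℝ) : ℂ) • DQ (fun l => ev v i (P l)) (W3 (NN k))
        - EQ (ev v i R) (v k i₀ : Matrix (ZMod (NN k)) (ZMod (NN k)) ℂ)
        + ((1 / 50 : ℝ) : ℂ) • (1 : MA (ZMod (NN k)) DD))) ∧
      (∀ k : ℕ, ∃ i, ¬ Pos (DQ (fun l => ev v i (P l)) (W3 (NN k))
        - ((1 / 10 ^ 9 : ℝ) : ℂ) • (1 : MA (ZMod (NN k)) DD))) := by
  obtain ⟨β, hβ⟩ : ∃ β : L → L, β = fun x : L => unop (θ (star x)) := ⟨_, rfl⟩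
  have hβc : CAut β := by rw [hβ]; exact caut_of_iso θ
  obtain ⟨γ, hγ⟩ : ∃ γ : L → L, γ = fun x : L => star (θ.symm (op x)) := ⟨_, rfl⟩
  have hγc : CAut γ := by rw [hγ]; exact caut_of_iso_symm θ
  have hγβ : ∀ x, γ (β x) = x := by
    intro x
    rw [hγ, hβ]
    simp
  obtain ⟨y, hy⟩ : ∃ y : Fin 3 → L, y = fun l => β (j 0 (tm v (.u l))) := ⟨_, rfl⟩
  obtain ⟨z, hz⟩ : ∃ z : ℕ → L, z = fun i => β (j 0 (tm v (.w i))) := ⟨_, rfl⟩
  have hβn : ∀ x : L, star x * x = 1 → ‖β x‖ ≤ 1 := by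
    intro x hx
    refine norm_le_one_of_iso ?_
    rw [← hβc.star, ← hβc.mul, hx, hβc.one]
  have hy1 : ∀ l, ‖y l‖ ≤ 1 := by
    intro l
    rw [hy]
    refine hβn _ ?_
    rw [← map_star, ← map_mul]
    have : star (tm v (.u l)) * tm v (.u l) = 1 := by
      refine pr_ext fun i => ?_
      rw [map_mul, map_star, pr_tm, ev, ← map_star, ← map_mul, star_W3, map_one, map_one]
    rw [this, map_one]
  have hz1 : ∀ i, ‖z i‖ ≤ 1 := by
    intro i
    rw [hz]
    refine hβn _ ?_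
    rw [← map_star, ← map_mul]
    have : star (tm v (.w i)) * tm v (.w i) = 1 := by
      refine pr_ext fun i' => ?_
      rw [map_mul, map_star, pr_tm, ev, ← map_star, ← map_mul, Matrix.star_eq_conjTranspose,
        ug_left, map_one, map_one]
    rw [this, map_one]
  -- positivity in the limit
  have hpos : ∀ k i, Pos ((((10 : ℝ) ^ 8 : ℝ) : ℂ) • DQ y (W3 (NN k))
      - EQ (z i) (v k i : Matrix (ZMod (NN k)) (ZMod (NN k)) ℂ) : MA (ZMod (NN k)) L) := by
    intro k i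
    have h1 := (CA_pos v k i).map (MA.map (j 0))
    rw [map_sub, map_smul, map_DQ, map_EQ] at h1
    have h2 := bt_pos hβc h1
    rw [bt_sub hβc, bt_smul hβc, bt_DQ hβc, bt_EQ hβc] at h2
    simp only [cj_cj] at h2
    rw [hy, hz]
    exact h2
  have hneg : ∀ (k : ℕ) (r : ℝ), 0 < r → ¬ Pos (DQ y (W3 (NN k))
      - (r : ℂ) • (1 : MA (ZMod (NN k)) L)) := by
    intro k r hr h1
    have h2 := bt_pos hγc h1
    rw [bt_sub hγc, bt_smul hγc, bt_one hγc, bt_DQ hγc, hy] at h2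
    simp only [hγβ] at h2
    have h3 : DQ (fun l => j 0 (tm v (.u l))) (fun l => cj (W3 (NN k) l))
        - (r : ℂ) • (1 : MA (ZMod (NN k)) L)
        = MA.map (j 0) (DQ (fun l => tm v (.u l)) (fun l => cj (W3 (NN k) l))
          - (r : ℂ) • (1 : MA (ZMod (NN k)) (CA v))) := by
      rw [map_sub, map_smul, map_one, map_DQ]
    rw [h3] at h2
    have h4 := pos_of_map_one _ (map_inj _ (h.inj 0)) h2
    have h5 := h4.map (MA.map (pr v k))
    rw [map_sub, map_smul, map_one, map_DQ] at h5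
    exact comp_not_pos k hr h5
  -- approximations
  obtain ⟨η, hη⟩ : ∃ η : ℝ, η = 1 / 10 ^ 11 := ⟨_, rfl⟩
  have hη0 : 0 < η := by rw [hη]; norm_num
  have hη1 : η ≤ 1 := by rw [hη]; norm_num
  have happ : ∀ l, ∃ n, ∀ m, n ≤ m → ∃ t, ‖y l - j m (tm v t)‖ < η :=
    fun l => approx h (y l) hη0
  choose nn hnn using happ
  obtain ⟨n1, hn1⟩ : ∃ n1, ∀ l, nn l ≤ n1 := by
    refine ⟨max (nn 0) (max (nn 1) (nn 2)), fun l => ?_⟩
    fin_cases l
    · exact le_max_left _ _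
    · exact (le_max_left _ _).trans (le_max_right _ _)
    · exact (le_max_right _ _).trans (le_max_right _ _)
  have happ2 : ∀ l, ∃ t, ‖y l - j n1 (tm v t)‖ < η := fun l => hnn l n1 (hn1 l)
  choose P hP using happ2
  obtain ⟨i₀, hi₀⟩ : ∃ i₀, ∀ l, mw (P l) ≤ i₀ := by
    refine ⟨max (mw (P 0)) (max (mw (P 1)) (mw (P 2))), fun l => ?_⟩
    fin_cases l
    · exact le_max_left _ _
    · exact (le_max_left _ _).trans (le_max_right _ _)
    · exact (le_max_right _ _).trans (le_max_right _ _)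
  obtain ⟨n2', hn2'⟩ := approx h (z i₀) hη0
  obtain ⟨n2, hn2⟩ : ∃ n2, n2 = max n1 n2' := ⟨_, rfl⟩
  have hn12 : n1 ≤ n2 := by rw [hn2]; exact le_max_left _ _
  obtain ⟨R, hR⟩ := hn2' n2 (by rw [hn2]; exact le_max_right _ _)
  refine ⟨P, i₀, cmp (n2 - n1) R, hi₀, ?_, ?_⟩
  · intro k i
    obtain ⟨Pt, hPt⟩ : ∃ Pt : Fin 3 → CA v,
        Pt = fun l => trans (A := fun _ => CA v) (phi v) n1 n2 (tm v (P l)) := ⟨_, rfl⟩
    have hjP : ∀ l, j n2 (Pt l) = j n1 (tm v (P l)) := by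
      intro l
      rw [hPt]
      exact lim_trans h hn12 _
    have h1 : Pos ((((10 : ℝ) ^ 8 : ℝ) : ℂ) • DQ (fun l => j n2 (Pt l)) (W3 (NN k))
        - EQ (j n2 (tm v R)) (v k i₀ : Matrix (ZMod (NN k)) (ZMod (NN k)) ℂ)
        + ((1 / 50 : ℝ) : ℂ) • (1 : MA (ZMod (NN k)) L)) := by
      refine pos_perturb (hpos k i₀) ?_ ?_
      · rw [star_sub, star_smul, star_DQ, star_EQ, RCLike.star_def, Complex.conj_ofReal]
      · have e1 : (((10 : ℝ) ^ 8 : ℝ) : ℂ) • DQ y (W3 (NN k))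
            - EQ (z i₀) (v k i₀ : Matrix (ZMod (NN k)) (ZMod (NN k)) ℂ)
            - ((((10 : ℝ) ^ 8 : ℝ) : ℂ) • DQ (fun l => j n2 (Pt l)) (W3 (NN k))
              - EQ (j n2 (tm v R)) (v k i₀ : Matrix (ZMod (NN k)) (ZMod (NN k)) ℂ))
            = (((10 : ℝ) ^ 8 : ℝ) : ℂ) • (DQ y (W3 (NN k))
                - DQ (fun l => j n2 (Pt l)) (W3 (NN k)) : MA (ZMod (NN k)) L)
              - (EQ (z i₀) (v k i₀ : Matrix (ZMod (NN k)) (ZMod (NN k)) ℂ)
                - EQ (j n2 (tm v R)) (v k i₀ : Matrix (ZMod (NN k)) (ZMod (NN k)) ℂ)) := by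
          rw [smul_sub]
          abel
        have e2 : ‖(DQ y (W3 (NN k)) : MA (ZMod (NN k)) L)
            - DQ (fun l => j n2 (Pt l)) (W3 (NN k))‖ ≤ 15 * η := by
          refine norm_DQ_sub_le hy1 hη1 (fun l => ?_) (fun l => W3_unit _ l)
          rw [hjP]
          exact (hP l).le
        have e3 : ‖(EQ (z i₀) (v k i₀ : Matrix (ZMod (NN k)) (ZMod (NN k)) ℂ) :
            MA (ZMod (NN k)) L)
            - EQ (j n2 (tm v R)) (v k i₀ : Matrix (ZMod (NN k)) (ZMod (NN k)) ℂ)‖ ≤ 5 * η :=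
          norm_EQ_sub_le (hz1 i₀) hη1 hR.le (ug_left _)
        rw [e1]
        refine (norm_sub_le _ _).trans ?_
        rw [norm_smul, Complex.norm_real, Real.norm_eq_abs, abs_of_pos (by norm_num)]
        rw [hη] at e2 e3
        norm_num at e2 e3 ⊢
        linarith
    have h2 : (((10 : ℝ) ^ 8 : ℝ) : ℂ) • DQ (fun l => j n2 (Pt l)) (W3 (NN k))
        - EQ (j n2 (tm v R)) (v k i₀ : Matrix (ZMod (NN k)) (ZMod (NN k)) ℂ)
        + ((1 / 50 : ℝ) : ℂ) • (1 : MA (ZMod (NN k)) L)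
        = MA.map (j n2) ((((10 : ℝ) ^ 8 : ℝ) : ℂ) • DQ Pt (W3 (NN k))
          - EQ (tm v R) (v k i₀ : Matrix (ZMod (NN k)) (ZMod (NN k)) ℂ)
          + ((1 / 50 : ℝ) : ℂ) • (1 : MA (ZMod (NN k)) (CA v))) := by
      rw [map_add, map_sub, map_smul, map_smul, map_one, map_DQ, map_EQ]
    rw [h2] at h1
    have h3 := pos_of_map_one _ (map_inj _ (h.inj n2)) h1
    have h4 := compress (a := fun l => tm v (P l)) (sg_pow_iso v (n2 - n1))
      (fun l => by rw [hPt]; exact trans_c0 v hn12 _) h3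
    rw [← tm_cmp] at h4
    have h5 := h4.map (MA.map (pr v i))
    rw [map_add, map_sub, map_smul, map_smul, map_one, map_DQ, map_EQ] at h5
    exact h5
  · intro k
    by_contra hcon
    push Not at hcon
    have h1 : Pos (DQ (fun l => tm v (P l)) (W3 (NN k))
        - ((1 / 10 ^ 9 : ℝ) : ℂ) • (1 : MA (ZMod (NN k)) (CA v))) := by
      refine pos_of_pr fun i => ?_
      rw [map_sub, map_smul, map_one, map_DQ]
      exact hcon i
    have h2 := h1.map (MA.map (j n1))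
    rw [map_sub, map_smul, map_one, map_DQ] at h2
    have h3 : Pos (DQ y (W3 (NN k)) - ((1 / 10 ^ 9 : ℝ) : ℂ) • (1 : MA (ZMod (NN k)) L)
        + ((1 / (2 * 10 ^ 9) : ℝ) : ℂ) • (1 : MA (ZMod (NN k)) L)) := by
      refine pos_perturb h2 ?_ ?_
      · rw [star_sub, star_smul, star_DQ, star_one, RCLike.star_def, Complex.conj_ofReal]
      · have e1 : DQ (fun l => j n1 (tm v (P l))) (W3 (NN k))
            - ((1 / 10 ^ 9 : ℝ) : ℂ) • (1 : MA (ZMod (NN k)) L)
            - (DQ y (W3 (NN k)) - ((1 / 10 ^ 9 : ℝ) : ℂ) • (1 : MA (ZMod (NN k)) L))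
            = -(DQ y (W3 (NN k)) - DQ (fun l => j n1 (tm v (P l))) (W3 (NN k))) := by abel
        have e2 : ‖(DQ y (W3 (NN k)) : MA (ZMod (NN k)) L)
            - DQ (fun l => j n1 (tm v (P l))) (W3 (NN k))‖ ≤ 15 * η :=
          norm_DQ_sub_le hy1 hη1 (fun l => (hP l).le) (fun l => W3_unit _ l)
        rw [e1, norm_neg]
        rw [hη] at e2
        refine e2.trans ?_
        norm_num
    have e4 : DQ y (W3 (NN k)) - ((1 / 10 ^ 9 : ℝ) : ℂ) • (1 : MA (ZMod (NN k)) L)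
        + ((1 / (2 * 10 ^ 9) : ℝ) : ℂ) • (1 : MA (ZMod (NN k)) L)
        = DQ y (W3 (NN k)) - ((1 / (2 * 10 ^ 9) : ℝ) : ℂ) • (1 : MA (ZMod (NN k)) L) := by
      have : ((1 / 10 ^ 9 : ℝ) : ℂ) = ((1 / (2 * 10 ^ 9) : ℝ) : ℂ)
          + ((1 / (2 * 10 ^ 9) : ℝ) : ℂ) := by
        push_cast
        norm_num
      rw [this, add_smul]
      abel
    rw [e4] at h3
    exact hneg k _ (by norm_num) h3

end

end Pool.Agent.N299
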