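import Pool.Agent.N299.Cz2

/-!
Isometries with orthogonal ranges, and the matrix algebras they span.
-/

set_option autoImplicit false

noncomputable section

namespace Pool.Agent.N299

open Pool.Agent.H188R3 Matrix

/-- a family of isometries with orthogonal ranges summing to one -/
structure Iso {A : Type} [CStarAlgebra A] {ι : Type} [Fintype ι] [DecidableEq ι] (t : ι → A) :
    Prop where
  orth : ∀ a b, star (t a) * t b = if a = b then 1 else 0
  sum : ∑ a, t a * star (t a) = 1

section

variable {A : Type} [CStarAlgebra A] {ι : Type} [Fintype ι] [DecidableEq ι] {t : ι → A}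

lemma Iso.unit_mul (h : Iso t) (a b c d : ι) :
    t a * star (t b) * (t c * star (t d)) = if b = c then t a * star (t d) else 0 := by
  have : t a * star (t b) * (t c * star (t d)) = t a * (star (t b) * t c) * star (t d) := by
    simp only [mul_assoc]
  rw [this, h.orth]
  split_ifs <;> simp

/-- the matrix algebra spanned -/
def embM (h : Iso t) : Matrix ι ι ℂ →⋆ₐ[ℂ] A where
  toFun x := ∑ a, ∑ b, x a b • (t a * star (t b))
  map_one' := by
    rw [← h.sum]
    refine Finset.sum_congr rfl fun a _ => ?_
    rw [Finset.sum_eq_single a]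
    · simp
    · intro b _ hb
      rw [Matrix.one_apply_ne (Ne.symm hb), zero_smul]
    · simp
  map_mul' x y := by
    rw [Finset.sum_mul]
    refine Finset.sum_congr rfl fun a _ => ?_
    have h1 : ∀ b : ι, (x a b • (t a * star (t b))) * (∑ c, ∑ d, y c d • (t c * star (t d)))
        = ∑ d, (x a b * y b d) • (t a * star (t d)) := by
      intro b
      rw [Finset.mul_sum, Finset.sum_eq_single b]
      · rw [Finset.mul_sum]
        refine Finset.sum_congr rfl fun d _ => ?_
        rw [smul_mul_smul_comm, h.unit_mul, if_pos rfl]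
      · intro c _ hc
        rw [Finset.mul_sum]
        refine Finset.sum_eq_zero fun d _ => ?_
        rw [smul_mul_smul_comm, h.unit_mul, if_neg (Ne.symm hc), smul_zero]
      · simp
    rw [Finset.sum_mul]
    simp only [h1]
    rw [Finset.sum_comm]
    refine Finset.sum_congr rfl fun d _ => ?_
    rw [Matrix.mul_apply, Finset.sum_smul]
  map_zero' := by simp
  map_add' x y := by
    simp only [Matrix.add_apply, add_smul, Finset.sum_add_distrib]
  commutes' c := by
    rw [Algebra.algebraMap_eq_smul_one, Algebra.algebraMap_eq_smul_one, ← h.sum, Finset.smul_sum]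
    refine Finset.sum_congr rfl fun a _ => ?_
    rw [Finset.sum_eq_single a]
    · simp
    · intro b _ hb
      rw [Matrix.smul_apply, Matrix.one_apply_ne (Ne.symm hb), smul_zero, zero_smul]
    · simp
  map_star' x := by
    simp only [star_sum, star_smul, star_mul, star_star, Matrix.star_apply]
    rw [Finset.sum_comm]

lemma embM_apply (h : Iso t) (x : Matrix ι ι ℂ) :
    embM h x = ∑ a, ∑ b, x a b • (t a * star (t b)) := rfl

/-- the amplification -/
def ampM (h : Iso t) : A →⋆ₐ[ℂ] A where
  toFun x := ∑ a, t a * x * star (t a)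
  map_one' := by simp [h.sum]
  map_mul' x y := by
    rw [Finset.sum_mul]
    refine Finset.sum_congr rfl fun a _ => ?_
    rw [Finset.mul_sum, Finset.sum_eq_single a]
    · have : t a * x * star (t a) * (t a * y * star (t a))
          = t a * x * (star (t a) * t a) * y * star (t a) := by simp only [mul_assoc]
      rw [this, h.orth, if_pos rfl]
      simp only [mul_assoc, one_mul]
    · intro c _ hc
      have : t a * x * star (t a) * (t c * y * star (t c))
          = t a * x * (star (t a) * t c) * y * star (t c) := by simp only [mul_assoc]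
      rw [this, h.orth, if_neg (Ne.symm hc)]
      simp
    · simp
  map_zero' := by simp
  map_add' x y := by simp only [mul_add, add_mul, Finset.sum_add_distrib]
  commutes' c := by
    have h1 : ∀ a, t a * (algebraMap ℂ A c) * star (t a) = c • (t a * star (t a)) := by
      intro a
      rw [Algebra.algebraMap_eq_smul_one]
      simp
    simp only [h1]
    rw [← Finset.smul_sum, h.sum, Algebra.algebraMap_eq_smul_one]
  map_star' x := by
    simp only [star_sum, star_mul, star_star, mul_assoc]

lemma ampM_apply (h : Iso t) (x : A) : ampM h x = ∑ a, t a * x * star (t a) := rfl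

lemma ampM_inj [Nonempty ι] (h : Iso t) : Function.Injective (ampM h) := by
  rw [injective_iff_map_eq_zero]
  intro x hx
  obtain ⟨a⟩ := (inferInstance : Nonempty ι)
  have h1 : star (t a) * ampM h x * t a = x := by
    rw [ampM_apply, Finset.mul_sum, Finset.sum_mul, Finset.sum_eq_single a]
    · have : star (t a) * (t a * x * star (t a)) * t a
          = (star (t a) * t a) * x * (star (t a) * t a) := by simp only [mul_assoc]
      rw [this, h.orth, if_pos rfl]
      simp
    · intro c _ hc
      have : star (t a) * (t c * x * star (t c)) * t a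
          = (star (t a) * t c) * x * (star (t c) * t a) := by simp only [mul_assoc]
      rw [this, h.orth, if_neg (Ne.symm hc)]
      simp
    · simp
  rw [← h1, hx]
  simp

variable {n : Type} [Fintype n] [DecidableEq n]

/-- the blocks -/
def blk (M : Matrix (n × ι) (n × ι) ℂ) (b c : n) : Matrix ι ι ℂ :=
  Matrix.of fun p q => M (b, p) (c, q)

/-- matrices of matrices -/
def Th (h : Iso t) : Matrix (n × ι) (n × ι) ℂ →⋆ₐ[ℂ] MA n A where
  toFun M := MA.of fun b c => embM h (blk M b c)
  map_one' := by
    ext b c
    rw [MA.en_of, MA.en_one]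
    split_ifs with hbc
    · subst hbc
      rw [← map_one (embM h)]
      congr 1
      ext p q
      by_cases hpq : p = q
      · subst hpq; simp [blk]
      · have : ((b, p) : n × ι) ≠ (b, q) := fun e => hpq (congrArg Prod.snd e)
        simp [blk, Matrix.one_apply_ne this, Matrix.one_apply_ne hpq]
    · rw [← map_zero (embM h)]
      congr 1
      ext p q
      have : ((b, p) : n × ι) ≠ (c, q) := fun e => hbc (congrArg Prod.fst e)
      simp [blk, Matrix.one_apply_ne this]
  map_mul' x y := by
    ext b c
    rw [MA.en_of, MA.en_mul]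
    simp only [MA.en_of, ← map_mul, ← map_sum]
    congr 1
    ext p q
    rw [blk, Matrix.of_apply, Matrix.mul_apply, Fintype.sum_prod_type, Matrix.sum_apply]
    refine Finset.sum_congr rfl fun d _ => ?_
    rw [Matrix.mul_apply]
    rfl
  map_zero' := by
    ext b c
    rw [MA.en_of, MA.en_zero, ← map_zero (embM h)]
    rfl
  map_add' x y := by
    ext b c
    rw [MA.en_of, MA.en_add, MA.en_of, MA.en_of, ← map_add]
    rfl
  commutes' r := by
    ext b c
    rw [MA.en_of, MA.en_algebraMap]
    split_ifs with hbc
    · subst hbc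
      rw [← AlgHomClass.commutes (embM h)]
      congr 1
      ext p q
      rw [Algebra.algebraMap_eq_smul_one, Algebra.algebraMap_eq_smul_one]
      by_cases hpq : p = q
      · subst hpq; simp [blk]
      · have : ((b, p) : n × ι) ≠ (b, q) := fun e => hpq (congrArg Prod.snd e)
        simp [blk, Matrix.one_apply_ne this, Matrix.one_apply_ne hpq]
    · rw [← map_zero (embM h)]
      congr 1
      ext p q
      rw [Algebra.algebraMap_eq_smul_one]
      have : ((b, p) : n × ι) ≠ (c, q) := fun e => hbc (congrArg Prod.fst e)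
      simp [blk, Matrix.one_apply_ne this]
  map_star' x := by
    ext b c
    rw [MA.en_of, MA.en_star, MA.en_of, ← map_star]
    rfl

lemma en_Th (h : Iso t) (M : Matrix (n × ι) (n × ι) ℂ) (b c : n) :
    (Th h M).en b c = embM h (blk M b c) := rfl

end

/-- scalar matrices -/
def scm {A : Type} [CStarAlgebra A] {n : Type} [Fintype n] [DecidableEq n] :
    Matrix n n ℂ →⋆ₐ[ℂ] MA n A where
  toFun U := MA.of fun i j => U i j • (1 : A)
  map_one' := by
    ext i j
    rw [MA.en_of, MA.en_one]
    split_ifs with h
    · subst h; simp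
    · rw [Matrix.one_apply_ne h, zero_smul]
  map_mul' x y := by
    ext i j
    rw [MA.en_of, MA.en_mul, Matrix.mul_apply, Finset.sum_smul]
    refine Finset.sum_congr rfl fun k _ => ?_
    simp only [MA.en_of]
    rw [smul_mul_smul_comm, one_mul]
  map_zero' := by
    ext i j
    simp
  map_add' x y := by
    ext i j
    simp [add_smul]
  commutes' c := by
    ext i j
    rw [MA.en_of, MA.en_algebraMap, Algebra.algebraMap_eq_smul_one, Matrix.smul_apply]
    split_ifs with h
    · subst h
      rw [Matrix.one_apply_eq, Algebra.algebraMap_eq_smul_one]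
      simp
    · rw [Matrix.one_apply_ne h, smul_zero, zero_smul]
  map_star' x := by
    ext i j
    simp

section

variable {A : Type} [CStarAlgebra A] {n : Type} [Fintype n] [DecidableEq n]

lemma en_scm (U : Matrix n n ℂ) (i j : n) : (scm U : MA n A).en i j = U i j • (1 : A) := rfl

lemma diag_scm_comm (a : A) (U : Matrix n n ℂ) :
    (MA.diag a : MA n A) * scm U = scm U * MA.diag a := by
  ext i j
  rw [MA.en_mul, MA.en_mul]
  simp only [MA.en_diag, en_scm]
  rw [Finset.sum_eq_single i, Finset.sum_eq_single j]
  · simp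
  · intro b _ hb
    rw [if_neg hb, mul_zero]
  · simp
  · intro b _ hb
    rw [if_neg (Ne.symm hb), zero_mul]
  · simp

lemma en_diag_mul (a : A) (x : MA n A) (i j : n) : (MA.diag a * x).en i j = a * x.en i j := by
  rw [MA.en_mul, Finset.sum_eq_single i]
  · rw [MA.en_diag, if_pos rfl]
  · intro b _ hb
    rw [MA.en_diag, if_neg (Ne.symm hb), zero_mul]
  · simp

lemma map_scm {B : Type} [CStarAlgebra B] (f : A →⋆ₐ[ℂ] B) (U : Matrix n n ℂ) :
    MA.map f (scm U : MA n A) = scm U := by
  ext i j
  rw [MA.en_map, en_scm, en_scm, map_smul, map_one]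

lemma map_diag {B : Type} [CStarAlgebra B] (f : A →⋆ₐ[ℂ] B) (a : A) :
    MA.map f (MA.diag a : MA n A) = MA.diag (f a) := by
  ext i j
  rw [MA.en_map, MA.en_diag, MA.en_diag]
  split_ifs <;> simp

lemma map_inj {B : Type} [CStarAlgebra B] (f : A →⋆ₐ[ℂ] B) (hf : Function.Injective f) :
    Function.Injective (MA.map f : MA n A →⋆ₐ[ℂ] MA n B) := by
  intro x y h
  ext i j
  apply hf
  rw [← MA.en_map, ← MA.en_map, h]

/-- the defect -/
def QQ (a : A) (U : Matrix n n ℂ) : MA n A := MA.diag a * scm U - 1

/-- the sum of the squared defects -/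
def DQ (a : Fin 3 → A) (U : Fin 3 → Matrix n n ℂ) : MA n A :=
  ∑ l, star (QQ (a l) (U l)) * QQ (a l) (U l)

/-- one squared defect -/
def EQ (a : A) (U : Matrix n n ℂ) : MA n A := star (QQ a U) * QQ a U

lemma pos_DQ (a : Fin 3 → A) (U : Fin 3 → Matrix n n ℂ) : Pos (DQ a U) :=
  Pos.sum _ _ fun _ _ => pos_star_mul _

lemma map_QQ {B : Type} [CStarAlgebra B] (f : A →⋆ₐ[ℂ] B) (a : A) (U : Matrix n n ℂ) :
    MA.map f (QQ a U) = QQ (f a) U := by
  rw [QQ, QQ, map_sub, map_mul, map_diag, map_scm, map_one]

lemma map_DQ {B : Type} [CStarAlgebra B] (f : A →⋆ₐ[ℂ] B) (a : Fin 3 → A)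
    (U : Fin 3 → Matrix n n ℂ) : MA.map f (DQ a U) = DQ (fun l => f (a l)) U := by
  simp only [DQ, map_sum, map_mul, map_star, map_QQ]

lemma map_EQ {B : Type} [CStarAlgebra B] (f : A →⋆ₐ[ℂ] B) (a : A)
    (U : Matrix n n ℂ) : MA.map f (EQ a U) = EQ (f a) U := by
  simp only [EQ, map_mul, map_star, map_QQ]

end

/-- the isometries in the Cuntz algebra -/
def tt (N p : ℕ) : DD := if p + 1 = N then ss true ^ p else ss true ^ p * ss false

lemma ss_iso (b : Bool) : star (ss b) * ss b = 1 := by rw [star_ss_mul_ss, if_pos rfl]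

lemma pow_iso (p : ℕ) : star (ss true ^ p) * ss true ^ p = 1 := by
  induction p with
  | zero => simp
  | succ p ih =>
    rw [pow_succ, star_mul, mul_assoc, ← mul_assoc (star (ss true ^ p)), ih, one_mul, ss_iso]

lemma pow_orth {p q : ℕ} (h : p < q) : star (ss true ^ p * ss false) * ss true ^ q = 0 := by
  obtain ⟨r, rfl⟩ := Nat.exists_eq_add_of_lt h
  rw [show p + r + 1 = p + (r + 1) by ring, pow_add, star_mul, mul_assoc,
    ← mul_assoc (star (ss true ^ p)), pow_iso, one_mul, pow_succ', ← mul_assoc, star_ss_mul_ss]
  simp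

lemma tt_iso (N p : ℕ) : star (tt N p) * tt N p = 1 := by
  rw [tt]
  split_ifs
  · exact pow_iso p
  · rw [star_mul, mul_assoc, ← mul_assoc (star (ss true ^ p)), pow_iso, one_mul, ss_iso]

lemma tt_orth_lt {N p q : ℕ} (h : p < q) (hq : q < N) : star (tt N p) * tt N q = 0 := by
  rw [tt, if_neg (by omega), tt]
  split_ifs
  · exact pow_orth h
  · rw [← mul_assoc, pow_orth h, zero_mul]

lemma tt_orth {N p q : ℕ} (hp : p < N) (hq : q < N) :
    star (tt N p) * tt N q = if p = q then 1 else 0 := by
  rcases lt_trichotomy p q with h | h | h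
  · rw [tt_orth_lt h hq, if_neg (by omega)]
  · subst h
    rw [tt_iso, if_pos rfl]
  · rw [if_neg (by omega)]
    have := congrArg star (tt_orth_lt h hp)
    simpa using this

lemma tt_sum_aux (M : ℕ) : ∑ p ∈ Finset.range M, (ss true ^ p * ss false) *
    star (ss true ^ p * ss false) + ss true ^ M * star (ss true ^ M) = 1 := by
  induction M with
  | zero => simp
  | succ M ih =>
    rw [Finset.sum_range_succ, add_assoc]
    have h : (ss true ^ M * ss false) * star (ss true ^ M * ss false)
        + ss true ^ (M + 1) * star (ss true ^ (M + 1)) = ss true ^ M * star (ss true ^ M) := by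
      have h1 : (ss true ^ M * ss false) * star (ss true ^ M * ss false)
        + ss true ^ (M + 1) * star (ss true ^ (M + 1))
        = ss true ^ M * (ss false * star (ss false) + ss true * star (ss true))
          * star (ss true ^ M) := by
        rw [pow_succ, star_mul, star_mul]
        simp only [mul_add, add_mul, mul_assoc]
      rw [h1, ss_sum, mul_one]
    rw [h, ih]

lemma tt_sum {N : ℕ} (hN : 0 < N) : ∑ p ∈ Finset.range N, tt N p * star (tt N p) = 1 := by
  obtain ⟨M, rfl⟩ : ∃ M, N = M + 1 := ⟨N - 1, by omega⟩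
  rw [Finset.sum_range_succ, ← tt_sum_aux M]
  congr 1
  · refine Finset.sum_congr rfl fun p hp => ?_
    rw [Finset.mem_range] at hp
    rw [tt, if_neg (by omega)]
  · rw [tt, if_pos rfl]

/-- the isometries indexed by `ZMod N` -/
def tz (N : ℕ) (a : ZMod N) : DD := tt N a.val

lemma iso_tz (N : ℕ) [NeZero N] : Iso (tz N) where
  orth a b := by
    rw [tz, tz, tt_orth (ZMod.val_lt a) (ZMod.val_lt b)]
    simp [(ZMod.val_injective N).eq_iff]
  sum := by
    rw [← tt_sum (Nat.pos_of_ne_zero (NeZero.ne N))]
    refine Finset.sum_bij' (fun a _ => a.val) (fun p _ => (p : ZMod N)) ?_ ?_ ?_ ?_ ?_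
    · intro a _
      exact Finset.mem_range.2 (ZMod.val_lt a)
    · intro p _
      exact Finset.mem_univ _
    · intro a _
      simp
    · intro p hp
      exact ZMod.val_cast_of_lt (Finset.mem_range.1 hp)
    · intro a _
      rfl

end Pool.Agent.N299
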