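import Pool.Agent.N299.Haar3

/-!
The category argument.
-/

set_option autoImplicit false

noncomputable section

namespace Pool.Agent.N299

open Pool.Agent.H188R3 Matrix Pool.Agent.Helper685.OSep TopologicalSpace MeasureTheory

/-- the derivative bound of a term -/
def LcT : Tm → ℝ
  | .s _ => 0
  | .u _ => 0
  | .w _ => 1
  | .c _ => 0
  | .add a b => LcT a + LcT b
  | .mul a b => LcT a * Mb b + Mb a * LcT b
  | .adj a => LcT a

/-- change one unitary -/
def upd (v : VV) (k i₀ : ℕ) (w : UG k) : VV :=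
  Function.update v k (Function.update (v k) i₀ w)

lemma upd_same (v : VV) (k i₀ : ℕ) (w : UG k) : upd v k i₀ w k i₀ = w := by
  rw [upd, Function.update_self, Function.update_self]

lemma upd_lt (v : VV) (k i₀ : ℕ) (w : UG k) (j : ℕ) {i : ℕ} (hi : i ≠ i₀) :
    upd v k i₀ w j i = v j i := by
  by_cases hj : j = k
  · subst hj
    rw [upd, Function.update_self, Function.update_of_ne hi]
  · rw [upd, Function.update_of_ne hj]

lemma upd_ne (v : VV) (k i₀ : ℕ) (w : UG k) {j : ℕ} (hj : j ≠ k) (i : ℕ) :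
    upd v k i₀ w j i = v j i := by
  rw [upd, Function.update_of_ne hj]

lemma Nice.mono {k : ℕ} {F : UG k → DD} {M Lc Lc' : ℝ} (h : Nice k F M Lc) (hL : Lc ≤ Lc') :
    Nice k F M Lc' where
  cont := h.cont
  bound := h.bound
  deriv := by
    obtain ⟨X, h1, h2, h3⟩ := h.deriv
    exact ⟨X, h1, fun w => (h2 w).trans hL, h3⟩

lemma nice_ev (v : VV) (k i₀ j : ℕ) (t : Tm) :
    Nice k (fun w => ev (upd v k i₀ w) j t) (Mb t) (LcT t) := by
  induction t with
  | s b => exact nice_const k _ (norm_ev_le v j (.s b))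
  | u l => exact nice_const k _ (norm_ev_le v j (.u l))
  | w i =>
    by_cases hj : j = k
    · subst hj
      by_cases hi : i = i₀
      · subst hi
        have h1 : (fun w => ev (upd v j i w) j (.w i))
            = fun w : UG j => em j (w : Mk j) := by
          funext w
          rw [ev, upd_same]
        rw [h1]
        exact nice_em j
      · have h1 : (fun w => ev (upd v j i₀ w) j (.w i)) = fun _ : UG j => ev v j (.w i) := by
          funext w
          rw [ev, ev, upd_lt _ _ _ _ _ hi]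
        rw [h1]
        exact (nice_const j _ (norm_ev_le v j (.w i))).mono zero_le_one
    · have h1 : (fun w => ev (upd v k i₀ w) j (.w i)) = fun _ : UG k => ev v j (.w i) := by
        funext w
        rw [ev, ev, upd_ne _ _ _ _ hj]
      rw [h1]
      exact (nice_const k _ (norm_ev_le v j (.w i))).mono zero_le_one
  | c i => exact nice_const k _ (norm_ev_le v j (.c i))
  | add a b h1 h2 => exact h1.add h2
  | mul a b h1 h2 => exact h1.mul h2
  | adj a h1 => exact h1.adj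

lemma continuous_ev (j : ℕ) (t : Tm) : Continuous (fun v : VV => ev v j t) := by
  induction t with
  | s b => exact continuous_const
  | u l => exact continuous_const
  | w i =>
    refine (continuous_em j).comp (continuous_subtype_val.comp ?_)
    exact (continuous_apply i).comp (continuous_apply j)
  | c i => exact continuous_const
  | add a b h1 h2 => exact h1.add h2
  | mul a b h1 h2 => exact h1.mul h2
  | adj a h1 => exact h1.star

/-- the closed condition -/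
def E1 (P : Fin 3 → Tm) (i₀ : ℕ) (R : Tm) : Set VV :=
  {v | ∀ k i : ℕ, Pos ((((10 : ℝ) ^ 8 : ℝ) : ℂ) • DQ (fun l => ev v i (P l)) (W3 (NN k))
        - EQ (ev v i R) (v k i₀ : Matrix (ZMod (NN k)) (ZMod (NN k)) ℂ)
        + ((1 / 50 : ℝ) : ℂ) • (1 : MA (ZMod (NN k)) DD))}

/-- the second condition -/
def E2 (P : Fin 3 → Tm) : Set VV :=
  {v | ∀ k : ℕ, ∃ i, ¬ Pos (DQ (fun l => ev v i (P l)) (W3 (NN k))
        - ((1 / 10 ^ 9 : ℝ) : ℂ) • (1 : MA (ZMod (NN k)) DD))}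

lemma isClosed_E1 (P : Fin 3 → Tm) (i₀ : ℕ) (R : Tm) : IsClosed (E1 P i₀ R) := by
  have h : E1 P i₀ R = ⋂ k, ⋂ i, (fun v : VV => (((10 : ℝ) ^ 8 : ℝ) : ℂ) •
      DQ (fun l => ev v i (P l)) (W3 (NN k))
        - EQ (ev v i R) (v k i₀ : Matrix (ZMod (NN k)) (ZMod (NN k)) ℂ)
        + ((1 / 50 : ℝ) : ℂ) • (1 : MA (ZMod (NN k)) DD)) ⁻¹' {x | Pos x} := by
    ext v
    simp only [E1, Set.mem_iInter]
    rfl
  rw [h]
  refine isClosed_iInter fun k => isClosed_iInter fun i => isClosed_pos.preimage ?_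
  have hQ : ∀ (t : Tm) (U : VV → Mk k), Continuous U →
      Continuous (fun v : VV => (QQ (ev v i t) (U v) : MA (ZMod (NN k)) DD)) := by
    intro t U hU
    exact ((continuous_diag.comp (continuous_ev i t)).mul (continuous_scm.comp hU)).sub
      continuous_const
  refine Continuous.add (Continuous.sub ?_ ?_) continuous_const
  · have hD : Continuous (fun v : VV => (DQ (fun l => ev v i (P l)) (W3 (NN k)) :
        MA (ZMod (NN k)) DD)) := by
      unfold DQ
      refine continuous_finsetSum _ fun l _ => ?_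
      have := hQ (P l) (fun _ => W3 (NN k) l) continuous_const
      exact this.star.mul this
    exact hD.const_smul (((10 : ℝ) ^ 8 : ℝ) : ℂ)
  · have h1 : Continuous (fun v : VV => (v k i₀ : Matrix (ZMod (NN k)) (ZMod (NN k)) ℂ)) :=
      continuous_subtype_val.comp ((continuous_apply i₀).comp (continuous_apply k))
    have := hQ R _ h1
    exact this.star.mul this

lemma integral_mul_right' {k : ℕ} {Φ : UG k → MA (ZMod (NN k)) DD} (hΦ : Continuous Φ)
    (z : MA (ZMod (NN k)) DD) : ∫ w, Φ w * z ∂(mu k) = (∫ w, Φ w ∂(mu k)) * z := by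
  have := ContinuousLinearMap.integral_comp_comm
    ((ContinuousLinearMap.mul ℂ (MA (ZMod (NN k)) DD)).flip z) (integrable_of_cont hΦ)
  exact this

/-- the averaging contradiction -/
lemma no_fixed {k : ℕ} {F : UG k → DD} {M Lc : ℝ} (hF : Nice k F M Lc)
    (hL : 2 * Lc < NN k) {z : MA (ZMod (NN k)) DD} (hz : z ≠ 0)
    (h : ∀ w : UG k, ‖QQ (F w) (w : Mk k) * z‖ ≤ ‖z‖ / 2) : False := by
  obtain ⟨Φ, hΦ⟩ : ∃ Φ : UG k → MA (ZMod (NN k)) DD,
      Φ = fun w => MA.diag (F w) * scm (w : Mk k) := ⟨_, rfl⟩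
  have hΦc : Continuous Φ := by
    rw [hΦ]
    exact (continuous_diag.comp hF.cont).mul continuous_scmw
  have havg := nice_avg hF
  have hav2 : ‖∫ w, Φ w ∂(mu k)‖ ≤ Lc / NN k * (mu k).real Set.univ := by
    rw [hΦ]
    exact havg
  obtain ⟨c, hc⟩ : ∃ c : ℝ, c = (mu k).real Set.univ := ⟨_, rfl⟩
  have hc0 : 0 < c := by rw [hc]; exact mu_pos k
  rw [← hc] at hav2
  have hN0 : (0 : ℝ) < NN k := by exact_mod_cast Nat.pos_of_ne_zero (NeZero.ne (NN k))
  have hz0 : 0 < ‖z‖ := norm_pos_iff.2 hz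
  have h1 : ‖∫ w, (Φ w * z - z) ∂(mu k)‖ ≤ ‖z‖ / 2 * c := by
    rw [hc]
    refine norm_integral_le_of_norm_le_const (Filter.Eventually.of_forall fun w => ?_)
    have h2 : Φ w * z - z = QQ (F w) (w : Mk k) * z := by
      rw [hΦ, QQ, sub_mul, one_mul]
    rw [h2]
    exact h w
  have h3 : ∫ w, (Φ w * z - z) ∂(mu k) = (∫ w, Φ w ∂(mu k)) * z - c • z := by
    rw [← integral_mul_right' hΦc z]
    refine (integral_sub (integrable_of_cont (hΦc.mul continuous_const))
      (integrable_of_cont continuous_const)).trans ?_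
    rw [integral_const, hc]
    rfl
  rw [h3] at h1
  have h4 : ‖c • z‖ = c * ‖z‖ := by
    rw [norm_smul, Real.norm_eq_abs, abs_of_pos hc0]
  have h5 : c * ‖z‖ ≤ Lc / NN k * c * ‖z‖ + ‖z‖ / 2 * c := by
    rw [← h4]
    have e : c • z = (∫ w, Φ w ∂(mu k)) * z - ((∫ w, Φ w ∂(mu k)) * z - c • z) := by abel
    calc ‖c • z‖ ≤ ‖(∫ w, Φ w ∂(mu k)) * z‖ + ‖(∫ w, Φ w ∂(mu k)) * z - c • z‖ := by
          nth_rewrite 1 [e]
          exact norm_sub_le _ _
      _ ≤ Lc / NN k * c * ‖z‖ + ‖z‖ / 2 * c := by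
          refine add_le_add ((norm_mul_le _ _).trans ?_) h1
          gcongr
  have h6 : Lc / NN k < 1 / 2 := by
    rw [div_lt_div_iff₀ hN0 (by norm_num)]
    linarith
  have h7 : Lc / NN k * c * ‖z‖ < 1 / 2 * c * ‖z‖ := by gcongr
  linarith

/-- the main contradiction at one datum -/
lemma datum_false {P : Fin 3 → Tm} {i₀ : ℕ} {R : Tm} (hP : ∀ l, mw (P l) ≤ i₀) {O : Set VV}
    (hO : IsOpen O) {v₀ : VV} (hv₀ : v₀ ∈ O) (hE : O ⊆ E1 P i₀ R) (hE2 : v₀ ∈ E2 P) : False := by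
  obtain ⟨I, u, hu, hsub⟩ := isOpen_pi_iff.1 hO v₀ hv₀
  obtain ⟨k, hkI, hkL⟩ : ∃ k, k ∉ I ∧ 2 * LcT R < NN k := by
    obtain ⟨n, hn⟩ := exists_nat_gt (2 * LcT R)
    obtain ⟨m, hm⟩ : ∃ m, ∀ i ∈ I, i < m := ⟨I.sup id + 1, fun i hi =>
      Nat.lt_succ_of_le (Finset.le_sup (f := id) hi)⟩
    refine ⟨max n m, fun h => ?_, hn.trans_le ?_⟩
    · have := hm _ h
      have := le_max_right n m
      omega
    · have h1 : n ≤ NN (max n m) := by
        calc n ≤ max n m := le_max_left _ _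
          _ ≤ 3 ^ (max n m) := Nat.lt_pow_self (by norm_num) |>.le
      exact_mod_cast h1
  obtain ⟨j, hj⟩ := hE2 k
  obtain ⟨z, hz0, hz⟩ := exists_of_not_pos (star_DQ _ _) hj
  refine no_fixed (nice_ev v₀ k i₀ j R) hkL hz0 fun w => ?_
  have hw : upd v₀ k i₀ w ∈ O := by
    apply hsub
    intro i hi
    have hik : i ≠ k := fun h => hkI (h ▸ hi)
    have : upd v₀ k i₀ w i = v₀ i := by rw [upd, Function.update_of_ne hik]
    rw [this]
    exact (hu i hi).2
  have h1 := hE hw k j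
  have h2 : (fun l => ev (upd v₀ k i₀ w) j (P l)) = fun l => ev v₀ j (P l) := by
    funext l
    refine ev_congr _ fun i hi => upd_lt _ _ _ _ _ ?_
    have := hP l
    omega
  rw [h2, upd_same] at h1
  have h3 := (h1.conj z).add (hz.smul (r := 10 ^ 8) (by norm_num))
  have h4 : star z * ((((10 : ℝ) ^ 8 : ℝ) : ℂ) • DQ (fun l => ev v₀ j (P l)) (W3 (NN k))
      - EQ (ev (upd v₀ k i₀ w) j R) (w : Mk k)
      + ((1 / 50 : ℝ) : ℂ) • (1 : MA (ZMod (NN k)) DD)) * z
      + (((10 : ℝ) ^ 8 : ℝ) : ℂ) • (((1 / 10 ^ 9 : ℝ) : ℂ) • (star z * z)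
        - star z * DQ (fun l => ev v₀ j (P l)) (W3 (NN k)) * z)
      = ((3 / 25 : ℝ) : ℂ) • (star z * z)
        - star (QQ (ev (upd v₀ k i₀ w) j R) (w : Mk k) * z)
          * (QQ (ev (upd v₀ k i₀ w) j R) (w : Mk k) * z) := by
    have e1 : star (QQ (ev (upd v₀ k i₀ w) j R) (w : Mk k) * z)
          * (QQ (ev (upd v₀ k i₀ w) j R) (w : Mk k) * z)
        = star z * EQ (ev (upd v₀ k i₀ w) j R) (w : Mk k) * z := by
      rw [star_mul, EQ]
      simp only [mul_assoc]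
    have e2 : ((3 / 25 : ℝ) : ℂ) = ((1 / 50 : ℝ) : ℂ)
        + (((10 : ℝ) ^ 8 : ℝ) : ℂ) * ((1 / 10 ^ 9 : ℝ) : ℂ) := by
      push_cast
      norm_num
    rw [e1, e2, mul_add, mul_sub, add_mul, sub_mul, add_smul, smul_sub, smul_smul]
    simp only [mul_smul_comm, smul_mul_assoc, mul_one]
    abel
  rw [h4] at h3
  have h5 := norm_sq_le_of_pos (by norm_num) h3
  have h6 : ‖QQ (ev (upd v₀ k i₀ w) j R) (w : Mk k) * z‖ ^ 2 ≤ (‖z‖ / 2) ^ 2 := by
    refine h5.trans ?_
    rw [div_pow]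
    nlinarith [sq_nonneg ‖z‖]
  exact le_of_sq_le_sq h6 (by positivity)

/-- some limit algebra is not isomorphic to its opposite -/
theorem exists_not_iso : ∃ (L : Type) (_ : CStarAlgebra L),
    SeparableSpace L ∧ Nontrivial L ∧
      (∀ I : TwoSidedIdeal L, IsClosed (I : Set L) → I = ⊥ ∨ I = ⊤) ∧
      (∃ a b : L, a * b ≠ b * a) ∧
      (∀ c d : L, c ≠ 0 → d ≠ 0 → ∀ ε : ℝ, 0 < ε →
        ∃ x : L, ‖star x * (star c * c) * x - star d * d‖ < ε) ∧
      IsEmpty (L ≃⋆ₐ[ℂ] Lᵐᵒᵖ) := by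
  by_contra hcon
  have hdata : ∀ v : VV, ∃ (P : Fin 3 → Tm) (i₀ : ℕ) (R : Tm), (∀ l, mw (P l) ≤ i₀) ∧
      v ∈ E1 P i₀ R ∧ v ∈ E2 P := by
    intro v
    obtain ⟨L, hL, j, hlim⟩ := exists_B v
    have hp := lim_props hlim
    have hne : Nonempty (L ≃⋆ₐ[ℂ] Lᵐᵒᵖ) := by
      by_contra hne
      rw [not_nonempty_iff] at hne
      exact hcon ⟨L, hL, hp.1, hp.2.1, hp.2.2.1, hp.2.2.2.1, hp.2.2.2.2, hne⟩
    obtain ⟨θ⟩ := hne
    exact exists_data hlim θ
  let ι : Type := (Fin 3 → Tm) × ℕ × Tm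
  let K : ι → Set VV := fun p =>
    closure {v | (∀ l, mw (p.1 l) ≤ p.2.1) ∧ v ∈ E1 p.1 p.2.1 p.2.2 ∧ v ∈ E2 p.1}
  have hU : ⋃ p, K p = Set.univ := by
    rw [Set.eq_univ_iff_forall]
    intro v
    obtain ⟨P, i₀, R, h⟩ := hdata v
    exact Set.mem_iUnion.2 ⟨(P, i₀, R), subset_closure h⟩
  obtain ⟨p, x, hx⟩ := nonempty_interior_of_iUnion_of_closed (fun p => isClosed_closure) hU
  have hmem : x ∈ closure {v | (∀ l, mw (p.1 l) ≤ p.2.1) ∧ v ∈ E1 p.1 p.2.1 p.2.2 ∧ v ∈ E2 p.1} :=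
    interior_subset hx
  obtain ⟨v₀, hv₀, h1, h2, h3⟩ := mem_closure_iff.1 hmem (interior (K p)) isOpen_interior hx
  refine datum_false (R := p.2.2) h1 isOpen_interior hv₀ ?_ h3
  refine interior_subset.trans ?_
  refine closure_minimal ?_ (isClosed_E1 _ _ _)
  rintro v ⟨_, h, _⟩
  exact h

end Pool.Agent.N299
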