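import Pool.Agent.N299.Emb
import Pool.Agent.Helper685.OSep.Gap1

/-!
The spectral gap, turned into a positivity statement.
-/

set_option autoImplicit false

noncomputable section

namespace Pool.Agent.N299

open Pool.Agent.H188R3 Matrix Pool.Agent.Helper685.OSep
open Pool.Agent.Helper685.OSep.PS (hs hs_mul_left hs_mul_right hs_nonneg hs_neg)
open scoped Kronecker ComplexOrder MatrixOrder

/-- the gap inequality -/
def GapP {N' N : ℕ} [NeZero N'] [NeZero N] (w' : Matrix (ZMod N') (ZMod N') ℂ)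
    (w : Matrix (ZMod N) (ZMod N) ℂ) : Prop :=
  ∀ Y : Matrix (ZMod N') (ZMod N) ℂ,
    hs (w' * Y - Y * w) ≤ 10 ^ 8 * ∑ l : Fin 3, hs (W3 N' l * Y - Y * W3 N l)

lemma hs_sub_le {m n : Type} [Fintype m] [Fintype n] (A B : Matrix m n ℂ) :
    hs (A - B) ≤ 2 * (hs A + hs B) := by
  unfold hs
  rw [← Finset.sum_add_distrib, Finset.mul_sum]
  refine Finset.sum_le_sum fun i _ => ?_
  rw [← Finset.sum_add_distrib, Finset.mul_sum]
  refine Finset.sum_le_sum fun j _ => ?_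
  rw [Matrix.sub_apply]
  have h1 : ‖A i j - B i j‖ ≤ ‖A i j‖ + ‖B i j‖ := norm_sub_le _ _
  nlinarith [norm_nonneg (A i j - B i j), norm_nonneg (A i j), norm_nonneg (B i j),
    sq_nonneg (‖A i j‖ - ‖B i j‖)]

lemma gap_ne {N' N : ℕ} [NeZero N'] [NeZero N] (hN' : Odd N') (hN : Odd N)
    (h : 2 * N' < N ∨ 2 * N < N') {w' : Matrix (ZMod N') (ZMod N') ℂ}
    {w : Matrix (ZMod N) (ZMod N) ℂ} (hw' : w'ᴴ * w' = 1) (hw : w * wᴴ = 1) : GapP w' w := by
  intro Y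
  obtain ⟨l, hl⟩ := gap_both hN hN' h Y
  have h1 : hs (w' * Y - Y * w) ≤ 4 * hs Y := by
    refine (hs_sub_le _ _).trans ?_
    rw [hs_mul_left _ hw', hs_mul_right _ hw]
    linarith
  have h2 : hs (W3 N' l * Y - Y * W3 N l) ≤ ∑ l : Fin 3, hs (W3 N' l * Y - Y * W3 N l) :=
    Finset.single_le_sum (f := fun l : Fin 3 => hs (W3 N' l * Y - Y * W3 N l))
      (fun i _ => hs_nonneg _) (Finset.mem_univ l)
  have h3 : hs Y ≤ 5000 ^ 2 * hs (W3 N' l * Y - Y * W3 N l) := by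
    have : hs Y = 5000 ^ 2 * ((1 / 5000) ^ 2 * hs Y) := by ring
    rw [this]
    gcongr
  linarith

lemma gap_eq {N : ℕ} [NeZero N] (hN : Odd N) {w : Matrix (ZMod N) (ZMod N) ℂ}
    (hw' : wᴴ * w = 1) (hw : w * wᴴ = 1) : GapP w w := by
  intro Y
  have hN0 : (0 : ℝ) < N := by exact_mod_cast Nat.pos_of_ne_zero (NeZero.ne N)
  obtain ⟨τ, hτ⟩ : ∃ τ : ℂ, τ = Y.trace / N := ⟨_, rfl⟩
  obtain ⟨a, ha⟩ : ∃ a : Matrix (ZMod N) (ZMod N) ℂ, a = Y - τ • 1 := ⟨_, rfl⟩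
  have htr : a.trace = 0 := by
    rw [ha, Matrix.trace_sub, Matrix.trace_smul, Matrix.trace_one, ZMod.card, hτ, smul_eq_mul,
      div_mul_cancel₀, sub_self]
    exact_mod_cast (NeZero.ne N)
  have hcomm : ∀ W : Matrix (ZMod N) (ZMod N) ℂ, W * Y - Y * W = W * a - a * W := by
    intro W
    rw [ha]
    simp only [mul_sub, sub_mul, mul_smul_comm, smul_mul_assoc, mul_one, one_mul]
    abel
  simp only [hcomm]
  have h1 : hs (w * a - a * w) ≤ 4 * hs a := by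
    refine (hs_sub_le _ _).trans ?_
    rw [hs_mul_left _ hw', hs_mul_right _ hw]
    linarith
  have hl : ∀ l, hs (W3 N l * a - a * W3 N l) = hs ((W3 N l)ᴴ * a * W3 N l - a) := by
    intro l
    rw [← hs_mul_left ((W3 N l)ᴴ * a * W3 N l - a) (W3_unit N l), mul_sub, ← Matrix.mul_assoc,
      ← Matrix.mul_assoc, W3_unit' N l, Matrix.one_mul, ← hs_neg, neg_sub]
  have hnn : ∀ l : Fin 3, 0 ≤ hs (W3 N l * a - a * W3 N l) := fun l => hs_nonneg _
  by_cases hall : ∀ l, hs ((W3 N l)ᴴ * a * W3 N l - a) ≤ (1 / 2500) * hs a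
  · have h2 := QE.qe N hN a (hall 0) (hall 1) (hall 2)
    rw [htr] at h2
    simp only [norm_zero, ne_eq, OfNat.ofNat_ne_zero, not_false_eq_true, zero_pow, mul_zero] at h2
    have h3 : hs a ≤ 0 := by
      rw [hs_eq] at h2
      by_contra hcon
      push Not at hcon
      nlinarith [mul_pos hN0 hcon]
    have h4 : 0 ≤ ∑ l : Fin 3, hs (W3 N l * a - a * W3 N l) := Finset.sum_nonneg fun l _ => hnn l
    linarith
  · push Not at hall
    obtain ⟨l, h2⟩ := hall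
    rw [← hl] at h2
    have h3 : hs (W3 N l * a - a * W3 N l) ≤ ∑ l : Fin 3, hs (W3 N l * a - a * W3 N l) :=
      Finset.single_le_sum (f := fun l : Fin 3 => hs (W3 N l * a - a * W3 N l))
        (fun i _ => hnn i) (Finset.mem_univ l)
    have h4 := hs_nonneg a
    linarith

/-- complex conjugate matrix -/
def cj {n m : Type} (U : Matrix n m ℂ) : Matrix n m ℂ := U.map (starRingEnd ℂ)

lemma cj_mul {n : Type} [Fintype n] (U V : Matrix n n ℂ) : cj (U * V) = cj U * cj V := by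
  ext i j
  simp [cj, Matrix.mul_apply]

lemma cj_cj {n m : Type} (U : Matrix n m ℂ) : cj (cj U) = U := by
  ext i j
  simp [cj]

section

variable {n ι : Type} [Fintype n] [DecidableEq n] [Fintype ι] [DecidableEq ι]

/-- the defect matrix -/
def KK (w' : Matrix ι ι ℂ) (w : Matrix n n ℂ) : Matrix (n × ι) (n × ι) ℂ := cj w ⊗ₖ w' - 1

lemma Th_KK {A : Type} [CStarAlgebra A] {t : ι → A} (h : Iso t) (w' : Matrix ι ι ℂ)
    (w : Matrix n n ℂ) : Th h (KK w' w) = QQ (embM h w') (cj w) := by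
  rw [KK, map_sub, map_one, QQ]
  congr 1
  ext b c
  rw [en_Th, en_diag_mul, en_scm, mul_smul_comm, mul_one, ← map_smul]
  congr 1

lemma quad_eq (K : Matrix (n × ι) (n × ι) ℂ) (y : n × ι → ℂ) :
    star y ⬝ᵥ ((Kᴴ * K) *ᵥ y) = ((∑ i, ‖(K *ᵥ y) i‖ ^ 2 : ℝ) : ℂ) := by
  rw [← Matrix.mulVec_mulVec, Matrix.dotProduct_mulVec, ← Matrix.star_mulVec, dotProduct]
  push_cast
  refine Finset.sum_congr rfl fun i _ => ?_
  rw [Pi.star_apply, Complex.star_def, ← Complex.normSq_eq_conj_mul_self,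
    Complex.normSq_eq_norm_sq]
  push_cast
  rfl

lemma KK_mulVec (w' : Matrix ι ι ℂ) (w : Matrix n n ℂ) (y : n × ι → ℂ) :
    ∑ i, ‖(KK w' w *ᵥ y) i‖ ^ 2
      = hs (w' * (Matrix.of fun p b => y (b, p)) * wᴴ - Matrix.of fun p b => y (b, p)) := by
  rw [hs, Finset.sum_comm, Fintype.sum_prod_type]
  refine Finset.sum_congr rfl fun b _ => Finset.sum_congr rfl fun p _ => ?_
  congr 2
  rw [KK, Matrix.sub_mulVec, Matrix.one_mulVec, Pi.sub_apply, Matrix.sub_apply]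
  congr 1
  rw [Matrix.mul_apply, Matrix.mulVec, dotProduct, Fintype.sum_prod_type]
  refine Finset.sum_congr rfl fun c _ => ?_
  rw [Matrix.mul_apply, Finset.sum_mul]
  refine Finset.sum_congr rfl fun q _ => ?_
  rw [Matrix.kroneckerMap_apply, Matrix.conjTranspose_apply, cj, Matrix.map_apply,
    Matrix.of_apply, Complex.star_def]
  ring

end

theorem gap_pos {N' N : ℕ} [NeZero N'] [NeZero N] {w' : Matrix (ZMod N') (ZMod N') ℂ}
    {w : Matrix (ZMod N) (ZMod N) ℂ} (hw : w * wᴴ = 1) (hg : GapP w' w) :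
    Pos ((((10 : ℝ) ^ 8 : ℝ) : ℂ) • DQ (fun l => embM (iso_tz N') (W3 N' l))
      (fun l => cj (W3 N l)) - EQ (embM (iso_tz N') w') (cj w) : MA (ZMod N) DD) := by
  have hw2 : wᴴ * w = 1 := mul_eq_one_comm.1 hw
  have e1 : (((10 : ℝ) ^ 8 : ℝ) : ℂ) • DQ (fun l => embM (iso_tz N') (W3 N' l))
      (fun l => cj (W3 N l)) - EQ (embM (iso_tz N') w') (cj w) = (Th (iso_tz N')
      ((((10 : ℝ) ^ 8 : ℝ) : ℂ) • ∑ l : Fin 3, (KK (W3 N' l) (W3 N l))ᴴ * KK (W3 N' l) (W3 N l)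
        - (KK w' w)ᴴ * KK w' w) : MA (ZMod N) DD) := by
    rw [map_sub, map_smul, map_sum, map_mul]
    simp only [map_mul, ← Matrix.star_eq_conjTranspose, map_star, Th_KK]
    rfl
  rw [e1]
  have hpsd : ((((10 : ℝ) ^ 8 : ℝ) : ℂ) • ∑ l : Fin 3, (KK (W3 N' l) (W3 N l))ᴴ *
      KK (W3 N' l) (W3 N l) - (KK w' w)ᴴ * KK w' w).PosSemidef := by
    refine Matrix.PosSemidef.of_dotProduct_mulVec_nonneg ?_ fun y => ?_
    · rw [Matrix.IsHermitian, Matrix.conjTranspose_sub, Matrix.conjTranspose_smul,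
        Matrix.conjTranspose_sum, Complex.star_def, Complex.conj_ofReal]
      simp only [Matrix.conjTranspose_mul, Matrix.conjTranspose_conjTranspose]
    · rw [Matrix.sub_mulVec, dotProduct_sub, quad_eq, Matrix.smul_mulVec, dotProduct_smul,
        Matrix.sum_mulVec, dotProduct_sum]
      simp only [quad_eq]
      rw [smul_eq_mul, ← Complex.ofReal_sum, ← Complex.ofReal_mul, ← Complex.ofReal_sub]
      have h1 : 0 ≤ (10 : ℝ) ^ 8 * ∑ l : Fin 3, ∑ i, ‖(KK (W3 N' l) (W3 N l) *ᵥ y) i‖ ^ 2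
          - ∑ i, ‖(KK w' w *ᵥ y) i‖ ^ 2 := by
        simp only [KK_mulVec]
        obtain ⟨Y, hY⟩ : ∃ Y : Matrix (ZMod N') (ZMod N) ℂ, Y = Matrix.of fun p b => y (b, p) :=
          ⟨_, rfl⟩
        rw [← hY]
        have e2 : ∀ (u' : Matrix (ZMod N') (ZMod N') ℂ) (u : Matrix (ZMod N) (ZMod N) ℂ),
            u * uᴴ = 1 → hs (u' * Y * uᴴ - Y) = hs (u' * Y - Y * u) := by
          intro u' u hu
          have hu2 : uᴴ * u = 1 := mul_eq_one_comm.1 hu
          rw [← hs_mul_right (u' * Y * uᴴ - Y) hu, Matrix.sub_mul, Matrix.mul_assoc _ uᴴ, hu2,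
            Matrix.mul_one]
        rw [e2 _ _ hw]
        simp only [e2 _ _ (W3_unit' N _)]
        have := hg Y
        linarith
      exact_mod_cast h1
  obtain ⟨B, hB⟩ := CStarAlgebra.nonneg_iff_eq_star_mul_self.mp hpsd.nonneg
  rw [hB, map_mul, map_star]
  exact pos_star_mul _

end Pool.Agent.N299
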