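import Pool.Agent.N299.Data

/-!
Averages over the unitary group.
-/

set_option autoImplicit false

noncomputable section

namespace Pool.Agent.N299

open Pool.Agent.H188R3 Matrix Pool.Agent.Helper685.OSep TopologicalSpace MeasureTheory

lemma isCompact_unitary (n : Type) [Fintype n] [DecidableEq n] :
    IsCompact (Matrix.unitaryGroup n ℂ : Set (Matrix n n ℂ)) := by
  have h1 : IsCompact (Set.pi Set.univ fun _ : n => Set.pi Set.univ
      fun _ : n => Metric.closedBall (0 : ℂ) 1) :=
    isCompact_univ_pi fun _ => isCompact_univ_pi fun _ => isCompact_closedBall _ _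
  refine IsCompact.of_isClosed_subset h1 ?_ ?_
  · have h2 : (Matrix.unitaryGroup n ℂ : Set (Matrix n n ℂ)) = {U | U * star U = 1} := by
      ext U
      exact Matrix.mem_unitaryGroup_iff
    rw [h2]
    exact isClosed_eq (continuous_id.matrix_mul (continuous_star.comp continuous_id))
      continuous_const
  · intro U hU i _ j _
    rw [mem_closedBall_zero_iff]
    exact entry_norm_bound_of_unitary hU i j

instance instCompactUG (n : Type) [Fintype n] [DecidableEq n] :
    CompactSpace (Matrix.unitaryGroup n ℂ) :=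
  isCompact_iff_compactSpace.1 (isCompact_unitary n)

instance instSCM (n : Type) [Fintype n] : SecondCountableTopology (Matrix n n ℂ) :=
  inferInstanceAs (SecondCountableTopology (n → n → ℂ))

instance instSCUG (k : ℕ) : SecondCountableTopology (UG k) :=
  TopologicalSpace.Subtype.secondCountableTopology _

instance instMeasUG (k : ℕ) : MeasurableSpace (UG k) := borel _

instance instBorelUG (k : ℕ) : BorelSpace (UG k) := ⟨rfl⟩

/-- Haar measure -/
def mu (k : ℕ) : Measure (UG k) := Measure.haar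

instance instMu (k : ℕ) : (mu k).IsHaarMeasure :=
  inferInstanceAs (Measure.IsHaarMeasure Measure.haar)

lemma mu_pos (k : ℕ) : 0 < (mu k).real Set.univ := by
  rw [measureReal_def, ENNReal.toReal_pos_iff]
  exact ⟨isOpen_univ.measure_pos _ Set.univ_nonempty, measure_lt_top _ _⟩

lemma integrable_of_cont {k : ℕ} {E : Type} [NormedAddCommGroup E] [NormedSpace ℝ E]
    {f : UG k → E} (hf : Continuous f) : Integrable f (mu k) := by
  obtain ⟨C, hC⟩ : ∃ C, ∀ w, ‖f w‖ ≤ C := by
    obtain ⟨C, hC⟩ := (isCompact_range hf).isBounded.exists_norm_le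
    exact ⟨C, fun w => hC _ ⟨w, rfl⟩⟩
  exact Integrable.of_bound hf.aestronglyMeasurable C (Filter.Eventually.of_forall hC)

section cont

variable {A : Type} [CStarAlgebra A] {n : Type} [Fintype n] [DecidableEq n]

lemma continuous_scm : Continuous (scm : Matrix n n ℂ → MA n A) :=
  LinearMap.continuous_of_finiteDimensional
    (scm : Matrix n n ℂ →⋆ₐ[ℂ] MA n A).toAlgHom.toLinearMap

lemma continuous_em (j : ℕ) : Continuous (em j) :=
  LinearMap.continuous_of_finiteDimensional (em j).toAlgHom.toLinearMap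

lemma norm_en_le (x : MA n A) (i j : n) : ‖x.en i j‖ ≤ ‖x‖ := by
  let _ : PartialOrder A := CStarAlgebra.spectralOrder A
  let _ : StarOrderedRing A := CStarAlgebra.spectralOrderedRing A
  exact CStarMatrix.norm_entry_le_norm (M := (show CStarMatrix n n A from x)) (i := i) (j := j)

end cont

/-- the slice -/
def sl {A : Type} [CStarAlgebra A] {n : Type} [Fintype n] (e : Matrix n n ℂ) (x : MA n A) : A :=
  ∑ r, ∑ s, e r s • x.en s r

section sl

variable {A : Type} [CStarAlgebra A] {n : Type} [Fintype n] [DecidableEq n]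

lemma sl_add (e e' : Matrix n n ℂ) (x : MA n A) : sl (e + e') x = sl e x + sl e' x := by
  simp only [sl, Matrix.add_apply, add_smul, Finset.sum_add_distrib]

lemma sl_smul (c : ℂ) (e : Matrix n n ℂ) (x : MA n A) : sl (c • e) x = c • sl e x := by
  simp only [sl, Matrix.smul_apply, Finset.smul_sum, smul_smul, smul_eq_mul]

lemma sl_add_right (e : Matrix n n ℂ) (x y : MA n A) : sl e (x + y) = sl e x + sl e y := by
  simp only [sl, MA.en_add, smul_add, Finset.sum_add_distrib]

lemma sl_zero_right (e : Matrix n n ℂ) : sl e (0 : MA n A) = 0 := by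
  simp [sl]

lemma sl_diag_mul (e : Matrix n n ℂ) (a : A) (x : MA n A) :
    sl e (MA.diag a * x) = a * sl e x := by
  simp only [sl, en_diag_mul, Finset.mul_sum, mul_smul_comm]

lemma en_mul_diag (a : A) (x : MA n A) (i j : n) : (x * MA.diag a).en i j = x.en i j * a := by
  rw [MA.en_mul, Finset.sum_eq_single j]
  · rw [MA.en_diag, if_pos rfl]
  · intro b _ hb
    rw [MA.en_diag, if_neg hb, mul_zero]
  · simp

lemma sl_mul_diag (e : Matrix n n ℂ) (a : A) (x : MA n A) :
    sl e (x * MA.diag a) = sl e x * a := by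
  simp only [sl, en_mul_diag, Finset.sum_mul, smul_mul_assoc]

lemma sl_star {e : Matrix n n ℂ} (he : eᴴ = e) (x : MA n A) :
    sl e (-star x) = -star (sl e x) := by
  simp only [sl, MA.en_neg, MA.en_star, star_sum, star_smul, smul_neg, Finset.sum_neg_distrib]
  rw [Finset.sum_comm]
  congr 1
  refine Finset.sum_congr rfl fun r _ => Finset.sum_congr rfl fun s _ => ?_
  have h1 : star (e r s) = e s r := by
    conv_rhs => rw [← he]
    rw [Matrix.conjTranspose_apply]
  rw [h1]

lemma norm_sl_le (e : Matrix n n ℂ) (x : MA n A) : ‖sl e x‖ ≤ (∑ r, ∑ s, ‖e r s‖) * ‖x‖ := by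
  rw [sl, Finset.sum_mul]
  refine (norm_sum_le _ _).trans (Finset.sum_le_sum fun r _ => ?_)
  rw [Finset.sum_mul]
  refine (norm_sum_le _ _).trans (Finset.sum_le_sum fun s _ => ?_)
  rw [norm_smul]
  gcongr
  exact norm_en_le _ _ _

lemma continuous_en (i j : n) : Continuous (fun x : MA n A => x.en i j) := by
  have h : LipschitzWith 1 (fun x : MA n A => x.en i j) := by
    refine LipschitzWith.of_dist_le_mul fun x y => ?_
    rw [dist_eq_norm, dist_eq_norm, ← MA.en_sub]
    simpa using norm_en_le (x - y) i j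
  exact h.continuous

lemma continuous_sl (e : Matrix n n ℂ) : Continuous (fun x : MA n A => sl e x) := by
  unfold sl
  refine continuous_finsetSum _ fun r _ => continuous_finsetSum _ fun s _ => ?_
  exact (continuous_en s r).const_smul _

lemma continuous_diag : Continuous (fun a : A => (MA.diag a : MA n A)) := continuous_hom MA.diag

end sl

/-- projections -/
structure IsPj {n : Type} [Fintype n] (e : Matrix n n ℂ) : Prop where
  sa : eᴴ = e
  idem : e * e = e

/-- the one-parameter groups -/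
def g0 {n : Type} [Fintype n] [DecidableEq n] (e : Matrix n n ℂ) (θ : ℝ) : Matrix n n ℂ :=
  1 + (Complex.exp (Complex.I * θ) - 1) • e

lemma g0_mem {n : Type} [Fintype n] [DecidableEq n] {e : Matrix n n ℂ} (he : IsPj e) (θ : ℝ) :
    g0 e θ ∈ Matrix.unitaryGroup n ℂ := by
  rw [Matrix.mem_unitaryGroup_iff', Matrix.star_eq_conjTranspose, g0, Matrix.conjTranspose_add,
    Matrix.conjTranspose_smul, he.sa, Matrix.conjTranspose_one]
  have h1 : star (Complex.exp (Complex.I * θ)) = Complex.exp (-(Complex.I * θ)) := by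
    rw [Complex.star_def, ← Complex.exp_conj]
    congr 1
    simp
  rw [star_sub, star_one, h1, add_mul, mul_add, mul_add, smul_mul_smul_comm, he.idem, one_mul,
    one_mul, mul_one]
  have h2 : Complex.exp (-(Complex.I * θ)) * Complex.exp (Complex.I * θ) = 1 := by
    rw [← Complex.exp_add]
    simp
  have h3 : 1 + (Complex.exp (Complex.I * θ) - 1) • e + ((Complex.exp (-(Complex.I * θ)) - 1) • e
      + ((Complex.exp (-(Complex.I * θ)) - 1) * (Complex.exp (Complex.I * θ) - 1)) • e)
      = 1 + (Complex.exp (-(Complex.I * θ)) * Complex.exp (Complex.I * θ) - 1) • e := by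
    rw [add_assoc, ← add_smul, ← add_smul]
    congr 2
    ring
  rw [h3, h2]
  simp

/-- the one-parameter groups -/
def gg {k : ℕ} (e : Matrix (ZMod (NN k)) (ZMod (NN k)) ℂ) (he : IsPj e) (θ : ℝ) : UG k :=
  ⟨g0 e θ, g0_mem he θ⟩

lemma exp_bound (θ : ℝ) (h : |θ| ≤ 1) :
    ‖Complex.exp (Complex.I * θ) - 1 - Complex.I * θ‖ ≤ θ ^ 2 := by
  have h1 : ‖Complex.I * (θ : ℂ)‖ = |θ| := by simp
  have h2 := Complex.norm_exp_sub_one_sub_id_le (x := Complex.I * θ) (by rw [h1]; exact h)
  rw [h1, sq_abs] at h2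
  exact h2

/-- functions with a first order expansion -/
structure Nice (k : ℕ) (F : UG k → DD) (M Lc : ℝ) : Prop where
  cont : Continuous F
  bound : ∀ w, ‖F w‖ ≤ M
  deriv : ∃ X : UG k → MA (ZMod (NN k)) DD, Continuous X ∧ (∀ w, ‖X w‖ ≤ Lc) ∧
    ∀ (e : Matrix (ZMod (NN k)) (ZMod (NN k)) ℂ) (he : IsPj e), ∃ K : ℝ, ∀ (θ : ℝ), |θ| ≤ 1 →
      ∀ w, ‖F (gg e he θ * w) - F w - (Complex.I * θ) • sl e (X w)‖ ≤ K * θ ^ 2

lemma nice_const (k : ℕ) (d : DD) {M : ℝ} (hM : ‖d‖ ≤ M) : Nice k (fun _ => d) M 0 where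
  cont := continuous_const
  bound _ := hM
  deriv := ⟨fun _ => 0, continuous_const, fun _ => by simp, fun e he => ⟨0, fun θ _ w => by
    simp [sl_zero_right]⟩⟩

/-- the flip -/
def Fl (k : ℕ) : MA (ZMod (NN k)) DD := MA.of fun s r => tz (NN k) r * star (tz (NN k) s)

lemma norm_flg {A : Type} [CStarAlgebra A] {ι : Type} [Fintype ι] [DecidableEq ι] {t : ι → A}
    (h : Iso t) : ‖(MA.of fun s r => t r * star (t s) : MA ι A)‖ ≤ 1 := by
  refine norm_le_one_of_iso ?_
  have h1 : star (MA.of fun s r => t r * star (t s) : MA ι A) = MA.of fun s r => t r * star (t s) := by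
    ext a b
    simp
  rw [h1]
  ext a b
  rw [MA.en_mul, MA.en_one]
  simp only [MA.en_of, h.unit_mul]
  by_cases hab : a = b
  · subst hab
    simp [h.sum]
  · simp [hab]

lemma norm_Fl (k : ℕ) : ‖Fl k‖ ≤ 1 := norm_flg (iso_tz (NN k))

lemma sl_flg {A : Type} [CStarAlgebra A] {ι : Type} [Fintype ι] [DecidableEq ι] {t : ι → A}
    (h : Iso t) (e : Matrix ι ι ℂ) : sl e (MA.of fun s r => t r * star (t s) : MA ι A)
      = embM h e := rfl

lemma sl_Fl (k : ℕ) (e : Matrix (ZMod (NN k)) (ZMod (NN k)) ℂ) : sl e (Fl k) = em k e := rfl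

lemma norm_em_pj {k : ℕ} {e : Matrix (ZMod (NN k)) (ZMod (NN k)) ℂ} (he : IsPj e) :
    ‖em k e‖ ≤ 1 := by
  have h1 : star (em k e) * em k e = em k e := by
    rw [← map_star, ← map_mul, Matrix.star_eq_conjTranspose, he.sa, he.idem]
  have h2 : ‖em k e‖ * ‖em k e‖ = ‖em k e‖ := by
    rw [← CStarRing.norm_star_mul_self, h1]
  nlinarith [norm_nonneg (em k e)]

lemma nice_em (k : ℕ) : Nice k (fun w => em k (w : Matrix (ZMod (NN k)) (ZMod (NN k)) ℂ)) 1 1 where
  cont := (continuous_em k).comp continuous_subtype_val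
  bound w := norm_em_le (ug_left w)
  deriv := by
    refine ⟨fun w => Fl k * MA.diag (em k (w : Matrix (ZMod (NN k)) (ZMod (NN k)) ℂ)), ?_, ?_, ?_⟩
    · exact continuous_const.mul (continuous_diag.comp
        ((continuous_em k).comp continuous_subtype_val))
    · intro w
      calc ‖Fl k * MA.diag (em k (w : Matrix (ZMod (NN k)) (ZMod (NN k)) ℂ))‖
          ≤ ‖Fl k‖ * ‖(MA.diag (em k (w : Matrix (ZMod (NN k)) (ZMod (NN k)) ℂ)) :
            MA (ZMod (NN k)) DD)‖ := norm_mul_le _ _
        _ ≤ 1 * 1 := by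
            have h1 := norm_Fl k
            have h2 := (norm_diag_le (n := ZMod (NN k))
              (em k (w : Matrix (ZMod (NN k)) (ZMod (NN k)) ℂ))).trans (norm_em_le (ug_left w))
            gcongr
        _ = 1 := one_mul 1
    · intro e he
      refine ⟨1, fun θ hθ w => ?_⟩
      have h1 : em k ((gg e he θ * w : UG k) : Matrix (ZMod (NN k)) (ZMod (NN k)) ℂ)
          = em k (w : Matrix (ZMod (NN k)) (ZMod (NN k)) ℂ)
            + (Complex.exp (Complex.I * θ) - 1) • (em k e *
              em k (w : Matrix (ZMod (NN k)) (ZMod (NN k)) ℂ)) := by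
        rw [← map_mul, ← map_smul, ← map_add]
        congr 1
        show g0 e θ * (w : Matrix (ZMod (NN k)) (ZMod (NN k)) ℂ) = _
        rw [g0, add_mul, one_mul, smul_mul_assoc]
      rw [h1, sl_mul_diag, sl_Fl]
      have h2 : em k (w : Matrix (ZMod (NN k)) (ZMod (NN k)) ℂ)
            + (Complex.exp (Complex.I * θ) - 1) • (em k e *
              em k (w : Matrix (ZMod (NN k)) (ZMod (NN k)) ℂ))
            - em k (w : Matrix (ZMod (NN k)) (ZMod (NN k)) ℂ)
            - (Complex.I * θ) • (em k e * em k (w : Matrix (ZMod (NN k)) (ZMod (NN k)) ℂ))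
          = (Complex.exp (Complex.I * θ) - 1 - Complex.I * θ) • (em k e *
              em k (w : Matrix (ZMod (NN k)) (ZMod (NN k)) ℂ)) := by
        rw [sub_smul (Complex.exp (Complex.I * θ) - 1)]
        abel
      rw [h2, norm_smul]
      have h3 : ‖em k e * em k (w : Matrix (ZMod (NN k)) (ZMod (NN k)) ℂ)‖ ≤ 1 := by
        refine (norm_mul_le _ _).trans ?_
        have h4 := norm_em_pj he
        have h5 := norm_em_le (ug_left w)
        calc _ ≤ (1 : ℝ) * 1 := by gcongr
          _ = 1 := one_mul 1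
      calc _ ≤ θ ^ 2 * 1 := by
            gcongr
            exact exp_bound θ hθ
        _ = 1 * θ ^ 2 := by ring

lemma Nice.add {k : ℕ} {F G : UG k → DD} {M M' Lc Lc' : ℝ} (hF : Nice k F M Lc)
    (hG : Nice k G M' Lc') : Nice k (fun w => F w + G w) (M + M') (Lc + Lc') where
  cont := hF.cont.add hG.cont
  bound w := (norm_add_le _ _).trans (add_le_add (hF.bound w) (hG.bound w))
  deriv := by
    obtain ⟨X, hX1, hX2, hX3⟩ := hF.deriv
    obtain ⟨Y, hY1, hY2, hY3⟩ := hG.deriv
    refine ⟨fun w => X w + Y w, hX1.add hY1,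
      fun w => (norm_add_le _ _).trans (add_le_add (hX2 w) (hY2 w)), fun e he => ?_⟩
    obtain ⟨K, hK⟩ := hX3 e he
    obtain ⟨K', hK'⟩ := hY3 e he
    refine ⟨K + K', fun θ hθ w => ?_⟩
    rw [sl_add_right, smul_add]
    have e1 : F (gg e he θ * w) + G (gg e he θ * w) - (F w + G w)
        - ((Complex.I * θ) • sl e (X w) + (Complex.I * θ) • sl e (Y w))
        = (F (gg e he θ * w) - F w - (Complex.I * θ) • sl e (X w))
          + (G (gg e he θ * w) - G w - (Complex.I * θ) • sl e (Y w)) := by abel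
    rw [e1, add_mul]
    exact (norm_add_le _ _).trans (add_le_add (hK θ hθ w) (hK' θ hθ w))

lemma Nice.adj {k : ℕ} {F : UG k → DD} {M Lc : ℝ} (hF : Nice k F M Lc) :
    Nice k (fun w => star (F w)) M Lc where
  cont := hF.cont.star
  bound w := by
    rw [norm_star]
    exact hF.bound w
  deriv := by
    obtain ⟨X, hX1, hX2, hX3⟩ := hF.deriv
    refine ⟨fun w => -star (X w), hX1.star.neg, fun w => ?_, fun e he => ?_⟩
    · rw [norm_neg, norm_star]
      exact hX2 w
    · obtain ⟨K, hK⟩ := hX3 e he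
      refine ⟨K, fun θ hθ w => ?_⟩
      rw [sl_star he.sa]
      have e1 : star (F (gg e he θ * w)) - star (F w)
          - (Complex.I * θ) • -star (sl e (X w))
          = star (F (gg e he θ * w) - F w - (Complex.I * θ) • sl e (X w)) := by
        rw [star_sub, star_sub, star_smul]
        congr 1
        rw [smul_neg, ← neg_smul]
        congr 1
        simp
      rw [e1, norm_star]
      exact hK θ hθ w

lemma Nice.mul {k : ℕ} {F G : UG k → DD} {M M' Lc Lc' : ℝ} (hF : Nice k F M Lc)
    (hG : Nice k G M' Lc') : Nice k (fun w => F w * G w) (M * M') (Lc * M' + M * Lc') where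
  cont := hF.cont.mul hG.cont
  bound w := by
    have h0 : 0 ≤ M := (norm_nonneg _).trans (hF.bound w)
    exact (norm_mul_le _ _).trans (mul_le_mul (hF.bound w) (hG.bound w) (norm_nonneg _) h0)
  deriv := by
    obtain ⟨X, hX1, hX2, hX3⟩ := hF.deriv
    obtain ⟨Y, hY1, hY2, hY3⟩ := hG.deriv
    have hM0 : 0 ≤ M := (norm_nonneg _).trans (hF.bound 1)
    have hM0' : 0 ≤ M' := (norm_nonneg _).trans (hG.bound 1)
    have hL0 : 0 ≤ Lc := (norm_nonneg _).trans (hX2 1)
    have hL0' : 0 ≤ Lc' := (norm_nonneg _).trans (hY2 1)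
    refine ⟨fun w => X w * MA.diag (G w) + MA.diag (F w) * Y w,
      (hX1.mul (continuous_diag.comp hG.cont)).add ((continuous_diag.comp hF.cont).mul hY1),
      fun w => ?_, fun e he => ?_⟩
    · refine (norm_add_le _ _).trans (add_le_add ((norm_mul_le _ _).trans ?_)
        ((norm_mul_le _ _).trans ?_))
      · exact mul_le_mul (hX2 w) ((norm_diag_le _).trans (hG.bound w)) (norm_nonneg _) hL0
      · exact mul_le_mul ((norm_diag_le _).trans (hF.bound w)) (hY2 w) (norm_nonneg _) hM0
    · obtain ⟨K, hK⟩ := hX3 e he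
      obtain ⟨K', hK'⟩ := hY3 e he
      obtain ⟨κ, hκ⟩ : ∃ κ : ℝ, κ = ∑ r, ∑ s, ‖e r s‖ := ⟨_, rfl⟩
      have hκ0 : 0 ≤ κ := by rw [hκ]; positivity
      have hK0 : 0 ≤ K := by
        have := (norm_nonneg _).trans (hK 1 (by simp) 1)
        simpa using this
      have hK0' : 0 ≤ K' := by
        have := (norm_nonneg _).trans (hK' 1 (by simp) 1)
        simpa using this
      refine ⟨K * M' + M * K' + κ * Lc * (κ * Lc' + K'), fun θ hθ w => ?_⟩
      rw [sl_add_right, sl_mul_diag, sl_diag_mul]
      have e1 : F (gg e he θ * w) * G (gg e he θ * w) - F w * G w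
          - (Complex.I * θ) • (sl e (X w) * G w + F w * sl e (Y w))
          = (F (gg e he θ * w) - F w - (Complex.I * θ) • sl e (X w)) * G (gg e he θ * w)
            + F w * (G (gg e he θ * w) - G w - (Complex.I * θ) • sl e (Y w))
            + ((Complex.I * θ) • sl e (X w)) * (G (gg e he θ * w) - G w) := by
        simp only [sub_mul, mul_sub, smul_mul_assoc, mul_smul_comm, smul_add]
        abel
      have hI : ‖Complex.I * (θ : ℂ)‖ = |θ| := by simp
      have hsX : ‖sl e (X w)‖ ≤ κ * Lc := by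
        refine (norm_sl_le e (X w)).trans ?_
        rw [← hκ]
        gcongr
        exact hX2 w
      have hsY : ‖sl e (Y w)‖ ≤ κ * Lc' := by
        refine (norm_sl_le e (Y w)).trans ?_
        rw [← hκ]
        gcongr
        exact hY2 w
      have hGd : ‖G (gg e he θ * w) - G w‖ ≤ |θ| * (κ * Lc' + K') := by
        have e2 : G (gg e he θ * w) - G w = (G (gg e he θ * w) - G w
            - (Complex.I * θ) • sl e (Y w)) + (Complex.I * θ) • sl e (Y w) := by abel
        rw [e2]
        refine (norm_add_le _ _).trans ?_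
        rw [norm_smul, hI]
        have h3 := hK' θ hθ w
        have h4 : θ ^ 2 ≤ |θ| := by
          rw [← sq_abs]
          nlinarith [abs_nonneg θ]
        calc _ ≤ K' * θ ^ 2 + |θ| * (κ * Lc') := by gcongr
          _ ≤ K' * |θ| + |θ| * (κ * Lc') := by gcongr
          _ = |θ| * (κ * Lc' + K') := by ring
      rw [e1]
      refine (norm_add₃_le).trans ?_
      have h5 : ‖(F (gg e he θ * w) - F w - (Complex.I * θ) • sl e (X w)) * G (gg e he θ * w)‖
          ≤ (K * θ ^ 2) * M' :=
        (norm_mul_le _ _).trans (mul_le_mul (hK θ hθ w) (hG.bound _) (norm_nonneg _)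
          (by positivity))
      have h6 : ‖F w * (G (gg e he θ * w) - G w - (Complex.I * θ) • sl e (Y w))‖
          ≤ M * (K' * θ ^ 2) :=
        (norm_mul_le _ _).trans (mul_le_mul (hF.bound w) (hK' θ hθ w) (norm_nonneg _) hM0)
      have h7 : ‖((Complex.I * θ) • sl e (X w)) * (G (gg e he θ * w) - G w)‖
          ≤ (|θ| * (κ * Lc)) * (|θ| * (κ * Lc' + K')) := by
        refine (norm_mul_le _ _).trans (mul_le_mul ?_ hGd (norm_nonneg _) (by positivity))
        rw [norm_smul, hI]
        gcongr
      have h8 : (|θ| * (κ * Lc)) * (|θ| * (κ * Lc' + K'))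
          = κ * Lc * (κ * Lc' + K') * θ ^ 2 := by
        rw [← sq_abs]
        ring
      rw [h8] at h7
      linarith

end Pool.Agent.N299
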