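import Pool.Agent.N299.Haar

/-!
The averaging estimate.
-/

set_option autoImplicit false

noncomputable section

namespace Pool.Agent.N299

open Pool.Agent.H188R3 Matrix Pool.Agent.Helper685.OSep TopologicalSpace MeasureTheory

section

variable {k : ℕ}

/-- the matrices -/
abbrev Mk (k : ℕ) : Type := Matrix (ZMod (NN k)) (ZMod (NN k)) ℂ

/-- the first order term -/
def AA (F : UG k → DD) (X : UG k → MA (ZMod (NN k)) DD) (e : Mk k) (w : UG k) :
    MA (ZMod (NN k)) DD :=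
  MA.diag (sl e (X w)) * scm (w : Mk k) + MA.diag (F w) * (scm e * scm (w : Mk k))

lemma continuous_scmw : Continuous (fun w : UG k => (scm (w : Mk k) : MA (ZMod (NN k)) DD)) :=
  continuous_scm.comp continuous_subtype_val

lemma continuous_AA {F : UG k → DD} {X : UG k → MA (ZMod (NN k)) DD} (hF : Continuous F)
    (hX : Continuous X) (e : Mk k) : Continuous (AA F X e) := by
  unfold AA
  refine Continuous.add ?_ ?_
  · exact (continuous_diag.comp ((continuous_sl e).comp hX)).mul continuous_scmw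
  · exact (continuous_diag.comp hF).mul (continuous_const.mul continuous_scmw)

lemma AA_add (F : UG k → DD) (X : UG k → MA (ZMod (NN k)) DD) (e e' : Mk k) (w : UG k) :
    AA F X (e + e') w = AA F X e w + AA F X e' w := by
  simp only [AA, sl_add, map_add, add_mul, mul_add]
  abel

lemma AA_smul (F : UG k → DD) (X : UG k → MA (ZMod (NN k)) DD) (c : ℂ) (e : Mk k) (w : UG k) :
    AA F X (c • e) w = c • AA F X e w := by
  simp only [AA, sl_smul, map_smul, smul_mul_assoc, mul_smul_comm, smul_add]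

/-- its average -/
def JJ (F : UG k → DD) (X : UG k → MA (ZMod (NN k)) DD) (e : Mk k) : MA (ZMod (NN k)) DD :=
  ∫ w, AA F X e w ∂(mu k)

lemma JJ_add {F : UG k → DD} {X : UG k → MA (ZMod (NN k)) DD} (hF : Continuous F)
    (hX : Continuous X) (e e' : Mk k) : JJ F X (e + e') = JJ F X e + JJ F X e' := by
  simp only [JJ, AA_add]
  exact integral_add (integrable_of_cont (continuous_AA hF hX e))
    (integrable_of_cont (continuous_AA hF hX e'))

lemma JJ_smul {F : UG k → DD} {X : UG k → MA (ZMod (NN k)) DD} (c : ℂ) (e : Mk k) :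
    JJ F X (c • e) = c • JJ F X e := by
  simp only [JJ, AA_smul]
  exact integral_smul c _

lemma norm_scm_pj {e : Mk k} (he : IsPj e) : ‖(scm e : MA (ZMod (NN k)) DD)‖ ≤ 1 := by
  have h1 : star (scm e : MA (ZMod (NN k)) DD) * scm e = scm e := by
    rw [← map_star, ← map_mul, Matrix.star_eq_conjTranspose, he.sa, he.idem]
  have h2 : ‖(scm e : MA (ZMod (NN k)) DD)‖ * ‖(scm e : MA (ZMod (NN k)) DD)‖
      = ‖(scm e : MA (ZMod (NN k)) DD)‖ := by
    rw [← CStarRing.norm_star_mul_self, h1]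
  nlinarith [norm_nonneg (scm e : MA (ZMod (NN k)) DD)]

lemma scm_gg {e : Mk k} (he : IsPj e) (θ : ℝ) (w : UG k) :
    (scm ((gg e he θ * w : UG k) : Mk k) : MA (ZMod (NN k)) DD)
      = scm (w : Mk k) + (Complex.exp (Complex.I * θ) - 1) • (scm e * scm (w : Mk k)) := by
  rw [← map_mul, ← map_smul, ← map_add]
  congr 1
  show g0 e θ * (w : Mk k) = _
  rw [g0, add_mul, one_mul, smul_mul_assoc]

lemma first_order {F : UG k → DD} {X : UG k → MA (ZMod (NN k)) DD} {M Lc K : ℝ}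
    (hM : ∀ w, ‖F w‖ ≤ M) (hL : ∀ w, ‖X w‖ ≤ Lc) {e : Mk k} (he : IsPj e) {θ : ℝ}
    (hθ : |θ| ≤ 1)
    (hK : ∀ w, ‖F (gg e he θ * w) - F w - (Complex.I * θ) • sl e (X w)‖ ≤ K * θ ^ 2) (w : UG k) :
    ‖MA.diag (F (gg e he θ * w)) * scm ((gg e he θ * w : UG k) : Mk k)
      - MA.diag (F w) * scm (w : Mk k) - (Complex.I * θ) • AA F X e w‖
      ≤ (K + 2 * ((∑ r, ∑ s, ‖e r s‖) * Lc) + M) * θ ^ 2 := by
  obtain ⟨ζ, hζ⟩ : ∃ ζ : ℂ, ζ = Complex.exp (Complex.I * θ) - 1 := ⟨_, rfl⟩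
  obtain ⟨κ, hκ⟩ : ∃ κ : ℝ, κ = ∑ r, ∑ s, ‖e r s‖ := ⟨_, rfl⟩
  have hκ0 : 0 ≤ κ := by rw [hκ]; positivity
  have hM0 : 0 ≤ M := (norm_nonneg _).trans (hM 1)
  have hL0 : 0 ≤ Lc := (norm_nonneg _).trans (hL 1)
  have hI : ‖Complex.I * (θ : ℂ)‖ = |θ| := by simp
  have hζ1 : ‖ζ - Complex.I * θ‖ ≤ θ ^ 2 := by rw [hζ]; exact exp_bound θ hθ
  have hθ2 : θ ^ 2 ≤ |θ| := by
    rw [← sq_abs]
    nlinarith [abs_nonneg θ]
  have hζ2 : ‖ζ‖ ≤ 2 * |θ| := by
    have : ζ = (ζ - Complex.I * θ) + Complex.I * θ := by ring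
    rw [this]
    refine (norm_add_le _ _).trans ?_
    rw [hI]
    linarith
  have hw : ‖(scm (w : Mk k) : MA (ZMod (NN k)) DD)‖ ≤ 1 := norm_scm_le (ug_left w)
  have hgw : ‖(scm ((gg e he θ * w : UG k) : Mk k) : MA (ZMod (NN k)) DD)‖ ≤ 1 :=
    norm_scm_le (ug_left _)
  have hew : ‖(scm e * scm (w : Mk k) : MA (ZMod (NN k)) DD)‖ ≤ 1 := by
    refine (norm_mul_le _ _).trans ?_
    have := norm_scm_pj he
    calc _ ≤ (1 : ℝ) * 1 := by gcongr
      _ = 1 := one_mul 1
  have e1 : MA.diag (F (gg e he θ * w)) * scm ((gg e he θ * w : UG k) : Mk k)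
      - MA.diag (F w) * scm (w : Mk k) - (Complex.I * θ) • AA F X e w
      = MA.diag (F (gg e he θ * w) - F w - (Complex.I * θ) • sl e (X w))
          * scm ((gg e he θ * w : UG k) : Mk k)
        + ((Complex.I * θ) • MA.diag (sl e (X w))) * (ζ • (scm e * scm (w : Mk k)))
        + MA.diag (F w) * ((ζ - Complex.I * θ) • (scm e * scm (w : Mk k))) := by
    have e2 := scm_gg he θ w
    rw [← hζ] at e2
    rw [e2, AA, map_sub, map_sub, map_smul]
    simp only [sub_mul, mul_add, smul_add, sub_smul, smul_sub, mul_sub, smul_mul_assoc,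
      mul_smul_comm, smul_smul]
    rw [mul_comm ζ (Complex.I * θ)]
    abel
  rw [e1, ← hκ]
  refine norm_add₃_le.trans ?_
  have h1 : ‖(MA.diag (F (gg e he θ * w) - F w - (Complex.I * θ) • sl e (X w)) :
      MA (ZMod (NN k)) DD) * scm ((gg e he θ * w : UG k) : Mk k)‖ ≤ (K * θ ^ 2) * 1 := by
    refine (norm_mul_le _ _).trans (mul_le_mul ((norm_diag_le _).trans (hK w)) hgw
      (norm_nonneg _) ((norm_nonneg _).trans (hK w)))
  have h2 : ‖((Complex.I * θ) • (MA.diag (sl e (X w)) : MA (ZMod (NN k)) DD))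
      * (ζ • (scm e * scm (w : Mk k)))‖ ≤ (|θ| * (κ * Lc)) * ((2 * |θ|) * 1) := by
    refine (norm_mul_le _ _).trans (mul_le_mul ?_ ?_ (norm_nonneg _) (by positivity))
    · rw [norm_smul, hI]
      gcongr
      refine (norm_diag_le _).trans ((norm_sl_le e (X w)).trans ?_)
      rw [← hκ]
      gcongr
      exact hL w
    · rw [norm_smul]
      gcongr
  have h3 : ‖(MA.diag (F w) : MA (ZMod (NN k)) DD)
      * ((ζ - Complex.I * θ) • (scm e * scm (w : Mk k)))‖ ≤ M * (θ ^ 2 * 1) := by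
    refine (norm_mul_le _ _).trans (mul_le_mul ((norm_diag_le _).trans (hM w)) ?_
      (norm_nonneg _) hM0)
    rw [norm_smul]
    gcongr
  have h4 : (|θ| * (κ * Lc)) * ((2 * |θ|) * 1) = 2 * (κ * Lc) * θ ^ 2 := by
    rw [← sq_abs]
    ring
  rw [h4] at h2
  linarith

lemma JJ_pj {F : UG k → DD} {X : UG k → MA (ZMod (NN k)) DD} {M Lc : ℝ}
    (hF : Continuous F) (hX : Continuous X)
    (hM : ∀ w, ‖F w‖ ≤ M) (hL : ∀ w, ‖X w‖ ≤ Lc) {e : Mk k} (he : IsPj e) {K : ℝ}
    (hK : ∀ (θ : ℝ), |θ| ≤ 1 → ∀ w,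
      ‖F (gg e he θ * w) - F w - (Complex.I * θ) • sl e (X w)‖ ≤ K * θ ^ 2) :
    JJ F X e = 0 := by
  obtain ⟨c, hc⟩ : ∃ c : ℝ, c = (mu k).real Set.univ := ⟨_, rfl⟩
  have hc0 : 0 < c := by rw [hc]; exact mu_pos k
  have hM0 : 0 ≤ M := (norm_nonneg _).trans (hM 1)
  have hL0 : 0 ≤ Lc := (norm_nonneg _).trans (hL 1)
  have hK0 : 0 ≤ K := by
    have := (norm_nonneg _).trans (hK 1 (by simp) 1)
    simpa using this
  obtain ⟨K', hK'⟩ : ∃ K' : ℝ, K' = K + 2 * ((∑ r, ∑ s, ‖e r s‖) * Lc) + M := ⟨_, rfl⟩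
  have hK0' : 0 ≤ K' := by rw [hK']; positivity
  have hcΦ : Continuous (fun w : UG k => (MA.diag (F w) * scm (w : Mk k) : MA (ZMod (NN k)) DD)) :=
    (continuous_diag.comp hF).mul continuous_scmw
  have key : ∀ θ : ℝ, 0 < θ → θ ≤ 1 → ‖JJ F X e‖ ≤ K' * θ * c := by
    intro θ h0 h1
    have habs : |θ| ≤ 1 := by rw [abs_of_pos h0]; exact h1
    obtain ⟨Φ, hΦ⟩ : ∃ Φ : UG k → MA (ZMod (NN k)) DD,
        Φ = fun w => MA.diag (F w) * scm (w : Mk k) := ⟨_, rfl⟩
    rw [← hΦ] at hcΦ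
    have hcg : Continuous (fun w : UG k => Φ (gg e he θ * w)) :=
      hcΦ.comp (continuous_const.mul continuous_id)
    have hinv : ∫ w, Φ (gg e he θ * w) ∂(mu k) = ∫ w, Φ w ∂(mu k) :=
      integral_mul_left_eq_self Φ (gg e he θ)
    have i1 := integrable_of_cont hcg
    have i2 := integrable_of_cont hcΦ
    have i3 := integrable_of_cont ((continuous_AA hF hX e).const_smul (Complex.I * (θ : ℂ)))
    have hint : ∫ w, (Φ (gg e he θ * w) - Φ w - (Complex.I * θ) • AA F X e w) ∂(mu k)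
        = -((Complex.I * θ) • JJ F X e) := by
      calc ∫ w, (Φ (gg e he θ * w) - Φ w - (Complex.I * θ) • AA F X e w) ∂(mu k)
          = ∫ w, (Φ (gg e he θ * w) - Φ w) ∂(mu k)
            - ∫ w, (Complex.I * (θ : ℂ)) • AA F X e w ∂(mu k) := integral_sub (i1.sub i2) i3
        _ = (∫ w, Φ (gg e he θ * w) ∂(mu k) - ∫ w, Φ w ∂(mu k))
            - (Complex.I * (θ : ℂ)) • ∫ w, AA F X e w ∂(mu k) := by
            rw [integral_sub i1 i2, integral_smul]
        _ = _ := by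
            rw [hinv, sub_self, zero_sub]
            rfl
    have hfo : ∀ w, ‖Φ (gg e he θ * w) - Φ w - (Complex.I * θ) • AA F X e w‖ ≤ K' * θ ^ 2 := by
      intro w
      rw [hΦ, hK']
      exact first_order hM hL he habs (hK θ habs) w
    have hle := norm_integral_le_of_norm_le_const (μ := mu k) (Filter.Eventually.of_forall hfo)
    rw [hint, norm_neg, norm_smul, ← hc] at hle
    have hI : ‖Complex.I * (θ : ℂ)‖ = θ := by simp [abs_of_pos h0]
    rw [hI] at hle
    have h2 : θ * ‖JJ F X e‖ ≤ θ * (K' * θ * c) := by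
      calc θ * ‖JJ F X e‖ ≤ K' * θ ^ 2 * c := hle
        _ = θ * (K' * θ * c) := by ring
    exact le_of_mul_le_mul_left h2 h0
  by_contra hne
  have hpos : 0 < ‖JJ F X e‖ := norm_pos_iff.2 hne
  obtain ⟨θ, hθ⟩ : ∃ θ : ℝ, θ = min 1 (‖JJ F X e‖ / (2 * (K' * c + 1))) := ⟨_, rfl⟩
  have hden : 0 < K' * c + 1 := by positivity
  have hθ0 : 0 < θ := by
    rw [hθ]
    exact lt_min one_pos (by positivity)
  have h1 := key θ hθ0 (by rw [hθ]; exact min_le_left _ _)
  have h2 : θ ≤ ‖JJ F X e‖ / (2 * (K' * c + 1)) := by rw [hθ]; exact min_le_right _ _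
  have h3 : K' * θ * c ≤ (K' * c) * (‖JJ F X e‖ / (2 * (K' * c + 1))) := by
    calc K' * θ * c = (K' * c) * θ := by ring
      _ ≤ _ := by gcongr
  have h4 : (K' * c) * (‖JJ F X e‖ / (2 * (K' * c + 1))) ≤ ‖JJ F X e‖ / 2 := by
    rw [mul_div_assoc', div_le_div_iff₀ (by positivity) (by norm_num)]
    nlinarith [mul_nonneg hK0' hc0.le]
  linarith

/-- matrix units -/
lemma isPj_diag {n : Type} [Fintype n] [DecidableEq n] (r : n) :
    IsPj (Matrix.single r r (1 : ℂ)) where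
  sa := by
    ext i j
    simp only [Matrix.conjTranspose_apply, Matrix.single_apply]
    by_cases h : r = i ∧ r = j
    · rw [if_pos h, if_pos ⟨h.2, h.1⟩, star_one]
    · rw [if_neg h, if_neg (fun h' => h ⟨h'.2, h'.1⟩), star_zero]
  idem := by
    rw [Matrix.single_mul_single_same, one_mul]

lemma isPj_off {n : Type} [Fintype n] [DecidableEq n] {r s : n} (hrs : r ≠ s) {ζ : ℂ}
    (hζ : ζ * star ζ = 1) :
    IsPj ((1 / 2 : ℂ) • (Matrix.single r r (1 : ℂ) + Matrix.single s s (1 : ℂ)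
      + Matrix.single r s ζ + Matrix.single s r (star ζ))) where
  sa := by
    rw [Matrix.conjTranspose_smul, Matrix.conjTranspose_add, Matrix.conjTranspose_add,
      Matrix.conjTranspose_add, Matrix.conjTranspose_single, Matrix.conjTranspose_single,
      Matrix.conjTranspose_single, Matrix.conjTranspose_single, star_star, star_one]
    have : star (1 / 2 : ℂ) = 1 / 2 := by simp
    rw [this]
    congr 1
    abel
  idem := by
    have hζ' : star ζ * ζ = 1 := by rw [mul_comm]; exact hζ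
    rw [smul_mul_smul_comm]
    simp only [add_mul, mul_add, Matrix.single_mul_single_same,
      Matrix.single_mul_single_of_ne _ _ _ _ hrs, Matrix.single_mul_single_of_ne _ _ _ _ hrs.symm,
      hζ, hζ', one_mul, mul_one, add_zero, zero_add]
    have e1 : Matrix.single r r (1 : ℂ) + Matrix.single s r (star ζ)
        + (Matrix.single s s (1 : ℂ) + Matrix.single r s ζ)
        + (Matrix.single r s ζ + Matrix.single s s (1 : ℂ))
        + (Matrix.single s r (star ζ) + Matrix.single r r (1 : ℂ))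
        = (2 : ℂ) • (Matrix.single r r (1 : ℂ) + Matrix.single s s (1 : ℂ)
          + Matrix.single r s ζ + Matrix.single s r (star ζ)) := by
      rw [two_smul]
      abel
    rw [e1, smul_smul]
    norm_num

end

end Pool.Agent.N299
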