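import Pool.Agent.N299.Haar2

/-!
The averaging estimate, conclusion.
-/

set_option autoImplicit false

noncomputable section

namespace Pool.Agent.N299

open Pool.Agent.H188R3 Matrix Pool.Agent.Helper685.OSep TopologicalSpace MeasureTheory

section

variable {k : ℕ}

lemma JJ_single {F : UG k → DD} {X : UG k → MA (ZMod (NN k)) DD} (hF : Continuous F)
    (hX : Continuous X) (hall : ∀ e, IsPj e → JJ F X e = 0) (r s : ZMod (NN k)) :
    JJ F X (Matrix.single r s 1) = 0 := by
  by_cases hrs : r = s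
  · subst hrs
    exact hall _ (isPj_diag r)
  · have h1 := hall _ (isPj_off hrs (ζ := 1) (by simp))
    have h2 := hall _ (isPj_off hrs (ζ := -Complex.I) (by simp))
    have h3 := hall _ (isPj_diag r)
    have h4 := hall _ (isPj_diag s)
    have e1 : (Matrix.single r s (1 : ℂ) : Mk k)
        = (1 / 2 : ℂ) • (Matrix.single r r (1 : ℂ) + Matrix.single s s (1 : ℂ)
            + Matrix.single r s (1 : ℂ) + Matrix.single s r (star (1 : ℂ)))
          + Complex.I • ((1 / 2 : ℂ) • (Matrix.single r r (1 : ℂ) + Matrix.single s s (1 : ℂ)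
            + Matrix.single r s (-Complex.I) + Matrix.single s r (star (-Complex.I))))
          + ((-(1 / 2) * (1 + Complex.I) : ℂ) • Matrix.single r r (1 : ℂ)
            + (-(1 / 2) * (1 + Complex.I) : ℂ) • Matrix.single s s (1 : ℂ)) := by
      have hI := Complex.I_mul_I
      ext i j
      simp only [Matrix.add_apply, Matrix.smul_apply, Matrix.single_apply, smul_eq_mul,
        star_neg, Complex.star_def, Complex.conj_I, neg_neg, map_one]
      split_ifs <;> ring_nf <;> simp <;> ring_nf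
    rw [e1, JJ_add hF hX, JJ_add hF hX, JJ_add hF hX, JJ_smul, JJ_smul, JJ_smul, JJ_smul] at *
    simp only [JJ_smul] at h1 h2 h3 h4 ⊢
    rw [h1, h2, h3, h4]
    simp

lemma sl_single {A : Type} [CStarAlgebra A] {n : Type} [Fintype n] [DecidableEq n] (r s : n)
    (x : MA n A) : sl (Matrix.single r s 1) x = x.en s r := by
  rw [sl, Finset.sum_eq_single r, Finset.sum_eq_single s]
  · simp
  · intro b _ hb
    rw [Matrix.single_apply, if_neg (fun h => hb h.2.symm), zero_smul]
  · simp
  · intro b _ hb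
    refine Finset.sum_eq_zero fun c _ => ?_
    rw [Matrix.single_apply, if_neg (fun h => hb h.1.symm), zero_smul]
  · simp

lemma sum_scm_diag {A : Type} [CStarAlgebra A] {n : Type} [Fintype n] [DecidableEq n]
    (x : MA n A) : ∑ r, ∑ s, scm (Matrix.single s r (1 : ℂ)) * MA.diag (x.en s r) = x := by
  ext a b
  rw [MA.en_sum]
  simp only [MA.en_sum, en_mul_diag, en_scm]
  rw [Finset.sum_eq_single b, Finset.sum_eq_single a]
  · simp
  · intro c _ hc
    rw [Matrix.single_apply, if_neg (fun h => hc h.1), zero_smul, zero_mul]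
  · simp
  · intro c _ hc
    refine Finset.sum_eq_zero fun d _ => ?_
    rw [Matrix.single_apply, if_neg (fun h => hc h.2), zero_smul, zero_mul]
  · simp

lemma sum_single {n : Type} [Fintype n] [DecidableEq n] :
    ∑ _r : n, ∑ s : n, (Matrix.single s s (1 : ℂ)) = (Fintype.card n : ℂ) • (1 : Matrix n n ℂ) := by
  have h1 : ∑ s : n, (Matrix.single s s (1 : ℂ)) = (1 : Matrix n n ℂ) := by
    ext a b
    rw [Matrix.sum_apply, Matrix.one_apply]
    by_cases hab : a = b
    · subst hab
      rw [Finset.sum_eq_single a]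
      · simp
      · intro c _ hc
        rw [Matrix.single_apply, if_neg (fun h => hc h.1)]
      · simp
    · rw [if_neg hab]
      refine Finset.sum_eq_zero fun c _ => ?_
      rw [Matrix.single_apply, if_neg]
      rintro ⟨rfl, rfl⟩
      exact hab rfl
  rw [h1, Finset.sum_const, Finset.card_univ]
  rw [← Nat.cast_smul_eq_nsmul ℂ]

lemma sum_AA (F : UG k → DD) (X : UG k → MA (ZMod (NN k)) DD) (w : UG k) :
    ∑ r : ZMod (NN k), ∑ s : ZMod (NN k),
      scm (Matrix.single s r (1 : ℂ)) * AA F X (Matrix.single r s 1) w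
      = X w * scm (w : Mk k) + (NN k : ℂ) • (MA.diag (F w) * scm (w : Mk k)) := by
  have h1 : ∀ r s : ZMod (NN k), scm (Matrix.single s r (1 : ℂ)) * AA F X (Matrix.single r s 1) w
      = scm (Matrix.single s r (1 : ℂ)) * MA.diag ((X w).en s r) * scm (w : Mk k)
        + MA.diag (F w) * (scm (Matrix.single s s (1 : ℂ)) * scm (w : Mk k)) := by
    intro r s
    rw [AA, sl_single, mul_add]
    congr 1
    · rw [mul_assoc]
    · rw [← mul_assoc, ← diag_scm_comm, mul_assoc, ← mul_assoc (scm (Matrix.single s r (1 : ℂ))),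
        ← map_mul, Matrix.single_mul_single_same, mul_one]
  simp only [h1, Finset.sum_add_distrib]
  congr 1
  · rw [← sum_scm_diag (X w), Finset.sum_mul]
    simp only [sum_scm_diag, Finset.sum_mul]
  · have h2 : ∑ _r : ZMod (NN k), ∑ s : ZMod (NN k), (MA.diag (F w) : MA (ZMod (NN k)) DD) *
        (scm (Matrix.single s s (1 : ℂ) : Mk k) * scm (w : Mk k))
        = MA.diag (F w) * (scm (∑ _r : ZMod (NN k), ∑ s : ZMod (NN k),
          (Matrix.single s s (1 : ℂ) : Mk k)) * scm (w : Mk k)) := by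
      simp only [map_sum, Finset.sum_mul, Finset.mul_sum]
    rw [h2, sum_single, ZMod.card, map_smul, map_one, smul_mul_assoc, one_mul, mul_smul_comm]

theorem nice_avg {F : UG k → DD} {M Lc : ℝ} (hF : Nice k F M Lc) :
    ‖∫ w, (MA.diag (F w) * scm (w : Mk k) : MA (ZMod (NN k)) DD) ∂(mu k)‖
      ≤ Lc / NN k * (mu k).real Set.univ := by
  obtain ⟨X, hX1, hX2, hX3⟩ := hF.deriv
  have hall : ∀ e, IsPj e → JJ F X e = 0 := by
    intro e he
    obtain ⟨K, hK⟩ := hX3 e he
    exact JJ_pj hF.cont hX1 hF.bound hX2 he hK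
  have hN0 : (0 : ℝ) < NN k := by exact_mod_cast Nat.pos_of_ne_zero (NeZero.ne (NN k))
  obtain ⟨Φ, hΦ⟩ : ∃ Φ : UG k → MA (ZMod (NN k)) DD,
      Φ = fun w => MA.diag (F w) * scm (w : Mk k) := ⟨_, rfl⟩
  have hΦc : Continuous Φ := by
    rw [hΦ]
    exact (continuous_diag.comp hF.cont).mul continuous_scmw
  have hXc : Continuous (fun w : UG k => X w * scm (w : Mk k)) := hX1.mul continuous_scmw
  have h0 : ∑ r, ∑ s, scm (Matrix.single s r (1 : ℂ)) * JJ F X (Matrix.single r s 1)
      = (0 : MA (ZMod (NN k)) DD) := by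
    refine Finset.sum_eq_zero fun r _ => Finset.sum_eq_zero fun s _ => ?_
    rw [JJ_single hF.cont hX1 hall, mul_zero]
  have h1 : ∀ r s : ZMod (NN k), scm (Matrix.single s r (1 : ℂ)) * JJ F X (Matrix.single r s 1)
      = ∫ w, scm (Matrix.single s r (1 : ℂ)) * AA F X (Matrix.single r s 1) w ∂(mu k) := by
    intro r s
    have := ContinuousLinearMap.integral_comp_comm
      (ContinuousLinearMap.mul ℂ (MA (ZMod (NN k)) DD) (scm (Matrix.single s r (1 : ℂ))))
      (integrable_of_cont (continuous_AA hF.cont hX1 (Matrix.single r s 1)))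
    exact this.symm
  have h2 : ∫ w, (X w * scm (w : Mk k) + (NN k : ℂ) • Φ w) ∂(mu k) = 0 := by
    rw [← h0]
    simp only [h1]
    have hint : ∀ r s : ZMod (NN k), Integrable
        (fun w => scm (Matrix.single s r (1 : ℂ)) * AA F X (Matrix.single r s 1) w) (mu k) :=
      fun r s => integrable_of_cont (continuous_const.mul (continuous_AA hF.cont hX1 _))
    have h8 : ∫ w, (∑ r : ZMod (NN k), ∑ s : ZMod (NN k),
        scm (Matrix.single s r (1 : ℂ)) * AA F X (Matrix.single r s 1) w) ∂(mu k)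
        = ∑ r : ZMod (NN k), ∑ s : ZMod (NN k),
          ∫ w, scm (Matrix.single s r (1 : ℂ)) * AA F X (Matrix.single r s 1) w ∂(mu k) := by
      rw [integral_finsetSum _ (fun r _ => integrable_finsetSum _ (fun s _ => hint r s))]
      refine Finset.sum_congr rfl fun r _ => ?_
      rw [integral_finsetSum _ (fun s _ => hint r s)]
    rw [← h8, hΦ]
    congr 1
    funext w
    rw [sum_AA]
  have h3 : ∫ w, (X w * scm (w : Mk k) + (NN k : ℂ) • Φ w) ∂(mu k)
      = ∫ w, X w * scm (w : Mk k) ∂(mu k) + (NN k : ℂ) • ∫ w, Φ w ∂(mu k) := by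
    refine (integral_add (integrable_of_cont hXc)
      (integrable_of_cont (hΦc.const_smul (NN k : ℂ)))).trans ?_
    have h9 : ∫ w, (NN k : ℂ) • Φ w ∂(mu k) = (NN k : ℂ) • ∫ w, Φ w ∂(mu k) :=
      integral_smul (NN k : ℂ) Φ
    rw [← h9]
    rfl
  rw [h3] at h2
  have h4 : (NN k : ℂ) • ∫ w, Φ w ∂(mu k) = -∫ w, X w * scm (w : Mk k) ∂(mu k) :=
    (neg_eq_of_add_eq_zero_right h2).symm
  have h5 : ‖∫ w, X w * scm (w : Mk k) ∂(mu k)‖ ≤ Lc * (mu k).real Set.univ := by
    refine norm_integral_le_of_norm_le_const (Filter.Eventually.of_forall fun w => ?_)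
    have hL0 : 0 ≤ Lc := (norm_nonneg _).trans (hX2 1)
    calc ‖X w * scm (w : Mk k)‖ ≤ ‖X w‖ * ‖(scm (w : Mk k) : MA (ZMod (NN k)) DD)‖ :=
          norm_mul_le _ _
      _ ≤ Lc * 1 := by
          have := norm_scm_le (B := DD) (ug_left w)
          have := hX2 w
          gcongr
      _ = Lc := mul_one _
  have h6 : (NN k : ℝ) * ‖∫ w, Φ w ∂(mu k)‖ ≤ Lc * (mu k).real Set.univ := by
    have := congrArg norm h4
    rw [norm_smul, norm_neg, Complex.norm_natCast] at this
    rw [this]
    exact h5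
  have h7 : ‖∫ w, Φ w ∂(mu k)‖ ≤ (Lc * (mu k).real Set.univ) / NN k := by
    rw [le_div_iff₀ hN0]
    linarith
  rw [hΦ] at h7
  refine h7.trans (le_of_eq ?_)
  ring

end

end Pool.Agent.N299
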