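import Pool.Agent.N299.Alg

/-!
The limit algebras are separable, simple and purely infinite.
-/

set_option autoImplicit false

noncomputable section

namespace Pool.Agent.N299

open Pool.Agent.H188R3 Matrix Pool.Agent.Helper685.OSep TopologicalSpace
open scoped ENNReal

section

variable {v : VV} {L : Type} [CStarAlgebra L] {j : ∀ _ : ℕ, CA v →⋆ₐ[ℂ] L}

lemma lim_trans (h : IsLim (A := fun _ => CA v) (phi v) j) {n m : ℕ} (hnm : n ≤ m) (x : CA v) :
    j m (trans (A := fun _ => CA v) (phi v) n m x) = j n x := by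
  induction m, hnm using Nat.le_induction with
  | base => rw [trans_self]
  | succ m hm ih => rw [trans_succ _ hm, ← ih]; exact h.comp m _

lemma lim_nontrivial (h : IsLim (A := fun _ => CA v) (phi v) j) : Nontrivial L :=
  (h.inj 0).nontrivial

lemma lim_pi_aux (h : IsLim (A := fun _ => CA v) (phi v) j) {c : L} (hc : ‖c‖ = 1) :
    ∃ Z : L, star (c * Z) * (c * Z) = 1 := by
  obtain ⟨n, x, hx⟩ := h.dense c (1 / 100) (by norm_num)
  obtain ⟨a, ha⟩ : ∃ a : CA v, a = star x * x := ⟨_, rfl⟩
  have hjx : ‖j n x‖ = ‖x‖ := norm_map_inj _ (h.inj n) x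
  have hx1 : ‖x‖ ≤ 101 / 100 := by
    rw [← hjx]
    have : j n x = c - (c - j n x) := by abel
    rw [this]
    refine (norm_sub_le _ _).trans ?_
    rw [hc]
    linarith
  have hx2 : 99 / 100 ≤ ‖x‖ := by
    rw [← hjx]
    have h1 : ‖c‖ ≤ ‖c - j n x‖ + ‖j n x‖ := by
      have : c = (c - j n x) + j n x := by abel
      nth_rewrite 1 [this]
      exact norm_add_le _ _
    rw [hc] at h1
    linarith
  have hna : 9 / 10 < ‖a‖ := by
    rw [ha, CStarRing.norm_star_mul_self]
    nlinarith
  obtain ⟨i, hi⟩ := exists_pr a hna (by norm_num)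
  have hapos : Pos (pr v i a) := by
    rw [ha]
    exact (pos_star_mul x).map _
  obtain ⟨z, hz1, hz2⟩ := pi1 hapos (r := 9 / 10) (by norm_num) hi
  obtain ⟨m, hnm, hjn⟩ := exists_jn n i
  obtain ⟨e, he⟩ : ∃ e : CA v, e = sg v false ^ (m - n) := ⟨_, rfl⟩
  have hee : star e * e = 1 := by rw [he]; exact sg_pow_iso v _
  obtain ⟨b, hb⟩ : ∃ b : CA v, b = trans (A := fun _ => CA v) (phi v) n m a := ⟨_, rfl⟩
  have hbe : b * e = e * a := by
    rw [hb, he]
    exact trans_c0 v hnm a
  obtain ⟨y, hy⟩ : ∃ y : DD, y = pr v i e * z := ⟨_, rfl⟩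
  have hyy : star y * y = 1 := by
    rw [hy, star_mul, mul_assoc, ← mul_assoc (star (pr v i e)), ← map_star, ← map_mul, hee,
      map_one, one_mul, hz1]
  have hyb : star y * pr v i b * y = star z * pr v i a * z := by
    have h1 : pr v i b * pr v i e = pr v i e * pr v i a := by
      rw [← map_mul, hbe, map_mul]
    calc star y * pr v i b * y = star z * star (pr v i e) * (pr v i b * pr v i e) * z := by
          rw [hy, star_mul]
          simp only [mul_assoc]
      _ = star z * (star (pr v i e) * pr v i e) * pr v i a * z := by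
          rw [h1]
          simp only [mul_assoc]
      _ = star z * pr v i a * z := by
          rw [← map_star, ← map_mul, hee, map_one, mul_one]
  obtain ⟨Z₀, hZ₀⟩ : ∃ Z₀ : CA v, Z₀ = sg v true * da v y := ⟨_, rfl⟩
  have hZZ : star Z₀ * Z₀ = 1 := by
    rw [hZ₀, star_mul, mul_assoc, ← mul_assoc (star (sg v true)), sg_iso, one_mul, ← map_star,
      ← map_mul, hyy, map_one]
  have hZb : star Z₀ * phi v m b * Z₀ = da v (star z * pr v i a * z) := by
    rw [hZ₀, mul_assoc, ← mul_assoc (phi v m b), phi_c1, hjn, star_mul, ← hyb, map_mul, map_mul,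
      map_star]
    calc star (da v y) * star (sg v true) * (sg v true * da v (pr v i b) * da v y)
        = star (da v y) * (star (sg v true) * sg v true) * da v (pr v i b) * da v y := by
          simp only [mul_assoc]
      _ = _ := by rw [sg_iso, mul_one]
  have hpos : Pos (star Z₀ * phi v m b * Z₀ - ((9 / 10 : ℝ) : ℂ) • (1 : CA v)) := by
    have h1 := hz2.map (da v)
    rw [map_sub, map_smul, map_one, ← hZb] at h1
    exact h1
  obtain ⟨Z, hZ⟩ : ∃ Z : L, Z = j (m + 1) Z₀ := ⟨_, rfl⟩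
  have hZiso : star Z * Z = 1 := by
    rw [hZ, ← map_star, ← map_mul, hZZ, map_one]
  have hZn : ‖Z‖ ≤ 1 := norm_le_one_of_iso hZiso
  have hjb : j (m + 1) (phi v m b) = j n a := by
    rw [h.comp m b, hb]
    exact lim_trans h hnm a
  have hpos2 : Pos (star Z * j n a * Z - ((9 / 10 : ℝ) : ℂ) • (1 : L)) := by
    have h1 := hpos.map (j (m + 1))
    rw [map_sub, map_smul, map_one, map_mul, map_mul, map_star, hjb, ← hZ] at h1
    exact h1
  have hsa : star (star Z * (star c * c) * Z - ((9 / 10 : ℝ) : ℂ) • (1 : L))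
      = star Z * (star c * c) * Z - ((9 / 10 : ℝ) : ℂ) • (1 : L) := by
    rw [star_sub, star_smul, star_one, RCLike.star_def, Complex.conj_ofReal]
    simp only [star_mul, star_star, mul_assoc]
  have hd : ‖(star Z * j n a * Z - ((9 / 10 : ℝ) : ℂ) • (1 : L))
      - (star Z * (star c * c) * Z - ((9 / 10 : ℝ) : ℂ) • (1 : L))‖ ≤ 1 / 10 := by
    have e1 : (star Z * j n a * Z - ((9 / 10 : ℝ) : ℂ) • (1 : L))
      - (star Z * (star c * c) * Z - ((9 / 10 : ℝ) : ℂ) • (1 : L))
      = star Z * (j n a - star c * c) * Z := by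
      rw [mul_sub, sub_mul]
      abel
    have e2 : j n a - star c * c = star (j n x - c) * j n x + star c * (j n x - c) := by
      rw [ha, map_mul, map_star, star_sub, sub_mul, mul_sub]
      abel
    have e3 : ‖j n a - star c * c‖ ≤ 1 / 10 := by
      rw [e2]
      refine (norm_add_le _ _).trans ?_
      have h3 : ‖j n x - c‖ < 1 / 100 := by rw [norm_sub_rev]; exact hx
      calc ‖star (j n x - c) * j n x‖ + ‖star c * (j n x - c)‖
          ≤ ‖j n x - c‖ * ‖j n x‖ + ‖c‖ * ‖j n x - c‖ := by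
            refine add_le_add ((norm_mul_le _ _).trans ?_) ((norm_mul_le _ _).trans ?_)
            · rw [norm_star]
            · rw [norm_star]
        _ ≤ (1 / 100) * (101 / 100) + 1 * (1 / 100) := by
            rw [hc, hjx]
            gcongr
        _ ≤ 1 / 10 := by norm_num
    rw [e1]
    calc ‖star Z * (j n a - star c * c) * Z‖ ≤ ‖star Z‖ * ‖j n a - star c * c‖ * ‖Z‖ := by
          refine (norm_mul_le _ _).trans ?_
          gcongr
          exact norm_mul_le _ _
      _ ≤ 1 * (1 / 10) * 1 := by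
          have := norm_star_le_one hZn
          gcongr
      _ = 1 / 10 := by ring
  have hpos3 := pos_perturb hpos2 hsa hd
  have e4 : star Z * (star c * c) * Z - ((9 / 10 : ℝ) : ℂ) • (1 : L) + ((1 / 10 : ℝ) : ℂ) • (1 : L)
      = star Z * (star c * c) * Z - ((8 / 10 : ℝ) : ℂ) • (1 : L) := by
    have : ((9 / 10 : ℝ) : ℂ) = ((1 / 10 : ℝ) : ℂ) + ((8 / 10 : ℝ) : ℂ) := by
      push_cast
      norm_num
    rw [this, add_smul]
    abel
  rw [e4] at hpos3
  obtain ⟨R, hR⟩ := exists_inv (by norm_num) hpos3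
  refine ⟨Z * R, ?_⟩
  rw [← hR]
  simp only [star_mul, mul_assoc]

/-- the limit algebras are purely infinite -/
theorem lim_pi (h : IsLim (A := fun _ => CA v) (phi v) j) {c : L} (hc : c ≠ 0) :
    ∃ Z : L, star (c * Z) * (c * Z) = 1 := by
  have hn : ‖c‖ ≠ 0 := norm_ne_zero_iff.2 hc
  have h1 : ‖((‖c‖⁻¹ : ℝ) : ℂ) • c‖ = 1 := by
    rw [norm_smul, Complex.norm_real, norm_inv, norm_norm, inv_mul_cancel₀ hn]
  obtain ⟨Z, hZ⟩ := lim_pi_aux h h1
  refine ⟨((‖c‖⁻¹ : ℝ) : ℂ) • Z, ?_⟩
  rw [← hZ, mul_smul_comm, smul_mul_assoc]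

/-- the limit algebras are separable -/
theorem lim_sep (h : IsLim (A := fun _ => CA v) (phi v) j) : SeparableSpace L := by
  refine ⟨⟨Set.range fun p : ℕ × Tm => j p.1 (tm v p.2), Set.countable_range _, ?_⟩⟩
  intro y
  rw [Metric.mem_closure_iff]
  intro ε hε
  obtain ⟨n, x, hx⟩ := h.dense y (ε / 2) (by linarith)
  obtain ⟨t, ht⟩ := tm_dense v x (ε := ε / 2) (by linarith)
  refine ⟨_, ⟨(n, t), rfl⟩, ?_⟩
  rw [dist_eq_norm]
  have e : y - j n (tm v t) = (y - j n x) + j n (x - tm v t) := by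
    rw [map_sub]
    abel
  have h3 : ‖j n (x - tm v t)‖ ≤ ‖x - tm v t‖ := norm_map_le' _ _
  rw [e]
  refine (norm_add_le _ _).trans_lt ?_
  linarith

/-- the final form of the properties of the limit algebras -/
theorem lim_props (h : IsLim (A := fun _ => CA v) (phi v) j) :
    SeparableSpace L ∧ Nontrivial L ∧
      (∀ I : TwoSidedIdeal L, IsClosed (I : Set L) → I = ⊥ ∨ I = ⊤) ∧
      (∃ a b : L, a * b ≠ b * a) ∧
      (∀ c d : L, c ≠ 0 → d ≠ 0 → ∀ ε : ℝ, 0 < ε →
        ∃ x : L, ‖star x * (star c * c) * x - star d * d‖ < ε) := by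
  have hnt := lim_nontrivial h
  refine ⟨lim_sep h, hnt, ?_, ?_, ?_⟩
  · intro I _
    by_cases hI : ∃ c ∈ I, c ≠ 0
    · right
      obtain ⟨c, hcI, hc⟩ := hI
      obtain ⟨Z, hZ⟩ := lim_pi h hc
      have h1 : (1 : L) ∈ I := by
        rw [← hZ]
        exact I.mul_mem_left _ _ (I.mul_mem_right _ _ hcI)
      rw [eq_top_iff]
      intro x _
      have := I.mul_mem_left x 1 h1
      rwa [mul_one] at this
    · left
      push Not at hI
      rw [eq_bot_iff]
      intro x hx
      have := hI x hx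
      rw [this]
      exact zero_mem _
  · refine ⟨j 0 (sg v false), j 0 (sg v true), ?_⟩
    intro heq
    rw [← map_mul, ← map_mul] at heq
    have h1 := h.inj 0 heq
    have h2 := congrArg (fun z => star (sg v false) * z) h1
    simp only [← mul_assoc] at h2
    rw [sg_iso, sg_mul] at h2
    simp only [one_mul] at h2
    simp at h2
    have h3 := sg_iso v true
    rw [h2] at h3
    simp at h3
  · intro c d hc _ ε hε
    obtain ⟨Z, hZ⟩ := lim_pi h hc
    refine ⟨Z * d, ?_⟩
    have : star (Z * d) * (star c * c) * (Z * d) = star d * (star (c * Z) * (c * Z)) * d := by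
      simp only [star_mul, mul_assoc]
    rw [this, hZ, mul_one, sub_self, norm_zero]
    exact hε

end

end Pool.Agent.N299
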